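import Mathlib
import Pool.Agent.H.MP_96e181_an.blk.Defs

set_option autoImplicit false

open MeasureTheory

namespace Pool.Agent.H.MP_96e181_an.Gen

open Pool.Agent.H.MP_96e181_an.Blk

/-- The primes of `p` grouped by slope: `p = ∏ R i ^ A i`, `q = Q0 * ∏ R i ^ B i`. -/
structure NF (p q : ℕ) where
  J : ℕ
  R : Fin J → ℕ
  A : Fin J → ℕ
  B : Fin J → ℕ
  Q0 : ℕ
  hR : ∀ i, 2 ≤ R i
  hA : ∀ i, 1 ≤ A i
  hcop : ∀ i j, i ≠ j → Nat.Coprime (R i) (R j)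
  hdir : ∀ i j, i ≠ j → A i * B j ≠ A j * B i
  hAB : ∀ i, Nat.Coprime (A i) (B i)
  hp : p = ∏ i, R i ^ A i
  hQ0 : Nat.Coprime Q0 p
  hq : q = Q0 * ∏ i, R i ^ B i
  hne : ∀ i, p ^ B i ≠ q ^ A i

/-- `o` is the order index of `ξ`. -/
def Index {p q : ℕ} (N : NF p q) (o : Fin N.J → ℕ) (ξ : UnitAddCircle) : Prop :=
  ∀ a b : ℕ, ∀ i : Fin N.J, (∀ j, j ≠ i → o j ≤ N.A j * a + N.B j * b) → ∀ m : ℕ,
    (N.R i ^ m • ((p ^ a * q ^ b) • ξ) = 0 ↔ o i ≤ N.A i * a + N.B i * b + m)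

/-- The strip of width `s` and length `ℓ` at the line `A i * a + B i * b = m * s`, in the cell
`c * ℓ ≤ b < (c + 1) * ℓ`. -/
def strip {p q : ℕ} (N : NF p q) (i : Fin N.J) (s l m c : ℕ) : Finset (ℕ × ℕ) :=
  (Finset.range (m * s + s) ×ˢ Finset.Ico (c * l) ((c + 1) * l)).filter
    (fun v => m * s ≤ N.A i * v.1 + N.B i * v.2 ∧ N.A i * v.1 + N.B i * v.2 < m * s + s)

/-- The position of a strip relative to the order index `o`: the edge `i` of the polygon lies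
just beyond the strip, and the other components are killed on the strip. -/
structure Edge {p q : ℕ} (N : NF p q) (o : Fin N.J → ℕ) (T : ℕ) (i : Fin N.J) (s l m c : ℕ) :
    Prop where
  lo : m * s + s < o i
  hi : o i ≤ m * s + 2 * s
  other : ∀ a b : ℕ, b ∈ Finset.Ico (c * l) ((c + 1) * l) → m * s ≤ N.A i * a + N.B i * b →
    ∀ j, j ≠ i → o j ≤ N.A j * a + N.B j * b
  le : ∀ a b : ℕ, N.A i * a + N.B i * b < m * s + s → a ≤ T
  full : N.B i * ((c + 1) * l) ≤ m * s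

end Pool.Agent.H.MP_96e181_an.Gen
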