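import Mathlib
import Pool.Agent.H.MP_96e181_an.gen.Defs

set_option autoImplicit false

open MeasureTheory

namespace Pool.Agent.H.MP_96e181_an.Gen

open Pool.Agent.H.MP_96e181_an.Blk

/-! The last step: a measure without atoms which is invariant under multiplication by `p` cannot
have the no-branching property on sets of measure at least `1 / 2`. -/

private lemma mp_pow {p : ℕ} {μ : Measure UnitAddCircle}
    (hμp : MeasurePreserving (fun x : UnitAddCircle => p • x) μ μ) (n : ℕ) :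
    MeasurePreserving (fun x : UnitAddCircle => p ^ n • x) μ μ := by
  induction n with
  | zero =>
    have h2 : (fun x : UnitAddCircle => p ^ 0 • x) = id := by
      funext x; simp
    rw [h2]; exact MeasurePreserving.id μ
  | succ n ih =>
    have h := hμp.comp ih
    have h2 : ((fun x : UnitAddCircle => p • x) ∘ fun x => p ^ n • x) =
        fun x : UnitAddCircle => p ^ (n + 1) • x := by
      funext x
      simp only [Function.comp_apply]
      rw [smul_smul, pow_succ, mul_comm]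
    rwa [h2] at h

private lemma measureReal_pre {p : ℕ} {μ : Measure UnitAddCircle}
    (hμp : MeasurePreserving (fun x : UnitAddCircle => p • x) μ μ) (n : ℕ)
    {B : Set UnitAddCircle} (hB : MeasurableSet B) :
    μ.real ((fun x : UnitAddCircle => p ^ n • x) ⁻¹' B) = μ.real B := by
  unfold Measure.real
  rw [(mp_pow hμp n).measure_preimage hB.nullMeasurableSet]

/-- balls of small radius have small measure, uniformly -/
private lemma unif_small {μ : Measure UnitAddCircle} [IsProbabilityMeasure μ]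
    [NullSingletonClass μ] {e : ℝ} (he : 0 < e) :
    ∃ δ : ℝ, 0 < δ ∧ ∀ x, μ.real (Metric.ball x δ) ≤ e := by
  have h1 : ∀ x : UnitAddCircle, ∃ U : Set UnitAddCircle, {x} ⊆ U ∧ IsOpen U ∧
      μ U < ENNReal.ofReal e := by
    intro x
    obtain ⟨U, hU, hUo, hUm⟩ := Set.exists_isOpen_lt_of_lt (μ := μ) {x} (ENNReal.ofReal e) (by
      rw [measure_singleton]; exact ENNReal.ofReal_pos.mpr he)
    exact ⟨U, hU, hUo, hUm⟩
  choose U hU hUo hUm using h1
  obtain ⟨δ, hδ, h⟩ := lebesgue_number_lemma_of_metric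
    (isCompact_univ : IsCompact (Set.univ : Set UnitAddCircle)) hUo
    (fun x _ => Set.mem_iUnion.mpr ⟨x, hU x rfl⟩)
  refine ⟨δ, hδ, fun x => ?_⟩
  obtain ⟨i, hi⟩ := h x (Set.mem_univ x)
  have h2 := (measure_mono hi).trans (hUm i).le
  exact ENNReal.toReal_le_of_le_ofReal he.le h2

theorem atoms_of_good {p : ℕ} (hp : 2 ≤ p) {μ : Measure UnitAddCircle} [IsProbabilityMeasure μ]
    [NullSingletonClass μ] (hμp : MeasurePreserving (fun x : UnitAddCircle => p • x) μ μ)
    (k₀ T₀ : ℕ)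
    (H : ∀ n₀, T₀ ≤ n₀ → ∃ E : Set UnitAddCircle, MeasurableSet E ∧ μ.real E ≤ 1 / 2 ∧
      ∀ x, x ∉ E → ∀ y, y ∉ E → ‖p ^ n₀ • (x - y)‖ ≤ 1 / (p : ℝ) ^ k₀ →
        ‖p ^ T₀ • (x - y)‖ ≤ 1 / (p : ℝ) ^ (n₀ - T₀)) : False := by
  classical
  have hp0 : (0 : ℝ) < p := by exact_mod_cast (by omega : 0 < p)
  have hp1 : (1 : ℝ) < p := by exact_mod_cast (by omega : 1 < p)
  have hρ : (0 : ℝ) < 1 / (p : ℝ) ^ k₀ / 2 := by positivity
  obtain ⟨c, -, hcfin, hcov⟩ := _root_.finite_cover_balls_of_compact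
    (isCompact_univ : IsCompact (Set.univ : Set UnitAddCircle)) hρ
  set cs := hcfin.toFinset with hcs
  obtain ⟨δ, hδ, hsm⟩ := unif_small (μ := μ)
    (show (0 : ℝ) < 1 / (4 * ((cs.card : ℝ) + 1)) by positivity)
  obtain ⟨n, hn⟩ := exists_pow_lt_of_lt_one hδ (inv_lt_one_of_one_lt₀ hp1)
  obtain ⟨E, hEm, hEle, hE⟩ := H (T₀ + n) (Nat.le_add_right _ _)
  rw [Nat.add_sub_cancel_left] at hE
  have hnδ : 1 / (p : ℝ) ^ n < δ := by rw [one_div, ← inv_pow]; exact hn
  have hsub : Eᶜ ⊆ ⋃ a ∈ cs, (fun x : UnitAddCircle => p ^ T₀ • x) ⁻¹'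
      Metric.ball (if h : ∃ u, u ∉ E ∧ p ^ (T₀ + n) • u ∈
        Metric.ball a (1 / (p : ℝ) ^ k₀ / 2) then p ^ T₀ • h.choose else 0) δ := by
    intro u hu
    have h1 := hcov (Set.mem_univ (p ^ (T₀ + n) • u))
    simp only [Set.mem_iUnion] at h1
    obtain ⟨a, ha, hua⟩ := h1
    simp only [Set.mem_iUnion]
    refine ⟨a, hcfin.mem_toFinset.mpr ha, ?_⟩
    have hex : ∃ u, u ∉ E ∧ p ^ (T₀ + n) • u ∈
        Metric.ball a (1 / (p : ℝ) ^ k₀ / 2) := ⟨u, hu, hua⟩
    rw [Set.mem_preimage, dif_pos hex]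
    obtain ⟨hv, hva⟩ := hex.choose_spec
    set v := hex.choose with hvdef
    have h2 : ‖p ^ (T₀ + n) • (u - v)‖ ≤ 1 / (p : ℝ) ^ k₀ := by
      rw [smul_sub, ← dist_eq_norm]
      rw [Metric.mem_ball] at hua hva
      have := dist_triangle_right (p ^ (T₀ + n) • u) (p ^ (T₀ + n) • v) a
      linarith
    have h3 := hE u hu v hv h2
    rw [Metric.mem_ball, dist_eq_norm, ← smul_sub]
    exact lt_of_le_of_lt h3 hnδ
  have h1 : μ.real Eᶜ ≤ (cs.card : ℝ) * (1 / (4 * ((cs.card : ℝ) + 1))) := by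
    refine (measureReal_mono hsub (measure_ne_top _ _)).trans
      ((measureReal_biUnion_finset_le _ _).trans ?_)
    rw [← nsmul_eq_mul]
    refine Finset.sum_le_card_nsmul _ _ _ fun a _ => ?_
    rw [measureReal_pre hμp _ Metric.isOpen_ball.measurableSet]
    exact hsm _
  have h2 : (cs.card : ℝ) * (1 / (4 * ((cs.card : ℝ) + 1))) ≤ 1 / 4 := by
    rw [mul_one_div, div_le_div_iff₀ (by positivity) (by norm_num)]
    have : (0 : ℝ) ≤ cs.card := Nat.cast_nonneg _
    nlinarith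
  have h3 : (1 : ℝ) ≤ μ.real E + μ.real Eᶜ := by
    have h4 := measureReal_union_le (μ := μ) E Eᶜ
    rw [Set.union_compl_self] at h4
    simpa using h4
  linarith

end Pool.Agent.H.MP_96e181_an.Gen
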