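import Mathlib
import Pool.Agent.H.MP_96e181_an.blk.Defs
import Pool.Agent.H.MP_96e181_an.gen.Defs
import Pool.Agent.H.MP_96e181_an.SlowEntropy
import Pool.Agent.H.MP_96e181_an.Erg
import Pool.Agent.H.MP_96e181_an.mix.EntStep

set_option autoImplicit false

open MeasureTheory

namespace Pool.Agent.H.MP_96e181_an.Gen

open Pool.Agent.H.MP_96e181_an.Blk
open Pool.Agent.H.MP_96e181_an.Mix
open Set Metric
open scoped ENNReal

/-- The entropy step: outside a set of small measure the mass of balls drops at most by a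
constant factor when the radius is divided by `K`. -/
theorem ent_div {μ : Measure UnitAddCircle} [IsProbabilityMeasure μ] {r : ℝ} (hr : 0 < r)
    {K : ℕ} (hK : 1 ≤ K) {η : ℝ≥0∞} (hη : 0 < η) (hη1 : η ≤ 1) {c : ℝ}
    (hbad : μ.real {x | μ (ball x (r / K)) ≤ η * μ (ball x r)} ≤ c) :
    ent μ (r / K) ≤ ent μ r + Real.log (1 / η.toReal) + c * Real.log K + 4 := by
  have hKR : (1:ℝ) ≤ K := by exact_mod_cast hK
  have hK0 : (0:ℝ) < K := by linarith
  have hr' : 0 < r / K := by positivity
  have hηtop : η ≠ ∞ := ne_top_of_le_ne_top ENNReal.one_ne_top hη1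
  have hη0 : 0 < η.toReal := ENNReal.toReal_pos hη.ne' hηtop
  have hη01 : η.toReal ≤ 1 := by
    have := ENNReal.toReal_mono ENNReal.one_ne_top hη1
    simpa using this
  have hlog0 : 0 ≤ Real.log (1 / η.toReal) := Real.log_nonneg (by
    rw [le_div_iff₀ hη0]; linarith)
  have hlogK : 0 ≤ Real.log K := Real.log_nonneg hKR
  set B : Set UnitAddCircle := {x | μ (ball x (r / K)) ≤ η * μ (ball x r)} with hB
  have hBm : MeasurableSet B :=
    measurableSet_le (measurable_ball' _) ((measurable_ball' _).const_mul _)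
  set V : UnitAddCircle → ℝ≥0∞ := fun x => μ (ball x (K * (r / K))) * (μ (ball x (r / K)))⁻¹
    with hV
  have hVm : Measurable V := (measurable_ball' _).mul (measurable_ball' (r / K)).inv
  have hVl : ∫⁻ x, V x ∂μ ≤ 4 * K := by
    have := lintegral_cross (μ := μ) hr' MeasurableSet.univ univ K
    simpa [hV] using this
  have hVfin : ∫⁻ x, V x ∂μ ≠ ∞ :=
    (lt_of_le_of_lt hVl (ENNReal.mul_lt_top (by simp) (ENNReal.natCast_lt_top K))).ne
  have hVi : Integrable (fun x => (V x).toReal) μ :=
    integrable_toReal_of_lintegral_ne_top hVm.aemeasurable hVfin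
  have hVint : ∫ x, (V x).toReal ∂μ ≤ 4 * K := by
    rw [integral_toReal hVm.aemeasurable (ae_lt_top' hVm.aemeasurable hVfin)]
    have := ENNReal.toReal_mono (ENNReal.mul_lt_top (by simp) (ENNReal.natCast_lt_top K)).ne hVl
    simpa using this
  have hae : ∀ᵐ x ∂μ, phi μ (r / K) x ≤ phi μ r x + Real.log (1 / η.toReal) +
      B.indicator (fun _ => Real.log K) x + (V x).toReal / K := by
    filter_upwards [ae_pos' (μ := μ) hr', ae_pos' (μ := μ) hr] with x h1 h2
    have hV0 : 0 ≤ (V x).toReal / K := by positivity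
    by_cases hx : x ∈ B
    · rw [indicator_of_mem hx]
      have := bad_bound (μ := μ) (r := r / K) (R := r) (M := K)
        (by rw [mul_div_cancel₀ _ hK0.ne']) hKR h1 (div_le_self hr.le hKR)
      linarith
    · rw [indicator_of_notMem hx]
      have h3 : η * μ (ball x r) < μ (ball x (r / K)) := by
        simpa [hB] using hx
      have h4 : η.toReal * μ.real (ball x r) ≤ μ.real (ball x (r / K)) := by
        have := ENNReal.toReal_mono (measure_ne_top μ _) h3.le
        rw [ENNReal.toReal_mul] at this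
        exact this
      have h5 := Real.log_le_log (by positivity) h4
      rw [Real.log_mul hη0.ne' h2.ne'] at h5
      have h6 : Real.log (1 / η.toReal) = - Real.log η.toReal := by
        rw [one_div, Real.log_inv]
      change -Real.log (μ.real (ball x (r / K))) ≤ -Real.log (μ.real (ball x r)) +
        Real.log (1 / η.toReal) + 0 + (V x).toReal / K
      linarith
  have hI1 : Integrable (phi μ r) μ := integrable_phi hr
  have hI2 : Integrable (fun _ : UnitAddCircle => Real.log (1 / η.toReal)) μ :=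
    integrable_const _
  have hI3 : Integrable (B.indicator (fun _ => Real.log K)) μ :=
    (integrable_const _).indicator hBm
  have hI4 : Integrable (fun x => (V x).toReal / K) μ := hVi.div_const K
  have hmain := integral_mono_ae (integrable_phi hr') (((hI1.add hI2).add hI3).add hI4) hae
  have e1 : ∫ x, (((phi μ r + fun _ : UnitAddCircle => Real.log (1 / η.toReal)) +
      B.indicator (fun _ => Real.log K)) + fun x => (V x).toReal / K) x ∂μ =
      ent μ r + Real.log (1 / η.toReal) + μ.real B * Real.log K +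
        (∫ x, (V x).toReal ∂μ) / K := by
    rw [integral_add' ((hI1.add hI2).add hI3) hI4, integral_add' (hI1.add hI2) hI3,
      integral_add' hI1 hI2, integral_indicator hBm,
      setIntegral_const, integral_div, smul_eq_mul]
    simp [ent]
  rw [e1] at hmain
  have h5 : (∫ x, (V x).toReal ∂μ) / K ≤ 4 := by
    rw [div_le_iff₀ hK0]; exact hVint
  have h6 : μ.real B * Real.log K ≤ c * Real.log K := mul_le_mul_of_nonneg_right hbad hlogK
  change ent μ (r / K) ≤ _ at hmain
  linarith

/-- A set all of whose points are centres of balls of radius `r` with mass at least `m` is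
covered by few balls. -/
theorem exists_cover {μ : Measure UnitAddCircle} [IsProbabilityMeasure μ] {r m : ℝ}
    (hm : 0 < m) (G : Set UnitAddCircle) (hG : ∀ x ∈ G, m ≤ μ.real (ball x r)) :
    ∃ Z : Finset UnitAddCircle, (Z.card : ℝ) * m ≤ 1 ∧ G ⊆ nbh Z (2 * r) := by
  classical
  -- separated finite subsets of `G`
  let P : ℕ → Prop := fun n => ∃ Z : Finset UnitAddCircle, Z.card = n ∧ (∀ z ∈ Z, z ∈ G) ∧
    ∀ z ∈ Z, ∀ w ∈ Z, z ≠ w → 2 * r ≤ dist z w
  have hbound : ∀ Z : Finset UnitAddCircle, (∀ z ∈ Z, z ∈ G) →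
      (∀ z ∈ Z, ∀ w ∈ Z, z ≠ w → 2 * r ≤ dist z w) → (Z.card : ℝ) * m ≤ 1 := by
    intro Z hZ hsep
    have hdisj : Set.PairwiseDisjoint (↑Z : Set UnitAddCircle) (fun z => ball z r) := by
      intro z hz w hw hne
      exact ball_disjoint_ball (by have := hsep z hz w hw hne; linarith)
    have h1 : μ.real (⋃ z ∈ Z, ball z r) = ∑ z ∈ Z, μ.real (ball z r) :=
      measureReal_biUnion_finset hdisj (fun z _ => measurableSet_ball)
    have h2 : ∑ z ∈ Z, m ≤ ∑ z ∈ Z, μ.real (ball z r) :=
      Finset.sum_le_sum (fun z hz => hG z (hZ z hz))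
    rw [Finset.sum_const, nsmul_eq_mul, ← h1] at h2
    exact h2.trans measureReal_le_one
  have hP0 : P 0 := ⟨∅, rfl, by simp, by simp⟩
  obtain ⟨N, hN⟩ := exists_nat_gt (1 / m)
  have hPle : ∀ n, P n → n ≤ N := by
    rintro n ⟨Z, rfl, h1, h2⟩
    have h3 := hbound Z h1 h2
    have h4 : (Z.card : ℝ) ≤ 1 / m := by rw [le_div_iff₀ hm]; exact h3
    have h5 : (Z.card : ℝ) < N := lt_of_le_of_lt h4 hN
    exact_mod_cast h5.le
  have hmax : P (Nat.findGreatest P N) := Nat.findGreatest_spec (Nat.zero_le N) hP0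
  obtain ⟨Z, hZc, hZG, hZs⟩ := hmax
  refine ⟨Z, hbound Z hZG hZs, ?_⟩
  intro x hx
  by_contra hcon
  have hfar : ∀ z ∈ Z, 2 * r < dist x z := by
    intro z hz
    by_contra h
    push Not at h
    exact hcon (mem_iUnion₂.2 ⟨z, hz, mem_closedBall.2 h⟩)
  have hxZ : x ∉ Z := by
    intro hxZ
    have h1 := hfar x hxZ
    rw [dist_self] at h1
    -- `r < 0`, so the ball is empty
    have h2 := hG x hx
    have h3 : ball x r = ∅ := ball_eq_empty.2 (by linarith)
    rw [h3, measureReal_empty] at h2
    linarith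
  have hP' : P (Z.card + 1) := by
    refine ⟨insert x Z, Finset.card_insert_of_notMem hxZ, ?_, ?_⟩
    · intro z hz
      rcases Finset.mem_insert.1 hz with rfl | hz
      · exact hx
      · exact hZG z hz
    · intro z hz w hw hne
      rcases Finset.mem_insert.1 hz with hz' | hz'
      · rcases Finset.mem_insert.1 hw with hw' | hw'
        · exact absurd (hz'.trans hw'.symm) hne
        · rw [hz']; exact (hfar w hw').le
      · rcases Finset.mem_insert.1 hw with hw' | hw'
        · rw [hw', dist_comm]; exact (hfar z hz').le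
        · exact hZs z hz' w hw' hne
  have h7 := Nat.le_findGreatest (hPle _ hP') hP'
  omega

theorem small_cover {p q : ℕ} (hp : 2 ≤ p) (hq : 2 ≤ q)
    (h : Irrational (Real.log (p : ℝ) / Real.log (q : ℝ)))
    {μ : Measure UnitAddCircle} [IsProbabilityMeasure μ]
    (hμp : MeasurePreserving (fun x : UnitAddCircle => p • x) μ μ)
    (hμq : MeasurePreserving (fun x : UnitAddCircle => q • x) μ μ)
    (herg : ∀ A : Set UnitAddCircle, MeasurableSet A →
      (fun x : UnitAddCircle => p • x) ⁻¹' A = A → (fun x : UnitAddCircle => q • x) ⁻¹' A = A →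
      μ A = 0 ∨ μ Aᶜ = 0)
    (hne : μ ≠ (volume : Measure UnitAddCircle)) {ε : ℝ} (hε : 0 < ε) :
    ∃ (Z : Finset UnitAddCircle) (r : ℝ), 0 < r ∧ (Z.card : ℝ) ^ 2 * r ≤ ε ∧
      μ.real (nbh Z r)ᶜ ≤ 1 / 64 := by
  obtain ⟨ρ, hρ, hslow⟩ := slow_entropy hp hq h
  -- the constant `η`
  have h1 : ∃ η : ℝ≥0∞, 0 < η ∧ ∀ K : ℕ, 0 < K → ∀ r : ℝ, 0 < r → r ≤ ρ K →
      μ {x | μ (Metric.ball x (r / K)) ≤ η * μ (Metric.closedBall x r)} < 1 / 4096 := by
    by_contra hcon
    push Not at hcon
    have h2 := hslow μ inferInstance hμp hμq (1 / 4096) (fun η hη => by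
      obtain ⟨K, hK, r, hr, hrK, hc⟩ := hcon η hη
      exact ⟨K, hK, r, hr, hrK, hc⟩)
    exact hne (eq_volume_of_ergodic hp hq hμp hμq herg (by simp) h2)
  obtain ⟨η₁, hη₁, hη₁b⟩ := h1
  set η : ℝ≥0∞ := min η₁ 1 with hη
  have hη0 : 0 < η := lt_min hη₁ one_pos
  have hη1 : η ≤ 1 := min_le_right _ _
  have hstep : ∀ K : ℕ, 1 ≤ K → ∀ r : ℝ, 0 < r → r ≤ ρ K →
      ent μ (r / K) ≤ ent μ r + Real.log (1 / η.toReal) + 1 / 4096 * Real.log K + 4 := by
    intro K hK r hr hrK
    refine ent_div hr hK hη0 hη1 ?_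
    have h2 : μ {x | μ (ball x (r / K)) ≤ η * μ (ball x r)} ≤ 1 / 4096 := by
      refine le_trans (measure_mono ?_) (hη₁b K hK r hr hrK).le
      intro x hx
      have hx' : μ (ball x (r / K)) ≤ η * μ (ball x r) := hx
      refine le_trans hx' ?_
      exact mul_le_mul' (min_le_left _ _) (measure_mono ball_subset_closedBall)
    have h3 := ENNReal.toReal_mono (by simp) h2
    simpa [Measure.real] using h3
  -- the constant `K`
  set L : ℝ := Real.log (1 / η.toReal) with hL
  have hηtop : η ≠ ∞ := ne_top_of_le_ne_top ENNReal.one_ne_top hη1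
  have hη0' : 0 < η.toReal := ENNReal.toReal_pos hη0.ne' hηtop
  have hη01 : η.toReal ≤ 1 := by
    have := ENNReal.toReal_mono ENNReal.one_ne_top hη1
    simpa using this
  have hL0 : 0 ≤ L := Real.log_nonneg (by rw [le_div_iff₀ hη0']; linarith)
  obtain ⟨K, hK⟩ := exists_nat_ge (Real.exp (4096 * (L + 4)))
  have hKpos : (0:ℝ) < K := lt_of_lt_of_le (Real.exp_pos _) hK
  have hK1 : 1 ≤ K := by exact_mod_cast hKpos
  have hlogK : 4096 * (L + 4) ≤ Real.log K := by
    rw [Real.le_log_iff_exp_le hKpos]; exact hK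
  have hlogK1 : 1 ≤ Real.log K := by linarith
  -- iterate
  set R : ℕ → ℝ := fun n => ρ K / (K : ℝ) ^ n with hR
  have hRpos : ∀ n, 0 < R n := fun n => by
    have := hρ K
    positivity
  have hRle : ∀ n, R n ≤ ρ K := fun n =>
    div_le_self (hρ K).le (one_le_pow₀ (by exact_mod_cast hK1))
  have hent : ∀ n : ℕ, ent μ (R n) ≤ ent μ (R 0) + n * (Real.log K / 2048) := by
    intro n
    induction n with
    | zero => simp
    | succ n ih =>
      have h2 := hstep K hK1 (R n) (hRpos n) (hRle n)
      have h3 : R n / K = R (n + 1) := by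
        simp only [hR]
        rw [pow_succ, div_div]
      rw [h3] at h2
      push_cast
      nlinarith
  -- choose `n`
  set C : ℝ := 2 * ρ K * Real.exp (128 * (ent μ (R 0) + 1)) with hC
  have hCpos : 0 < C := by
    have := hρ K
    positivity
  obtain ⟨n, hn⟩ := exists_nat_ge (2 * Real.log (C / ε))
  set t : ℝ := 64 * (ent μ (R n) + 1) with ht
  have hent0 : 0 ≤ ent μ (R n) := integral_nonneg (fun x => phi_nonneg _ _)
  have htpos : 0 < t := by positivity
  -- the good set
  set G : Set UnitAddCircle := {x | Real.exp (-t) ≤ μ.real (ball x (R n))} with hG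
  have hGc : μ.real Gᶜ ≤ 1 / 64 := by
    have h2 : μ.real {x | t ≤ phi μ (R n) x} ≤ 1 / 64 := by
      have h3 := mul_meas_ge_le_integral_of_nonneg (μ := μ)
        (Filter.Eventually.of_forall (fun x => phi_nonneg (μ := μ) (R n) x))
        (integrable_phi (hRpos n)) t
      change t * μ.real {x | t ≤ phi μ (R n) x} ≤ ent μ (R n) at h3
      rw [ht] at h3
      have h4 : (64 * (ent μ (R n) + 1)) * μ.real {x | t ≤ phi μ (R n) x} ≤
          (64 * (ent μ (R n) + 1)) * (1 / 64) := by linarith
      exact le_of_mul_le_mul_left h4 (by positivity)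
    refine le_trans ?_ h2
    refine ENNReal.toReal_mono (measure_ne_top _ _) (measure_mono_ae ?_)
    filter_upwards [ae_pos' (μ := μ) (hRpos n)] with x hx hxG
    have hxG' : ¬ (Real.exp (-t) ≤ μ.real (ball x (R n))) := hxG
    push Not at hxG'
    change t ≤ -Real.log (μ.real (ball x (R n)))
    have := Real.log_lt_log hx hxG'
    rw [Real.log_exp] at this
    linarith
  obtain ⟨Z, hZc, hZG⟩ := exists_cover (μ := μ) (r := R n) (Real.exp_pos (-t)) G
    (fun x hx => hx)
  refine ⟨Z, 2 * R n, by have := hRpos n; linarith, ?_, ?_⟩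
  · have h2 : (Z.card : ℝ) ≤ Real.exp t := by
      rw [Real.exp_neg, ← div_eq_mul_inv, div_le_iff₀ (Real.exp_pos _), one_mul] at hZc
      exact hZc
    have h3 : (Z.card : ℝ) ^ 2 ≤ Real.exp t ^ 2 := by
      exact pow_le_pow_left₀ (by positivity) h2 2
    have h4 : Real.exp t ^ 2 = Real.exp (2 * t) := by
      rw [← Real.exp_nat_mul]; norm_num
    have h5 : R n = ρ K * Real.exp (-(n * Real.log K)) := by
      simp only [hR]
      rw [Real.exp_neg, Real.exp_nat_mul, Real.exp_log hKpos, div_eq_mul_inv]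
    have h6 : 2 * t ≤ 128 * (ent μ (R 0) + 1) + n * (Real.log K / 16) := by
      have := hent n
      rw [ht]
      linarith
    have h7 : (Z.card : ℝ) ^ 2 * (2 * R n) ≤
        Real.exp (128 * (ent μ (R 0) + 1) + n * (Real.log K / 16)) * (2 * R n) := by
      refine mul_le_mul_of_nonneg_right ?_ (by have := hRpos n; linarith)
      rw [h4] at h3
      exact h3.trans (Real.exp_le_exp.2 h6)
    have h8 : Real.exp (128 * (ent μ (R 0) + 1) + n * (Real.log K / 16)) * (2 * R n) =
        C * Real.exp (n * (Real.log K / 16) - n * Real.log K) := by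
      rw [h5, hC, Real.exp_add, sub_eq_add_neg, Real.exp_add]; ring
    have hn0 : (0:ℝ) ≤ n := Nat.cast_nonneg n
    have h9 : (n : ℝ) * (Real.log K / 16) - n * Real.log K ≤ -Real.log (C / ε) := by
      nlinarith
    have h10 : C * Real.exp (n * (Real.log K / 16) - n * Real.log K) ≤ ε := by
      calc C * Real.exp (n * (Real.log K / 16) - n * Real.log K)
          ≤ C * Real.exp (-Real.log (C / ε)) := by
            exact mul_le_mul_of_nonneg_left (Real.exp_le_exp.2 h9) hCpos.le
        _ = ε := by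
            rw [Real.exp_neg, Real.exp_log (by positivity)]
            field_simp
    linarith
  · refine le_trans (ENNReal.toReal_mono (measure_ne_top _ _) (measure_mono ?_)) hGc
    exact compl_subset_compl.2 hZG

end Pool.Agent.H.MP_96e181_an.Gen
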