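import Mathlib
import Pool.Agent.H.MP_96e181_an.blk.Defs
import Pool.Agent.H.MP_96e181_an.gen.Defs

set_option autoImplicit false

open MeasureTheory

namespace Pool.Agent.H.MP_96e181_an.Gen

open Pool.Agent.H.MP_96e181_an.Blk

/-- The statement of the Korobov bound for exponential sums along geometric progressions modulo
powers of `R`, uniform in the base `u`. -/
def KorobovBound : Prop :=
  ∀ R d₀ C₀ : ℕ, 2 ≤ R → 1 ≤ d₀ → ∀ ε : ℝ, 0 < ε → ∃ y₀ M₀ : ℕ, ∀ M y u : ℕ, M₀ ≤ M → y₀ ≤ y →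
    y ^ 10 ≤ (Nat.log 2 M) ^ 13 → u ^ d₀ ≡ 1 [MOD 4 * R] →
    (∀ l : ℕ, l.Prime → l ∣ R → ¬ ((l ^ C₀ : ℕ) : ℤ) ∣ (u : ℤ) ^ d₀ - 1) →
    ∀ ξ : UnitAddCircle, R ^ y • ξ = 0 → R ^ (y - 1) • ξ ≠ 0 →
      ‖∑ j ∈ Finset.range M, (fourier 1 (u ^ j • ξ) : ℂ)‖ ≤ ε * M

/-- The point number `j` of the row of length `M` in direction `(-b, a)` with corner `w`. -/
def rpt (a b M : ℕ) (w : ℕ × ℕ) (j : ℕ) : ℕ × ℕ := (b * (M - 1 - j) + w.1, a * j + w.2)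

/-- The row of length `M` in direction `(-b, a)` with corner `w`. -/
def row (a b M : ℕ) (w : ℕ × ℕ) : Finset (ℕ × ℕ) := (Finset.range M).image (rpt a b M w)

end Pool.Agent.H.MP_96e181_an.Gen
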