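import Mathlib
import Pool.Agent.H.MP_96e181_an.blk.Defs
import Pool.Agent.H.MP_96e181_an.gen.Defs

set_option autoImplicit false

open MeasureTheory

namespace Pool.Agent.H.MP_96e181_an.Gen

open Pool.Agent.H.MP_96e181_an.Blk

namespace GeomAux

/-- A set of naturals in which any two elements are at distance at most one has at most two
elements. -/
theorem card_le_two {S : Finset ℕ} (h : ∀ a ∈ S, ∀ b ∈ S, a ≤ b + 1) : S.card ≤ 2 := by
  by_contra hcon
  rw [not_le, Finset.two_lt_card] at hcon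
  obtain ⟨a, ha, b, hb, c, hc, h1, h2, h3⟩ := hcon
  have := h a ha b hb
  have := h b hb a ha
  have := h a ha c hc
  have := h c hc a ha
  have := h b hb c hc
  have := h c hc b hb
  omega

/-- the difference function of the edges `i` and `j` -/
def g {p q : ℕ} (N : NF p q) (o : Fin N.J → ℕ) (i j : Fin N.J) (b : ℤ) : ℤ :=
  N.A j * ((o i : ℤ) - N.B i * b) - N.A i * ((o j : ℤ) - N.B j * b)

theorem slope_ne {p q : ℕ} (N : NF p q) {i j : Fin N.J} (h : i ≠ j) :
    (N.A i : ℤ) * N.B j - N.A j * N.B i ≠ 0 := by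
  have := N.hdir i j h
  intro h2
  apply this
  have h3 : (N.A i : ℤ) * N.B j = N.A j * N.B i := by linarith
  exact_mod_cast h3

theorem g_diff {p q : ℕ} (N : NF p q) (o : Fin N.J → ℕ) (i j : Fin N.J) (b b' : ℤ) :
    g N o i j b' - g N o i j b = ((N.A i : ℤ) * N.B j - N.A j * N.B i) * (b' - b) := by
  unfold g
  ring

/-- A cell on which all pairs are far apart. -/
theorem exists_cell {p q : ℕ} (N : NF p q) (o : Fin N.J → ℕ) {l : ℕ} (hl : 1 ≤ l) :
    ∃ c < 2 * N.J ^ 2 + 1, ∀ i j, i ≠ j → ∀ b : ℕ, c * l ≤ b → b ≤ c * l + l →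
      (l : ℤ) ≤ 2 * |g N o i j b| := by
  classical
  rcases isEmpty_or_nonempty (Fin N.J) with hemp | hnon
  · exact ⟨0, by omega, fun i => isEmptyElim i⟩
  by_contra hcon
  push Not at hcon
  choose! i j hij b hb1 hb2 hb3 using hcon
  have hmaps : Set.MapsTo (fun c => (i c, j c)) (Finset.range (2 * N.J ^ 2 + 1) : Set ℕ)
      ((Finset.univ : Finset (Fin N.J × Fin N.J)) : Set (Fin N.J × Fin N.J)) := by
    intro c _
    exact Finset.mem_coe.2 (Finset.mem_univ _)
  have hcard : (Finset.univ : Finset (Fin N.J × Fin N.J)).card * 2 <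
      (Finset.range (2 * N.J ^ 2 + 1)).card := by
    rw [Finset.card_univ, Fintype.card_prod, Fintype.card_fin, Finset.card_range]
    have : N.J * N.J * 2 = 2 * N.J ^ 2 := by ring
    omega
  obtain ⟨y, _, hy⟩ := Finset.exists_lt_card_fiber_of_mul_lt_card_of_maps_to hmaps hcard
  have h2 : (Finset.filter (fun c => (i c, j c) = y) (Finset.range (2 * N.J ^ 2 + 1))).card ≤ 2 := by
    refine card_le_two fun c hc c' hc' => ?_
    rw [Finset.mem_filter, Finset.mem_range] at hc hc'
    by_contra hlt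
    rw [not_le] at hlt
    have hi : i c = i c' := by
      have := hc.2.trans hc'.2.symm
      exact (Prod.mk.inj this).1
    have hj : j c = j c' := by
      have := hc.2.trans hc'.2.symm
      exact (Prod.mk.inj this).2
    have e1 := hb3 c hc.1
    have e2 := hb3 c' hc'.1
    have e3 := hb1 c hc.1
    have e4 := hb2 c' hc'.1
    have e5 := g_diff N o (i c) (j c) (b c') (b c)
    rw [← hi, ← hj] at e2
    have hs := slope_ne N (hij c hc.1)
    -- distance at least `l`
    have hdist : (l : ℤ) ≤ (b c : ℤ) - b c' := by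
      have h6 : (c' + 2) * l ≤ c * l := Nat.mul_le_mul_right _ (by omega)
      have h7 : b c' + l ≤ b c := by
        calc b c' + l ≤ c' * l + l + l := by omega
          _ = (c' + 2) * l := by ring
          _ ≤ c * l := h6
          _ ≤ b c := e3
      have h8 : ((b c' + l : ℕ) : ℤ) ≤ (b c : ℤ) := by exact_mod_cast h7
      push_cast at h8
      linarith
    have habs : (l : ℤ) ≤ |g N o (i c) (j c) (b c) - g N o (i c) (j c) (b c')| := by
      rw [e5, abs_mul]
      have h9 : (1 : ℤ) ≤ |(N.A (i c) : ℤ) * N.B (j c) - N.A (j c) * N.B (i c)| :=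
        Int.one_le_abs hs
      have h10 : (l : ℤ) ≤ |(b c : ℤ) - b c'| := hdist.trans (le_abs_self _)
      exact h10.trans (le_mul_of_one_le_left (abs_nonneg _) h9)
    have htri := abs_sub (g N o (i c) (j c) (b c)) (g N o (i c) (j c) (b c'))
    linarith
  omega

end GeomAux

open GeomAux in
theorem exists_edge {p q : ℕ} (N : NF p q) :
    ∃ nc c₀ : ℕ, 1 ≤ nc ∧ 1 ≤ c₀ ∧ ∀ (o : Fin N.J → ℕ) (T l s : ℕ), 1 ≤ T →
      (∀ i, o i ≤ N.A i * T) → (∃ i, N.A i * (T - 1) < o i) → 1 ≤ s → c₀ * s ≤ l →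
      c₀ * l ≤ T →
      ∃ (i : Fin N.J) (m c : ℕ), c < nc ∧ Edge N o T i s l m c ∧
        N.A i * T ≤ m * s + c₀ * l := by
  classical
  set am := ∑ i, N.A i with ham
  set bm := ∑ i, N.B i with hbm
  set nc := 2 * N.J ^ 2 + 1 with hnc
  have hAm : ∀ i, N.A i ≤ am := fun i => Finset.single_le_sum (fun _ _ => Nat.zero_le _)
    (Finset.mem_univ i)
  have hBm : ∀ i, N.B i ≤ bm := fun i => Finset.single_le_sum (fun _ _ => Nat.zero_le _)
    (Finset.mem_univ i)
  refine ⟨nc, am * (bm * nc + 1) + bm * nc + 4 * am + am * bm + 4, by omega, by omega, ?_⟩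
  intro o T l s hT ho ⟨i0, hi0⟩ hs hl hTl
  -- consequences over the integers
  have hA : ∀ i, (1 : ℤ) ≤ N.A i := fun i => by exact_mod_cast N.hA i
  have hAm' : ∀ i, (N.A i : ℤ) ≤ am := fun i => by exact_mod_cast hAm i
  have hBm' : ∀ i, (N.B i : ℤ) ≤ bm := fun i => by exact_mod_cast hBm i
  have hB0 : ∀ i, (0 : ℤ) ≤ N.B i := fun i => Int.natCast_nonneg _
  have ham0 : (0 : ℤ) ≤ am := Int.natCast_nonneg _
  have hbm0 : (0 : ℤ) ≤ bm := Int.natCast_nonneg _
  have hnc0 : (1 : ℤ) ≤ nc := by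
    have : 1 ≤ nc := by omega
    exact_mod_cast this
  have hs' : (1 : ℤ) ≤ s := by exact_mod_cast hs
  have hl' : ((am : ℤ) * (bm * nc + 1) + bm * nc + 4 * am + am * bm + 4) * s ≤ l := by
    exact_mod_cast hl
  have hTl' : ((am : ℤ) * (bm * nc + 1) + bm * nc + 4 * am + am * bm + 4) * l ≤ T := by
    exact_mod_cast hTl
  have p1 : (0 : ℤ) ≤ am * (bm * nc + 1) := by positivity
  have p2 : (0 : ℤ) ≤ bm * nc := by positivity
  have p3 : (0 : ℤ) ≤ am * bm := by positivity
  have q1 : (0 : ℤ) ≤ am * (bm * nc + 1) * s := by positivity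
  have q2 : (0 : ℤ) ≤ bm * nc * s := by positivity
  have q3 : (0 : ℤ) ≤ am * s := by positivity
  have q4 : (0 : ℤ) ≤ am * bm * s := by positivity
  have q5 : ((am : ℤ) * (bm * nc + 1) + bm * nc + 4 * am + am * bm + 4) * s =
      am * (bm * nc + 1) * s + bm * nc * s + 4 * (am * s) + am * bm * s + 4 * s := by ring
  rw [q5] at hl'
  have hl4 : 4 * (s : ℤ) ≤ l := by linarith
  have hlam : 4 * (am : ℤ) * s ≤ l := by linarith
  have hlab : (am : ℤ) * bm < l := by
    have : (am : ℤ) * bm ≤ am * bm * s := le_mul_of_one_le_right p3 hs'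
    linarith
  have hl1 : 1 ≤ l := by
    have : (1 : ℤ) ≤ l := by linarith
    exact_mod_cast this
  have hl1' : (1 : ℤ) ≤ l := by exact_mod_cast hl1
  have r1 : (0 : ℤ) ≤ am * (bm * nc + 1) * l := by positivity
  have r2 : (0 : ℤ) ≤ bm * nc * l := by positivity
  have r3 : (0 : ℤ) ≤ am * l := by positivity
  have r4 : (0 : ℤ) ≤ am * bm * l := by positivity
  have r5 : ((am : ℤ) * (bm * nc + 1) + bm * nc + 4 * am + am * bm + 4) * l =
      am * (bm * nc + 1) * l + bm * nc * l + 4 * (am * l) + am * bm * l + 4 * l := by ring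
  have hT1 : (bm : ℤ) * nc * l + 4 * l ≤ T := by
    rw [r5] at hTl'
    linarith
  have hi0' : (N.A i0 : ℤ) * (T - 1) < o i0 := by
    have : ((N.A i0 * (T - 1) : ℕ) : ℤ) < o i0 := by exact_mod_cast hi0
    rwa [Nat.cast_mul, Nat.cast_sub hT, Nat.cast_one] at this
  obtain ⟨c, hc, hcell⟩ := exists_cell N o hl1
  -- the maximal index
  obtain ⟨i, -, hi⟩ := Finset.exists_max_image (Finset.univ : Finset (Fin N.J))
    (fun i => (((o i : ℤ) - N.B i * (c * l : ℕ) : ℤ) : ℚ) / N.A i) ⟨i0, Finset.mem_univ _⟩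
  have hi' : ∀ j, 0 ≤ g N o i j (c * l : ℕ) := by
    intro j
    have h1 := hi j (Finset.mem_univ j)
    have hAi : (0 : ℚ) < N.A i := by exact_mod_cast (N.hA i)
    have hAj : (0 : ℚ) < N.A j := by exact_mod_cast (N.hA j)
    rw [div_le_div_iff₀ hAj hAi] at h1
    have h2 : ((o j : ℤ) - N.B j * (c * l : ℕ) : ℤ) * (N.A i : ℤ) ≤
        ((o i : ℤ) - N.B i * (c * l : ℕ) : ℤ) * (N.A j : ℤ) := by exact_mod_cast h1
    unfold g
    linarith
  have hslope : ∀ j, |(N.A i : ℤ) * N.B j - N.A j * N.B i| < l := by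
    intro j
    have h1 : (N.A i : ℤ) * N.B j ≤ am * bm :=
      mul_le_mul (hAm' i) (hBm' j) (hB0 j) ham0
    have h2 : (N.A j : ℤ) * N.B i ≤ am * bm :=
      mul_le_mul (hAm' j) (hBm' i) (hB0 i) ham0
    have h3 : 0 ≤ (N.A i : ℤ) * N.B j := by positivity
    have h4 : 0 ≤ (N.A j : ℤ) * N.B i := by positivity
    rw [abs_lt]
    constructor <;> linarith
  have hg : ∀ j, j ≠ i → ∀ t : ℕ, t ≤ l → (l : ℤ) ≤ 2 * g N o i j (c * l + t : ℕ) := by
    intro j hj t
    induction t with
    | zero =>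
      intro _
      have h1 := hcell i j (Ne.symm hj) (c * l) le_rfl (by omega)
      rw [abs_of_nonneg (hi' j)] at h1
      exact h1
    | succ t ih =>
      intro ht
      have h1 := ih (by omega)
      have h2 := hcell i j (Ne.symm hj) (c * l + (t + 1)) (by omega) (by omega)
      have h3 := g_diff N o i j ((c * l + t : ℕ) : ℤ) ((c * l + (t + 1) : ℕ) : ℤ)
      have h4 : ((c * l + (t + 1) : ℕ) : ℤ) - ((c * l + t : ℕ) : ℤ) = 1 := by push_cast; ring
      rw [h4, mul_one] at h3
      have h5 := hslope j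
      rw [abs_lt] at h5
      rcases abs_cases (g N o i j ((c * l + (t + 1) : ℕ) : ℤ)) with ⟨h6, _⟩ | ⟨h6, h7⟩
      · rw [h6] at h2
        exact h2
      · rw [h6] at h2
        linarith
  -- cell bounds
  have hcl : ((c * l + l : ℕ) : ℤ) ≤ nc * l := by
    have h1 : c * l + l ≤ nc * l := by
      calc c * l + l = (c + 1) * l := by ring
        _ ≤ nc * l := Nat.mul_le_mul_right _ hc
    exact_mod_cast h1
  -- lower bound for `o i`
  have hlow : ∀ t : ℕ, t ≤ l →
      (N.A i : ℤ) * (T - 1 - bm * (nc * l)) < o i - N.B i * (c * l + t : ℕ) := by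
    intro t ht
    have hb : ((c * l + t : ℕ) : ℤ) ≤ nc * l := by
      refine le_trans ?_ hcl
      have : c * l + t ≤ c * l + l := by omega
      exact_mod_cast this
    have hb0 : (0 : ℤ) ≤ ((c * l + t : ℕ) : ℤ) := Int.natCast_nonneg _
    have h1 : (N.B i0 : ℤ) * (c * l + t : ℕ) ≤ bm * (nc * l) :=
      mul_le_mul (hBm' i0) hb hb0 hbm0
    have h2 : (0 : ℤ) ≤ bm * (nc * l) := by positivity
    have h3 : (N.A i0 : ℤ) * (T - 1 - bm * (nc * l)) < o i0 - N.B i0 * (c * l + t : ℕ) := by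
      have e1 : (bm : ℤ) * (nc * l) ≤ N.A i0 * (bm * (nc * l)) :=
        le_mul_of_one_le_left h2 (hA i0)
      rw [mul_sub]
      linarith
    by_cases h : i0 = i
    · rw [← h]; exact h3
    · have h4 := hg i0 h t ht
      unfold g at h4
      have h5 : (N.A i : ℤ) * (N.A i0 * (T - 1 - bm * (nc * l))) <
          N.A i * (o i0 - N.B i0 * (c * l + t : ℕ)) :=
        mul_lt_mul_of_pos_left h3 (by have := hA i; linarith)
      have h6 : (N.A i0 : ℤ) * (N.A i * (T - 1 - bm * (nc * l))) <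
          N.A i0 * (o i - N.B i * (c * l + t : ℕ)) := by
        have e1 : (N.A i0 : ℤ) * (N.A i * (T - 1 - bm * (nc * l))) =
          N.A i * (N.A i0 * (T - 1 - bm * (nc * l))) := by ring
        rw [e1]
        linarith
      exact lt_of_mul_lt_mul_left h6 (by have := hA i0; linarith)
  have hbig : 3 * (s : ℤ) ≤ T - 1 - bm * (nc * l) := by
    have : (bm : ℤ) * (nc * l) = bm * nc * l := by ring
    rw [this]
    linarith
  have hbigA : 3 * (s : ℤ) ≤ N.A i * (T - 1 - bm * (nc * l)) :=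
    hbig.trans (le_mul_of_one_le_left (by linarith) (hA i))
  have hoi : 3 * (s : ℤ) < o i := by
    have h1 := hlow 0 (Nat.zero_le _)
    have h2 : (0 : ℤ) ≤ N.B i * (c * l + 0 : ℕ) := by positivity
    linarith
  have hoi' : 3 * s < o i := by exact_mod_cast hoi
  obtain ⟨m, hm1, hm2⟩ : ∃ m : ℕ, m * s + s < o i ∧ o i ≤ m * s + 2 * s := by
    have h1 := Nat.div_add_mod (o i - 1) s
    have h2 := Nat.mod_lt (o i - 1) (show 0 < s by omega)
    set k := (o i - 1) / s with hk
    have hk1 : 1 ≤ k := by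
      rw [hk, Nat.one_le_div_iff (by omega)]
      omega
    refine ⟨k - 1, ?_, ?_⟩
    · have h3 : (k - 1) * s + s = s * k := by
        obtain ⟨k', hk'⟩ := Nat.exists_eq_add_of_le hk1
        rw [hk']
        have : 1 + k' - 1 = k' := by omega
        rw [this]
        ring
      rw [h3]
      omega
    · have h3 : (k - 1) * s + 2 * s = s * k + s := by
        obtain ⟨k', hk'⟩ := Nat.exists_eq_add_of_le hk1
        rw [hk']
        have : 1 + k' - 1 = k' := by omega
        rw [this]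
        ring
      rw [h3]
      omega
  have hm1' : (m : ℤ) * s + s < o i := by exact_mod_cast hm1
  have hm2' : (o i : ℤ) ≤ m * s + 2 * s := by exact_mod_cast hm2
  refine ⟨i, m, c, hc, ⟨hm1, hm2, ?_, ?_, ?_⟩, ?_⟩
  · -- other
    intro a b hb hab j hj
    rw [Finset.mem_Ico] at hb
    obtain ⟨t, rfl⟩ := Nat.exists_eq_add_of_le hb.1
    have ht : t ≤ l := by
      have : (c + 1) * l = c * l + l := by ring
      omega
    have h1 := hg j hj t ht
    unfold g at h1
    have h2 : (m : ℤ) * s ≤ N.A i * a + N.B i * (c * l + t : ℕ) := by exact_mod_cast hab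
    have h3 : (N.A i : ℤ) * o j ≤ N.A i * (N.A j * a + N.B j * (c * l + t : ℕ)) := by
      have h4 : (N.A j : ℤ) * (o i - 2 * s - N.B i * (c * l + t : ℕ)) ≤ N.A j * (N.A i * a) :=
        mul_le_mul_of_nonneg_left (by linarith) (by have := hA j; linarith)
      have h5 : 4 * (N.A j : ℤ) * s ≤ l := by
        have e1 : (N.A j : ℤ) * s ≤ am * s := mul_le_mul_of_nonneg_right (hAm' j) (by linarith)
        linarith
      rw [mul_add, mul_left_comm (N.A i : ℤ) (N.A j : ℤ) (a : ℤ)]
      have e2 : (N.A j : ℤ) * (o i - 2 * s - N.B i * (c * l + t : ℕ)) =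
          N.A j * (o i - N.B i * (c * l + t : ℕ)) - 2 * N.A j * s := by ring
      have e3 : (N.A i : ℤ) * (o j - N.B j * (c * l + t : ℕ)) =
          N.A i * o j - N.A i * (N.B j * (c * l + t : ℕ)) := by ring
      rw [e2] at h4
      rw [e3] at h1
      linarith
    have h4 : (o j : ℤ) ≤ N.A j * a + N.B j * (c * l + t : ℕ) :=
      le_of_mul_le_mul_left h3 (by have := hA i; linarith)
    exact_mod_cast h4
  · -- le
    intro a b hab
    have h1 := ho i
    have h2 : N.A i * a < N.A i * T := by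
      have := Nat.zero_le (N.B i * b)
      omega
    exact (lt_of_mul_lt_mul_left h2 (Nat.zero_le _)).le
  · -- full
    have h1 := hlow l le_rfl
    have h2 : ((N.B i * ((c + 1) * l) : ℕ) : ℤ) = N.B i * (c * l + l : ℕ) := by push_cast; ring
    have h3 : ((N.B i * ((c + 1) * l) : ℕ) : ℤ) ≤ ((m * s : ℕ) : ℤ) := by
      rw [h2, Nat.cast_mul m s]
      linarith
    exact_mod_cast h3
  · -- last
    have h1 := hlow 0 (Nat.zero_le _)
    have h2 : (0 : ℤ) ≤ N.B i * (c * l + 0 : ℕ) := by positivity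
    have h3 : (N.A i : ℤ) * T ≤ m * s +
        (am * (bm * nc + 1) + bm * nc + 4 * am + am * bm + 4) * l := by
      have h4 : (N.A i : ℤ) * (1 + bm * (nc * l)) ≤ am * (1 + bm * (nc * l)) :=
        mul_le_mul_of_nonneg_right (hAm' i) (by positivity)
      have h5 : (am : ℤ) * (1 + bm * (nc * l)) ≤ am * (bm * nc + 1) * l := by
        have : (am : ℤ) * (bm * nc + 1) * l = am * l + am * (bm * (nc * l)) := by ring
        rw [this]
        have e1 : (am : ℤ) ≤ am * l := le_mul_of_one_le_right ham0 hl1'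
        rw [mul_add, mul_one]
        linarith
      rw [r5]
      have e2 : (N.A i : ℤ) * (T - 1 - bm * (nc * l)) =
          N.A i * T - N.A i * (1 + bm * (nc * l)) := by ring
      rw [e2] at h1
      linarith
    exact_mod_cast h3

end Pool.Agent.H.MP_96e181_an.Gen
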