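import Mathlib
import Pool.Agent.H.MP_96e181_an.blk.Defs
import Pool.Agent.H.MP_96e181_an.gen.Defs

set_option autoImplicit false

open MeasureTheory

namespace Pool.Agent.H.MP_96e181_an.Gen

open Pool.Agent.H.MP_96e181_an.Blk

private lemma Index_gcd_prod_dvd {ι : Type*} [DecidableEq ι] (D : ℕ) (s : Finset ι)
    (x : ι → ℕ) : Nat.gcd D (∏ j ∈ s, x j) ∣ ∏ j ∈ s, Nat.gcd D (x j) := by
  induction s using Finset.induction_on with
  | empty => simp
  | insert a s ha ih =>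
    rw [Finset.prod_insert ha, Finset.prod_insert ha]
    exact (Nat.gcd_mul_right_dvd_mul_gcd D (x a) (∏ j ∈ s, x j)).trans (Nat.mul_dvd_mul_left _ ih)

private lemma Index_dvd_prod_iff {J : ℕ} (R : Fin J → ℕ) (hcop : ∀ i j, i ≠ j →
    Nat.Coprime (R i) (R j)) (e : Fin J → ℕ) (D : ℕ) (hD : D ∣ ∏ j, R j ^ e j)
    (m : Fin J → ℕ) :
    D ∣ ∏ j, R j ^ m j ↔ ∀ j, Nat.gcd D (R j ^ e j) ∣ R j ^ m j := by
  constructor
  · intro h j
    have h1 : Nat.gcd D (R j ^ e j) ∣ ∏ k, R k ^ m k := (Nat.gcd_dvd_left _ _).trans h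
    rw [← Finset.mul_prod_erase Finset.univ (fun k => R k ^ m k) (Finset.mem_univ j)] at h1
    refine Nat.Coprime.dvd_of_dvd_mul_right ?_ h1
    refine Nat.Coprime.coprime_dvd_left (Nat.gcd_dvd_right _ _) ?_
    refine Nat.Coprime.prod_right ?_
    intro k hk
    exact Nat.Coprime.pow _ _ (hcop j k (Finset.ne_of_mem_erase hk).symm)
  · intro h
    have h1 : Nat.gcd D (∏ j, R j ^ e j) = D := Nat.gcd_eq_left hD
    rw [← h1]
    exact (Index_gcd_prod_dvd D Finset.univ _).trans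
      (Finset.prod_dvd_prod_of_dvd _ _ (fun j _ => h j))

theorem exists_index {p q : ℕ} (hp : 2 ≤ p) (hq : 2 ≤ q) (N : NF p q) {n : ℕ}
    {ξ : UnitAddCircle} (h : p ^ n • ξ = 0) :
    ∃ o : Fin N.J → ℕ, Index N o ξ ∧ ∀ T : ℕ, p ^ T • ξ = 0 ↔ ∀ i, o i ≤ N.A i * T := by
  classical
  have hDdvd : addOrderOf ξ ∣ p ^ n := addOrderOf_dvd_iff_nsmul_eq_zero.2 h
  set D := addOrderOf ξ with hDdef
  have hpT : ∀ T : ℕ, p ^ T = ∏ j, N.R j ^ (N.A j * T) := by
    intro T
    rw [show p ^ T = (∏ j, N.R j ^ N.A j) ^ T from congrArg (· ^ T) N.hp, ← Finset.prod_pow]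
    refine Finset.prod_congr rfl (fun j _ => ?_)
    rw [pow_mul]
  have hqT : ∀ T : ℕ, q ^ T = N.Q0 ^ T * (∏ j, N.R j ^ N.B j) ^ T := by
    intro T
    rw [show q ^ T = (N.Q0 * ∏ j, N.R j ^ N.B j) ^ T from congrArg (· ^ T) N.hq, mul_pow]
  have hpn := hpT n
  have hex : ∀ j : Fin N.J, ∃ m : ℕ, Nat.gcd D (N.R j ^ (N.A j * n)) ∣ N.R j ^ m :=
    fun j => ⟨_, Nat.gcd_dvd_right _ _⟩
  let o : Fin N.J → ℕ := fun j => Nat.find (hex j)
  have ho : ∀ (j : Fin N.J) (m : ℕ), Nat.gcd D (N.R j ^ (N.A j * n)) ∣ N.R j ^ m ↔ o j ≤ m := by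
    intro j m
    constructor
    · intro h1
      exact Nat.find_min' (hex j) h1
    · intro h1
      exact (Nat.find_spec (hex j)).trans (pow_dvd_pow _ h1)
  -- general criterion
  have key : ∀ (u : ℕ) (m : Fin N.J → ℕ), Nat.Coprime u p →
      ((u * ∏ j, N.R j ^ m j) • ξ = 0 ↔ ∀ j, o j ≤ m j) := by
    intro u m hu
    rw [← addOrderOf_dvd_iff_nsmul_eq_zero, ← hDdef]
    have hcu : Nat.Coprime D u :=
      Nat.Coprime.coprime_dvd_left hDdvd (Nat.Coprime.pow_left _ hu.symm)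
    rw [Nat.Coprime.dvd_mul_left hcu, Index_dvd_prod_iff N.R N.hcop (fun j => N.A j * n) D
      (hpn ▸ hDdvd) m]
    exact forall_congr' (fun j => ho j (m j))
  refine ⟨o, ?_, ?_⟩
  · intro a b i hi m
    have e1 : N.R i ^ m • ((p ^ a * q ^ b) • ξ) =
        (N.Q0 ^ b * ∏ j, N.R j ^ (N.A j * a + N.B j * b + if j = i then m else 0)) • ξ := by
      rw [← mul_smul]
      congr 1
      have e2 : ∏ j, N.R j ^ (N.A j * a + N.B j * b + if j = i then m else 0) =
          p ^ a * (∏ j, N.R j ^ N.B j) ^ b * N.R i ^ m := by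
        have : ∀ j, N.R j ^ (N.A j * a + N.B j * b + if j = i then m else 0) =
            (N.R j ^ N.A j) ^ a * (N.R j ^ N.B j) ^ b * (if j = i then N.R i ^ m else 1) := by
          intro j
          rw [pow_add, pow_add, pow_mul, pow_mul]
          congr 1
          split_ifs with hji
          · rw [hji]
          · rw [pow_zero]
        rw [Finset.prod_congr rfl (fun j _ => this j), Finset.prod_mul_distrib,
          Finset.prod_mul_distrib, Finset.prod_pow, Finset.prod_pow, ← N.hp]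
        simp
      rw [e2, hqT b]
      ring
    rw [e1, key _ _ (Nat.Coprime.pow_left _ N.hQ0)]
    constructor
    · intro h1
      simpa using h1 i
    · intro h1 j
      by_cases hji : j = i
      · subst hji
        simpa using h1
      · simpa [hji] using hi j hji
  · intro T
    have e1 : p ^ T = 1 * ∏ j, N.R j ^ (N.A j * T) := by
      rw [one_mul, hpT T]
    rw [e1]
    exact key 1 _ (Nat.coprime_one_left p)

end Pool.Agent.H.MP_96e181_an.Gen
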