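import Mathlib
import Pool.Agent.H.MP_96e181_an.blk.Defs
import Pool.Agent.H.MP_96e181_an.blk.Block

set_option autoImplicit false

open MeasureTheory

namespace Pool.Agent.H.MP_96e181_an.Gen

open Pool.Agent.H.MP_96e181_an.Blk

/-- Two points whose orbits are mostly near `Z` cannot differ by a point whose orbit is spread. -/
theorem pair_step {p q : ℕ} {Z : Finset UnitAddCircle} {r : ℝ} {F : Finset (ℕ × ℕ)}
    (hF : F.Nonempty) {X Y ξ τ : UnitAddCircle} (hXY : X - Y = ξ + τ)
    (hτ : ∀ v ∈ F, ‖nn p q v • τ‖ ≤ r)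
    (hX : 8 * (outCount p q Z (2 * r) F X : ℝ) ≤ F.card)
    (hY : 8 * (outCount p q Z (2 * r) F Y : ℝ) ≤ F.card)
    (hconc : ∀ z : UnitAddCircle, 2 * (Z.card : ℝ) ^ 2 *
      ((F.filter (fun v => dist (nn p q v • ξ) z ≤ 5 * r)).card : ℝ) ≤ F.card) : False := by
  classical
  have hF0 : (0:ℝ) < F.card := by exact_mod_cast hF.card_pos
  set G := F.filter (fun v => nn p q v • X ∈ nbh Z (2 * r) ∧ nn p q v • Y ∈ nbh Z (2 * r))
    with hG
  have hcount : F.card ≤ G.card + outCount p q Z (2 * r) F X + outCount p q Z (2 * r) F Y := by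
    have hsub : F ⊆ G ∪ F.filter (fun v => nn p q v • X ∉ nbh Z (2 * r)) ∪
        F.filter (fun v => nn p q v • Y ∉ nbh Z (2 * r)) := by
      intro v hv
      simp only [hG, Finset.mem_union, Finset.mem_filter]
      tauto
    refine (Finset.card_le_card hsub).trans ((Finset.card_union_le _ _).trans ?_)
    refine Nat.add_le_add ((Finset.card_union_le _ _).trans ?_) ?_
    · unfold outCount
      exact Nat.add_le_add le_rfl (le_of_eq (by congr))
    · unfold outCount
      exact le_of_eq (by congr)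
  have hGlow : 3 / 4 * (F.card : ℝ) ≤ G.card := by
    have h1 : ((F.card : ℕ) : ℝ) ≤ G.card + outCount p q Z (2 * r) F X +
        outCount p q Z (2 * r) F Y := by exact_mod_cast hcount
    linarith
  have hGsub : G ⊆ (Z ×ˢ Z).biUnion (fun zz =>
      F.filter (fun v => dist (nn p q v • ξ) (zz.1 - zz.2) ≤ 5 * r)) := by
    intro v hv
    rw [hG, Finset.mem_filter] at hv
    obtain ⟨hvF, hvX, hvY⟩ := hv
    simp only [nbh, Set.mem_iUnion, Metric.mem_closedBall, exists_prop] at hvX hvY
    obtain ⟨z, hz, hzX⟩ := hvX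
    obtain ⟨z', hz', hzY⟩ := hvY
    rw [Finset.mem_biUnion]
    refine ⟨(z, z'), Finset.mem_product.2 ⟨hz, hz'⟩, Finset.mem_filter.2 ⟨hvF, ?_⟩⟩
    have e1 : nn p q v • ξ = nn p q v • X - nn p q v • Y - nn p q v • τ := by
      have : ξ = X - Y - τ := by rw [hXY]; abel
      rw [this]
      simp only [smul_sub]
    rw [dist_eq_norm] at hzX hzY ⊢
    have e3 : nn p q v • ξ - (z - z') =
        (nn p q v • X - z) - (nn p q v • Y - z') - nn p q v • τ := by
      rw [e1]; abel
    change ‖nn p q v • ξ - (z - z')‖ ≤ 5 * r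
    rw [e3]
    refine (norm_sub_le _ _).trans ?_
    have := norm_sub_le (nn p q v • X - z) (nn p q v • Y - z')
    have := hτ v hvF
    linarith
  have hGup : 2 * (G.card : ℝ) ≤ F.card := by
    rcases Nat.eq_zero_or_pos Z.card with h0 | h0
    · have hZ0 : Z = ∅ := Finset.card_eq_zero.1 h0
      have : G.card ≤ 0 := by
        refine (Finset.card_le_card hGsub).trans ?_
        rw [hZ0]; simp
      have h2 : (G.card : ℝ) ≤ 0 := by exact_mod_cast this
      linarith
    · have hN : (0:ℝ) < (Z.card : ℝ) ^ 2 := by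
        have : (0:ℝ) < Z.card := by exact_mod_cast h0
        positivity
      have h1 : (G.card : ℝ) ≤ ∑ zz ∈ Z ×ˢ Z,
          ((F.filter (fun v => dist (nn p q v • ξ) (zz.1 - zz.2) ≤ 5 * r)).card : ℝ) := by
        exact_mod_cast (Finset.card_le_card hGsub).trans Finset.card_biUnion_le
      have h2 : ∀ zz ∈ Z ×ˢ Z,
          ((F.filter (fun v => dist (nn p q v • ξ) (zz.1 - zz.2) ≤ 5 * r)).card : ℝ) ≤
            F.card / (2 * (Z.card : ℝ) ^ 2) := by
        intro zz _
        rw [le_div_iff₀ (by positivity)]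
        have := hconc (zz.1 - zz.2)
        linarith
      have h3 := h1.trans (Finset.sum_le_card_nsmul _ _ _ h2)
      rw [Finset.card_product, nsmul_eq_mul] at h3
      push_cast at h3
      have h4 : (Z.card : ℝ) * Z.card * (F.card / (2 * (Z.card : ℝ) ^ 2)) = F.card / 2 := by
        field_simp
      rw [h4] at h3
      linarith
  linarith

end Pool.Agent.H.MP_96e181_an.Gen
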