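import Mathlib
import Pool.Agent.H.MP_96e181_an.blk.Defs
import Pool.Agent.H.MP_96e181_an.blk.Block
import Pool.Agent.H.MP_96e181_an.gen.Defs
import Pool.Agent.H.MP_96e181_an.gen.Pair
import Pool.Agent.H.MP_96e181_an.gen.Index
import Pool.Agent.H.MP_96e181_an.gen.Geom
import Pool.Agent.H.MP_96e181_an.gen.Atoms

set_option autoImplicit false

open MeasureTheory

namespace Pool.Agent.H.MP_96e181_an.Gen

open Pool.Agent.H.MP_96e181_an.Blk

/-- The index set of the strips at scale `t`. -/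
def Iset (a c l s n k t : ℕ) : Finset ℕ :=
  Finset.range (a * (c * 2 ^ (t + 1)) / s + 1) ∪
    Finset.Icc ((a * (n + k) - (a * (c * 2 ^ (t + 1)) + l)) / s) (a * n / s)

theorem mem_Iset_left {a c l s n k t m : ℕ} (hs : 1 ≤ s) (h : m * s ≤ a * (c * 2 ^ (t + 1))) :
    m ∈ Iset a c l s n k t := by
  unfold Iset
  rw [Finset.mem_union]
  left
  rw [Finset.mem_range, Nat.lt_succ_iff, Nat.le_div_iff_mul_le (by omega)]
  exact h

theorem mem_Iset_right {a c l s n k t m : ℕ} (hs : 1 ≤ s)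
    (h1 : a * (n + k) ≤ m * s + l + a * (c * 2 ^ (t + 1))) (h2 : m * s ≤ a * n) :
    m ∈ Iset a c l s n k t := by
  unfold Iset
  rw [Finset.mem_union]
  right
  rw [Finset.mem_Icc]
  constructor
  · rw [Nat.div_le_iff_le_mul_add_pred (by omega)]
    have : a * (n + k) - (a * (c * 2 ^ (t + 1)) + l) ≤ m * s := by omega
    calc _ ≤ m * s := this
      _ = s * m := mul_comm _ _
      _ ≤ s * m + (s - 1) := Nat.le_add_right _ _
  · rw [Nat.le_div_iff_mul_le (by omega)]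
    exact h2

theorem card_Iset {a c l s n k t : ℕ} (hs : 1 ≤ s) :
    ((Iset a c l s n k t).card : ℝ) ≤ (2 * (a * (c * 2 ^ (t + 1))) + l : ℕ) / (s : ℝ) + 3 := by
  have hs0 : (0:ℝ) < s := by exact_mod_cast hs
  unfold Iset
  have h1 : ((Finset.range (a * (c * 2 ^ (t + 1)) / s + 1)).card : ℝ) ≤
      (a * (c * 2 ^ (t + 1)) : ℕ) / (s : ℝ) + 1 := by
    rw [Finset.card_range]
    push_cast
    have := @Nat.cast_div_le ℝ _ _ _ (a * (c * 2 ^ (t + 1))) s
    push_cast at this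
    linarith
  set u := a * (n + k) - (a * (c * 2 ^ (t + 1)) + l) with hu
  have h2 : ((Finset.Icc (u / s) (a * n / s)).card : ℝ) ≤
      (a * (c * 2 ^ (t + 1)) + l : ℕ) / (s : ℝ) + 2 := by
    rw [Nat.card_Icc]
    have h3 : (((a * n / s + 1 - u / s : ℕ)) : ℝ) ≤ ((a * n : ℕ) : ℝ) / s - (u : ℝ) / s + 2 ∨
        a * n / s + 1 ≤ u / s := by
      rcases le_total (a * n / s + 1) (u / s) with h | h
      · right; exact h
      · left
        rw [Nat.cast_sub h]
        push_cast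
        have e1 := @Nat.cast_div_le ℝ _ _ _ (a * n) s
        have e2 : (u : ℝ) / s < (u / s : ℕ) + 1 := by
          rw [div_lt_iff₀ hs0]
          have := Nat.lt_div_mul_add (a := u) (b := s) (by omega)
          have h5 : u < (u / s + 1) * s := by rw [add_mul, one_mul]; exact this
          exact_mod_cast h5
        push_cast at e1
        linarith
    rcases h3 with h3 | h3
    · refine h3.trans ?_
      have h4 : (a * n : ℕ) ≤ u + (a * (c * 2 ^ (t + 1)) + l) := by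
        have : a * n ≤ a * (n + k) := Nat.mul_le_mul_left _ (Nat.le_add_right _ _)
        omega
      have h5 : ((a * n : ℕ) : ℝ) ≤ u + ((a * (c * 2 ^ (t + 1)) + l : ℕ) : ℝ) := by
        exact_mod_cast h4
      have h6 : ((a * n : ℕ) : ℝ) / s ≤ (u + ((a * (c * 2 ^ (t + 1)) + l : ℕ) : ℝ)) / s := by
        gcongr
      rw [add_div] at h6
      linarith
    · have : a * n / s + 1 - u / s = 0 := by omega
      rw [this]
      push_cast
      positivity
  have h3 : ((Finset.range (a * (c * 2 ^ (t + 1)) / s + 1) ∪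
      Finset.Icc (u / s) (a * n / s)).card : ℝ) ≤
      ((Finset.range (a * (c * 2 ^ (t + 1)) / s + 1)).card : ℝ) +
        ((Finset.Icc (u / s) (a * n / s)).card : ℝ) := by
    exact_mod_cast Finset.card_union_le _ _
  refine h3.trans ?_
  refine (add_le_add h1 h2).trans (le_of_eq ?_)
  push_cast
  field_simp
  ring

theorem tail_le {f : ℕ → ℝ} (hf : Summable f) {ε : ℝ} (hε : 0 < ε) :
    ∃ t₀ : ℕ, ∀ t₁, t₀ ≤ t₁ → ∀ T, ∑ t ∈ Finset.Ico t₁ T, f t ≤ ε := by
  have h1 := hf.hasSum.tendsto_sum_nat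
  rw [Metric.tendsto_atTop] at h1
  obtain ⟨t₀, h2⟩ := h1 (ε / 2) (by positivity)
  refine ⟨t₀, fun t₁ ht₁ T => ?_⟩
  rcases le_total T t₁ with hT | hT
  · rw [Finset.Ico_eq_empty (by omega)]
    simpa using hε.le
  · rw [Finset.sum_Ico_eq_sub _ hT]
    have h3 := h2 t₁ ht₁
    have h4 := h2 T (ht₁.trans hT)
    rw [Real.dist_eq, abs_lt] at h3 h4
    linarith [h3.1, h3.2, h4.1, h4.2]

theorem master {p q : ℕ} (hp : 2 ≤ p) (hq : 2 ≤ q) (N : NF p q)
    {μ : Measure UnitAddCircle} [IsProbabilityMeasure μ] [NullSingletonClass μ]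
    (hμp : MeasurePreserving (fun x : UnitAddCircle => p • x) μ μ)
    (Z : Finset UnitAddCircle) {r : ℝ} (hr : 0 < r)
    (s : ℕ → ℕ) (t₀ : ℕ) (hs1 : ∀ t, t₀ ≤ t → 1 ≤ s t)
    (hs2 : ∀ c : ℕ, ∃ t₁ : ℕ, ∀ t, t₁ ≤ t → c * s t ≤ 2 ^ t)
    (F : ℕ → Fin N.J → ℕ → ℕ → Finset (ℕ × ℕ))
    (hF : ∀ t i m c, F t i m c ⊆ strip N i (s t) ((∏ j, N.A j) * 2 ^ t) m c)
    (β : ℕ → ℝ) (hβ : ∀ t, 0 ≤ β t)
    (hsum : Summable (fun t => (2 : ℝ) ^ t / s t * β t))
    (hstat : ∀ t, t₀ ≤ t → ∀ i m c, N.B i * ((c + 1) * ((∏ j, N.A j) * 2 ^ t)) ≤ m * s t →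
      (F t i m c).Nonempty ∧ ∃ E : Set UnitAddCircle, MeasurableSet E ∧ μ.real E ≤ β t ∧
        ∀ x, x ∉ E → 8 * (outCount p q Z (2 * r) (F t i m c) x : ℝ) ≤ (F t i m c).card)
    (hconc : ∀ t, t₀ ≤ t → ∀ i m c o T ξ, Index N o ξ →
      Edge N o T i (s t) ((∏ j, N.A j) * 2 ^ t) m c → ∀ z : UnitAddCircle,
      2 * (Z.card : ℝ) ^ 2 *
        (((F t i m c).filter (fun v => dist (nn p q v • ξ) z ≤ 5 * r)).card : ℝ) ≤
          (F t i m c).card) : False := by
  classical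
  obtain ⟨nc, c₀, hnc, hc₀, hedge⟩ := exists_edge N
  set AA : ℕ := ∏ j, N.A j with hAA
  have hA1 : 1 ≤ AA := Nat.succ_le_of_lt (Finset.prod_pos (fun j _ => Nat.lt_of_lt_of_le Nat.zero_lt_one (N.hA j)))
  have hAle : ∀ i, N.A i ≤ AA := fun i =>
    Nat.le_of_dvd hA1 (Finset.dvd_prod_of_mem N.A (Finset.mem_univ i))
  set c₁ : ℕ := q * (nc * AA) + c₀ * AA + 1 with hc₁
  set C₂ : ℝ := 4 * (AA * c₁) + c₀ * AA + 3 with hC₂
  have hC₂0 : 0 < C₂ := by positivity
  have hp0 : (0:ℝ) < p := by positivity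
  have hp1 : (1:ℝ) ≤ p := by exact_mod_cast (by omega : 1 ≤ p)
  have hq0 : (0:ℝ) < q := by positivity
  have hq1 : (1:ℝ) ≤ q := by exact_mod_cast (by omega : 1 ≤ q)
  -- the bad sets
  have hBex : ∀ t i m c, ∃ B : Set UnitAddCircle, MeasurableSet B ∧ μ.real B ≤ β t ∧
      (t₀ ≤ t → N.B i * ((c + 1) * (AA * 2 ^ t)) ≤ m * s t → (F t i m c).Nonempty ∧
        ∀ x, x ∉ B → 8 * (outCount p q Z (2 * r) (F t i m c) x : ℝ) ≤ (F t i m c).card) := by
    intro t i m c
    by_cases h : t₀ ≤ t ∧ N.B i * ((c + 1) * (AA * 2 ^ t)) ≤ m * s t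
    · obtain ⟨h1, B, h2, h3, h4⟩ := hstat t h.1 i m c h.2
      exact ⟨B, h2, h3, fun _ _ => ⟨h1, h4⟩⟩
    · exact ⟨∅, MeasurableSet.empty, by simpa using hβ t, fun h1 h2 => absurd ⟨h1, h2⟩ h⟩
  choose B hBm hBβ hB using hBex
  -- thresholds
  obtain ⟨ta, hta⟩ := tail_le hsum
    (ε := 1 / (2 * (N.J * nc * C₂ + 1))) (by positivity)
  obtain ⟨tb, htb⟩ := hs2 c₀
  obtain ⟨tc, htc⟩ : ∃ tc : ℕ, ∀ t, tc ≤ t → 1 ≤ r * (2:ℝ) ^ (2 ^ t) := by
    obtain ⟨i, hi⟩ := pow_unbounded_of_one_lt (1 / r) (by norm_num : (1:ℝ) < 2)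
    refine ⟨i, fun t ht => ?_⟩
    have h1 : (2:ℝ) ^ i ≤ 2 ^ (2 ^ t) :=
      pow_le_pow_right₀ (by norm_num) (ht.trans Nat.lt_two_pow_self.le)
    rw [div_lt_iff₀ hr] at hi
    nlinarith
  set t₁ : ℕ := t₀ + ta + tb + tc with ht₁
  set k₀ : ℕ := c₁ * 2 ^ t₁ with hk₀
  have hc₁1 : 1 ≤ c₁ := by omega
  refine atoms_of_good hp hμp k₀ k₀ ?_
  intro n₀ hn₀
  set E : Set UnitAddCircle := ⋃ t ∈ Finset.Ico t₁ (n₀ + 1),
    ⋃ i ∈ (Finset.univ : Finset (Fin N.J)), ⋃ c ∈ Finset.range nc,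
      ⋃ m ∈ Iset (N.A i) c₁ (c₀ * (AA * 2 ^ t)) (s t) n₀ k₀ t, B t i m c with hE
  refine ⟨E, ?_, ?_, ?_⟩
  · refine Finset.measurableSet_biUnion _ fun t _ => ?_
    refine Finset.measurableSet_biUnion _ fun i _ => ?_
    refine Finset.measurableSet_biUnion _ fun c _ => ?_
    exact Finset.measurableSet_biUnion _ fun m _ => hBm t i m c
  · -- the measure of the bad set
    have h1 : μ.real E ≤ ∑ t ∈ Finset.Ico t₁ (n₀ + 1),
        (N.J * nc * C₂) * ((2:ℝ) ^ t / s t * β t) := by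
      refine (measureReal_biUnion_finset_le _ _).trans (Finset.sum_le_sum fun t ht => ?_)
      rw [Finset.mem_Ico] at ht
      have hst : 1 ≤ s t := hs1 t (by omega)
      have hs0 : (0:ℝ) < s t := by exact_mod_cast hst
      have hs2t : (s t : ℝ) ≤ 2 ^ t := by
        have h2 := htb t (by omega)
        have h3 : s t ≤ 2 ^ t := (Nat.le_mul_of_pos_left _ hc₀).trans h2
        exact_mod_cast h3
      refine (measureReal_biUnion_finset_le _ _).trans ?_
      have h4 : ∀ i ∈ (Finset.univ : Finset (Fin N.J)),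
          μ.real (⋃ c ∈ Finset.range nc,
            ⋃ m ∈ Iset (N.A i) c₁ (c₀ * (AA * 2 ^ t)) (s t) n₀ k₀ t, B t i m c) ≤
            nc * (C₂ * ((2:ℝ) ^ t / s t) * β t) := by
        intro i _
        refine (measureReal_biUnion_finset_le _ _).trans ?_
        have h5 : ∀ c ∈ Finset.range nc,
            μ.real (⋃ m ∈ Iset (N.A i) c₁ (c₀ * (AA * 2 ^ t)) (s t) n₀ k₀ t, B t i m c) ≤
              C₂ * ((2:ℝ) ^ t / s t) * β t := by
          intro c _
          refine (measureReal_biUnion_finset_le _ _).trans ?_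
          refine (Finset.sum_le_card_nsmul _ _ _ (fun m _ => hBβ t i m c)).trans ?_
          rw [nsmul_eq_mul]
          refine mul_le_mul_of_nonneg_right ?_ (hβ t)
          refine (card_Iset hst).trans ?_
          have h6 : (1:ℝ) ≤ 2 ^ t / s t := (one_le_div hs0).2 hs2t
          have h7 : ((2 * (N.A i * (c₁ * 2 ^ (t + 1))) + c₀ * (AA * 2 ^ t) : ℕ) : ℝ) ≤
              (4 * (AA * c₁) + c₀ * AA) * 2 ^ t := by
            have h8 : (N.A i : ℝ) ≤ AA := by exact_mod_cast hAle i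
            push_cast
            have h9 : (N.A i : ℝ) * (c₁ * 2 ^ (t + 1)) ≤ AA * (c₁ * 2 ^ (t + 1)) := by gcongr
            calc 2 * ((N.A i : ℝ) * (c₁ * 2 ^ (t + 1))) + c₀ * (AA * 2 ^ t) ≤
                2 * (AA * (c₁ * 2 ^ (t + 1))) + c₀ * (AA * 2 ^ t) := by linarith
              _ = _ := by rw [pow_succ]; ring
          calc ((2 * (N.A i * (c₁ * 2 ^ (t + 1))) + c₀ * (AA * 2 ^ t) : ℕ) : ℝ) / s t + 3 ≤
              ((4 * (AA * c₁) + c₀ * AA) * 2 ^ t) / s t + 3 * (2 ^ t / s t) := by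
                have h10 : ((2 * (N.A i * (c₁ * 2 ^ (t + 1))) + c₀ * (AA * 2 ^ t) : ℕ) : ℝ) / s t
                    ≤ ((4 * (AA * c₁) + c₀ * AA) * 2 ^ t) / s t := by gcongr
                linarith
            _ = C₂ * (2 ^ t / s t) := by rw [hC₂]; ring
        refine (Finset.sum_le_card_nsmul _ _ _ h5).trans ?_
        rw [Finset.card_range, nsmul_eq_mul]
      refine (Finset.sum_le_card_nsmul _ _ _ h4).trans (le_of_eq ?_)
      rw [Finset.card_univ, Fintype.card_fin, nsmul_eq_mul]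
      ring
    have h2 := hta t₁ (by omega) (n₀ + 1)
    rw [← Finset.mul_sum] at h1
    have h3 : (N.J * nc * C₂ : ℝ) * (1 / (2 * (N.J * nc * C₂ + 1))) ≤ 1 / 2 := by
      rw [mul_one_div, div_le_div_iff₀ (by positivity) (by norm_num)]
      nlinarith
    calc μ.real E ≤ _ := h1
      _ ≤ (N.J * nc * C₂ : ℝ) * (1 / (2 * (N.J * nc * C₂ + 1))) := by gcongr
      _ ≤ 1 / 2 := h3
  · -- the good points
    intro x hx y hy hxy
    obtain ⟨e, he1, he2⟩ := exists_lift (p ^ n₀ • (x - y))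
    set τ : UnitAddCircle := ((e / (p : ℝ) ^ n₀ : ℝ) : UnitAddCircle) with hτ
    set ξ : UnitAddCircle := x - y - τ with hξ
    have hxyξ : x - y = ξ + τ := by rw [hξ]; abel
    have hn₀' : (0:ℝ) < (p:ℝ) ^ n₀ := by positivity
    have hξ0 : p ^ n₀ • ξ = 0 := by
      rw [hξ, smul_sub, ← he1, hτ, nsmul_coe']
      have : ((p ^ n₀ : ℕ) : ℝ) * (e / (p : ℝ) ^ n₀) = e := by
        push_cast
        field_simp
      rw [this, sub_self]
    have hek : |e| ≤ 1 / (p : ℝ) ^ k₀ := he2.trans_le hxy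
    obtain ⟨o, ho, hoT⟩ := exists_index hp hq N hξ0
    by_cases hk : p ^ k₀ • ξ = 0
    · rw [hxyξ, smul_add, hk, zero_add, hτ, nsmul_coe']
      refine (norm_coe_le _).trans ?_
      push_cast
      rw [abs_mul, abs_div, abs_of_pos (by positivity : (0:ℝ) < (p:ℝ) ^ k₀), abs_of_pos hn₀']
      have h1 : (p : ℝ) ^ n₀ = (p : ℝ) ^ (n₀ - k₀) * (p : ℝ) ^ k₀ := by
        rw [← pow_add, Nat.sub_add_cancel hn₀]
      have h2 : |e| ≤ 1 := by
        refine hek.trans ?_
        rw [div_le_one (by positivity)]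
        exact one_le_pow₀ hp1
      rw [h1, mul_div_assoc', div_le_div_iff₀ (by positivity) (by positivity)]
      have h3 : (0:ℝ) < (p : ℝ) ^ (n₀ - k₀) := by positivity
      have h4 : (0:ℝ) < (p : ℝ) ^ k₀ := by positivity
      calc (p : ℝ) ^ k₀ * |e| * (p : ℝ) ^ (n₀ - k₀) ≤ (p : ℝ) ^ k₀ * 1 * (p : ℝ) ^ (n₀ - k₀) := by
            gcongr
        _ = 1 * ((p : ℝ) ^ (n₀ - k₀) * (p : ℝ) ^ k₀) := by ring
    · exfalso
      have hex : ∃ T, p ^ T • ξ = 0 := ⟨n₀, hξ0⟩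
      set T := Nat.find hex with hT
      have hT0 : p ^ T • ξ = 0 := Nat.find_spec hex
      have hTmin : ∀ w, w < T → p ^ w • ξ ≠ 0 := fun w hw => Nat.find_min hex hw
      have hTn : T ≤ n₀ := Nat.find_min' hex hξ0
      have hkT : k₀ < T := by
        by_contra hle
        push Not at hle
        apply hk
        obtain ⟨c, hc⟩ := Nat.exists_eq_add_of_le hle
        rw [hc, pow_add, mul_comm, mul_smul, hT0, smul_zero]
      set K := n₀ - T + k₀ with hK
      set v := min T K / c₁ with hv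
      have hc₁0 : 0 < c₁ := hc₁1
      have hvlow : 2 ^ t₁ ≤ v := by
        rw [hv, Nat.le_div_iff_mul_le hc₁0, mul_comm]
        exact le_min hkT.le (by rw [hK]; omega)
      have hv0 : v ≠ 0 := by
        have : 0 < 2 ^ t₁ := by positivity
        omega
      set t := Nat.log 2 v with ht
      have ht2 : 2 ^ t ≤ v := Nat.pow_log_le_self 2 hv0
      have ht3 : v < 2 ^ (t + 1) := Nat.lt_pow_succ_log_self (by norm_num) v
      have htt₁ : t₁ ≤ t := Nat.le_log_of_pow_le (by norm_num) hvlow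
      have hcv : c₁ * v ≤ min T K := by
        rw [hv, mul_comm]; exact Nat.div_mul_le_self _ _
      have hcT : c₁ * 2 ^ t ≤ T :=
        (Nat.mul_le_mul_left _ ht2).trans (hcv.trans (min_le_left _ _))
      have hcK : c₁ * 2 ^ t ≤ K :=
        (Nat.mul_le_mul_left _ ht2).trans (hcv.trans (min_le_right _ _))
      have hup : min T K < c₁ * 2 ^ (t + 1) := by
        have h1 : min T K < c₁ * (v + 1) := by
          rw [hv]
          exact Nat.lt_mul_div_succ _ hc₁0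
        exact h1.trans_le (Nat.mul_le_mul_left _ ht3)
      have htn : t < n₀ + 1 := by
        have h1 : t < 2 ^ t := Nat.lt_two_pow_self
        have h2 : 2 ^ t ≤ c₁ * 2 ^ t := Nat.le_mul_of_pos_left _ hc₁0
        omega
      have ht0 : t₀ ≤ t := by omega
      have hst : 1 ≤ s t := hs1 t ht0
      have h2t : 2 ^ t ≤ AA * 2 ^ t := Nat.le_mul_of_pos_left _ hA1
      obtain ⟨i, m, c, hc, hE', hloc⟩ := hedge o T (AA * 2 ^ t) (s t) (by omega)
        ((hoT T).1 hT0) (by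
          have h1 := mt (hoT (T - 1)).2 (hTmin (T - 1) (by omega))
          push Not at h1
          exact h1) hst ((htb t (by omega)).trans h2t) (by
          refine le_trans ?_ hcT
          rw [hc₁, add_mul, add_mul]
          have : c₀ * (AA * 2 ^ t) = c₀ * AA * 2 ^ t := by ring
          omega)
      have hms : m * s t ≤ N.A i * T := by
        have := hE'.lo
        have := (hoT T).1 hT0 i
        omega
      have hm : m ∈ Iset (N.A i) c₁ (c₀ * (AA * 2 ^ t)) (s t) n₀ k₀ t := by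
        rcases min_lt_iff.1 hup with h | h
        · apply mem_Iset_left hst
          exact hms.trans (Nat.mul_le_mul_left _ h.le)
        · apply mem_Iset_right hst
          · have h1 : n₀ + k₀ ≤ T + c₁ * 2 ^ (t + 1) := by omega
            calc N.A i * (n₀ + k₀) ≤ N.A i * (T + c₁ * 2 ^ (t + 1)) := Nat.mul_le_mul_left _ h1
              _ = N.A i * T + N.A i * (c₁ * 2 ^ (t + 1)) := by ring
              _ ≤ _ := by omega
          · exact hms.trans (Nat.mul_le_mul_left _ hTn)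
      have hmem : ∀ x, x ∉ E → x ∉ B t i m c := by
        intro x hx hcon
        apply hx
        rw [hE]
        simp only [Set.mem_iUnion]
        exact ⟨t, Finset.mem_Ico.2 ⟨htt₁, htn⟩, i, Finset.mem_univ i, c, Finset.mem_range.2 hc,
          m, hm, hcon⟩
      obtain ⟨hFne, hFx⟩ := hB t i m c ht0 hE'.full
      refine pair_step (Z := Z) (r := r) hFne hxyξ ?_ (hFx x (hmem x hx)) (hFx y (hmem y hy))
        (hconc t ht0 i m c o T ξ ho hE')
      intro w hw
      have hw' := hF t i m c hw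
      rw [strip, Finset.mem_filter, Finset.mem_product, Finset.mem_Ico] at hw'
      obtain ⟨⟨-, hwb1, hwb2⟩, hw1, hw2⟩ := hw'
      have hwa : w.1 ≤ T := hE'.le w.1 w.2 hw2
      have hwb : w.2 ≤ nc * (AA * 2 ^ t) := by
        refine hwb2.le.trans (Nat.mul_le_mul_right _ ?_)
        omega
      rw [hτ, nsmul_coe']
      refine (norm_coe_le _).trans ?_
      rw [nn]
      push_cast
      rw [abs_mul, abs_div, abs_of_pos hn₀', abs_of_pos (by positivity)]
      have h1 : (p : ℝ) ^ w.1 * (q : ℝ) ^ w.2 ≤ (p : ℝ) ^ T * (q : ℝ) ^ (nc * (AA * 2 ^ t)) := by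
        gcongr
      have h2 : (q : ℝ) ^ (nc * (AA * 2 ^ t)) ≤ r * (p : ℝ) ^ K := by
        have h3 : (q : ℝ) ≤ 2 ^ q := by exact_mod_cast Nat.lt_two_pow_self.le
        have h4 := htc t (by omega)
        calc (q : ℝ) ^ (nc * (AA * 2 ^ t)) ≤ ((2:ℝ) ^ q) ^ (nc * (AA * 2 ^ t)) := by gcongr
          _ = 2 ^ (q * (nc * AA) * 2 ^ t) := by rw [← pow_mul]; congr 1; ring
          _ ≤ (r * 2 ^ (2 ^ t)) * 2 ^ (q * (nc * AA) * 2 ^ t) := by
              have : (0:ℝ) < 2 ^ (q * (nc * AA) * 2 ^ t) := by positivity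
              nlinarith
          _ = r * 2 ^ ((q * (nc * AA) + 1) * 2 ^ t) := by
              rw [mul_assoc, ← pow_add]; congr 2; ring
          _ ≤ r * 2 ^ (c₁ * 2 ^ t) := by
              gcongr
              · norm_num
              · rw [hc₁]; omega
          _ ≤ r * (p : ℝ) ^ (c₁ * 2 ^ t) := by
              gcongr
              exact_mod_cast hp
          _ ≤ r * (p : ℝ) ^ K := by
              gcongr
      have h3 : (p : ℝ) ^ T * (p : ℝ) ^ K = (p : ℝ) ^ n₀ * (p : ℝ) ^ k₀ := by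
        rw [← pow_add, ← pow_add]; congr 1; omega
      calc (p : ℝ) ^ w.1 * (q : ℝ) ^ w.2 * (|e| / (p : ℝ) ^ n₀)
          ≤ ((p : ℝ) ^ T * (r * (p : ℝ) ^ K)) * ((1 / (p : ℝ) ^ k₀) / (p : ℝ) ^ n₀) := by
            have h5 : |e| / (p : ℝ) ^ n₀ ≤ (1 / (p : ℝ) ^ k₀) / (p : ℝ) ^ n₀ := by gcongr
            have h6 : (p : ℝ) ^ w.1 * (q : ℝ) ^ w.2 ≤ (p : ℝ) ^ T * (r * (p : ℝ) ^ K) :=
              h1.trans (by gcongr)
            exact mul_le_mul h6 h5 (by positivity) (by positivity)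
        _ = r * ((p : ℝ) ^ T * (p : ℝ) ^ K) / ((p : ℝ) ^ n₀ * (p : ℝ) ^ k₀) := by
            field_simp
        _ = r := by
            rw [h3]; field_simp

end Pool.Agent.H.MP_96e181_an.Gen
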