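import Pool.Agent.H.MP_96e181_an.gen.Defs

set_option autoImplicit false

open MeasureTheory

namespace Pool.Agent.H.MP_96e181_an.Gen

open Pool.Agent.H.MP_96e181_an.Blk

theorem NormalForm_pow_ne {p q A B : ℕ} (hq : 2 ≤ q)
    (h : Irrational (Real.log (p : ℝ) / Real.log (q : ℝ))) (hA : 1 ≤ A) :
    p ^ B ≠ q ^ A := by
  intro heq
  rcases Nat.eq_zero_or_pos B with rfl | hB
  · rw [pow_zero] at heq
    have : 1 < q ^ A := Nat.one_lt_pow (by omega) (by omega)
    omega
  · have h1 : (B : ℝ) * Real.log p = A * Real.log q := by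
      rw [← Real.log_pow, ← Real.log_pow]
      congr 1
      exact_mod_cast heq
    have hlq : 0 < Real.log (q : ℝ) := Real.log_pos (by exact_mod_cast (by omega : 1 < q))
    apply h
    refine ⟨(A : ℚ) / B, ?_⟩
    push_cast
    have hB' : (B : ℝ) ≠ 0 := by positivity
    rw [div_eq_div_iff hB' hlq.ne']
    linarith

theorem exists_nf {p q : ℕ} (hp : 2 ≤ p) (hq : 2 ≤ q)
    (h : Irrational (Real.log (p : ℝ) / Real.log (q : ℝ))) : Nonempty (NF p q) := by
  classical
  set c : ℕ → ℕ := fun l => Nat.gcd (p.factorization l) (q.factorization l) with hc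
  set d : ℕ → ℕ × ℕ := fun l => (p.factorization l / c l, q.factorization l / c l) with hd
  set D : Finset (ℕ × ℕ) := p.primeFactors.image d with hD
  have hp0 : p ≠ 0 := by omega
  have hq0 : q ≠ 0 := by omega
  have halpha : ∀ l ∈ p.primeFactors, 1 ≤ p.factorization l := by
    intro l hl
    have := Nat.Prime.factorization_pos_of_dvd (Nat.prime_of_mem_primeFactors hl) hp0
      (Nat.dvd_of_mem_primeFactors hl)
    exact this
  have hcpos : ∀ l ∈ p.primeFactors, 1 ≤ c l := fun l hl =>
    Nat.gcd_pos_of_pos_left _ (halpha l hl)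
  have hcA : ∀ l, c l * (d l).1 = p.factorization l := fun l =>
    Nat.mul_div_cancel' (Nat.gcd_dvd_left _ _)
  have hcB : ∀ l, c l * (d l).2 = q.factorization l := fun l =>
    Nat.mul_div_cancel' (Nat.gcd_dvd_right _ _)
  have hdA : ∀ x ∈ D, 1 ≤ x.1 := by
    intro x hx
    obtain ⟨l, hl, rfl⟩ := Finset.mem_image.1 hx
    by_contra h0
    have h1 : (d l).1 = 0 := by omega
    have h2 := hcA l
    rw [h1, mul_zero] at h2
    have := halpha l hl
    omega
  have hdc : ∀ x ∈ D, Nat.Coprime x.1 x.2 := by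
    intro x hx
    obtain ⟨l, hl, rfl⟩ := Finset.mem_image.1 hx
    exact Nat.coprime_div_gcd_div_gcd (hcpos l hl)
  have hinj : ∀ x ∈ D, ∀ y ∈ D, x.1 * y.2 = y.1 * x.2 → x = y := by
    intro x hx y hy hxy
    have h1 : x.1 ∣ y.1 := by
      have : x.1 ∣ y.1 * x.2 := ⟨y.2, hxy.symm⟩
      exact (hdc x hx).dvd_of_dvd_mul_right this
    have h2 : y.1 ∣ x.1 := by
      have : y.1 ∣ x.1 * y.2 := ⟨x.2, hxy⟩
      exact (hdc y hy).dvd_of_dvd_mul_right this
    have h3 : x.1 = y.1 := Nat.dvd_antisymm h1 h2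
    rw [h3] at hxy
    have h4 : y.2 = x.2 := Nat.eq_of_mul_eq_mul_left (by have := hdA y hy; omega) hxy
    exact Prod.ext h3 h4.symm
  let e : Fin D.card ≃ D := D.equivFin.symm
  set R : Fin D.card → ℕ := fun i => ∏ l ∈ p.primeFactors with d l = (e i : ℕ × ℕ), l ^ c l
    with hR
  have key : ∀ (f : ℕ × ℕ → ℕ) (g : ℕ → ℕ), (∀ l, c l * f (d l) = g l) →
      ∏ i, R i ^ f (e i : ℕ × ℕ) = ∏ l ∈ p.primeFactors, l ^ g l := by
    intro f g hfg
    have h1 : ∀ x : D, (∏ l ∈ p.primeFactors with d l = (x : ℕ × ℕ), l ^ c l) ^ f x =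
        ∏ l ∈ p.primeFactors with d l = (x : ℕ × ℕ), l ^ g l := by
      intro x
      rw [← Finset.prod_pow]
      refine Finset.prod_congr rfl fun l hl => ?_
      rw [Finset.mem_filter] at hl
      rw [← pow_mul, ← hl.2, hfg]
    have h2 : ∏ i, R i ^ f (e i : ℕ × ℕ) =
        ∏ x : D, ∏ l ∈ p.primeFactors with d l = (x : ℕ × ℕ), l ^ g l := by
      rw [← e.prod_comp]
      exact Finset.prod_congr rfl fun i _ => h1 (e i)
    rw [h2]
    rw [Finset.prod_coe_sort D (fun x => ∏ l ∈ p.primeFactors with d l = x, l ^ g l)]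
    exact Finset.prod_fiberwise_of_maps_to (fun l hl => Finset.mem_image_of_mem d hl) _
  refine ⟨⟨D.card, R, fun i => (e i : ℕ × ℕ).1, fun i => (e i : ℕ × ℕ).2,
    ∏ l ∈ q.primeFactors \ p.primeFactors, l ^ q.factorization l, ?_, ?_, ?_, ?_, ?_, ?_, ?_, ?_,
    ?_⟩⟩
  · intro i
    obtain ⟨l, hl, hl2⟩ := Finset.mem_image.1 (e i).2
    have h1 : l ^ c l ∣ R i := Finset.dvd_prod_of_mem (fun l => l ^ c l)
      (Finset.mem_filter.2 ⟨hl, hl2⟩)
    have h2 : 0 < R i := Finset.prod_pos fun l hl => by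
      have := (Nat.prime_of_mem_primeFactors (Finset.mem_filter.1 hl).1).pos
      positivity
    have h3 := Nat.le_of_dvd h2 h1
    have h4 : l ≤ l ^ c l := Nat.le_self_pow (by have := hcpos l hl; omega) l
    have h5 := (Nat.prime_of_mem_primeFactors hl).two_le
    omega
  · exact fun i => hdA _ (e i).2
  · intro i j hij
    refine Nat.Coprime.prod_left fun l hl => Nat.Coprime.prod_right fun l' hl' => ?_
    rw [Finset.mem_filter] at hl hl'
    refine Nat.Coprime.pow _ _ ?_
    rw [Nat.coprime_primes (Nat.prime_of_mem_primeFactors hl.1)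
      (Nat.prime_of_mem_primeFactors hl'.1)]
    rintro rfl
    exact hij (e.injective (Subtype.ext (hl.2.symm.trans hl'.2)))
  · intro i j hij heq
    exact hij (e.injective (Subtype.ext (hinj _ (e i).2 _ (e j).2 heq)))
  · exact fun i => hdc _ (e i).2
  · have h1 := key Prod.fst p.factorization hcA
    rw [h1]
    exact (Nat.prod_factorization_pow_eq_self hp0).symm
  · refine Nat.Coprime.prod_left fun l hl => Nat.Coprime.pow_left _ ?_
    rw [Finset.mem_sdiff] at hl
    rw [(Nat.prime_of_mem_primeFactors hl.1).coprime_iff_not_dvd]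
    intro h1
    exact hl.2 (Nat.mem_primeFactors.2 ⟨Nat.prime_of_mem_primeFactors hl.1, h1, hp0⟩)
  · have h1 := key Prod.snd q.factorization hcB
    rw [h1]
    have h2 : q = ∏ l ∈ p.primeFactors ∪ q.primeFactors, l ^ q.factorization l := by
      conv_lhs => rw [← Nat.prod_factorization_pow_eq_self hq0]
      refine Finsupp.prod_of_support_subset _ ?_ _ ?_
      · rw [Nat.support_factorization]
        exact Finset.subset_union_right
      · intro l _
        exact pow_zero l
    have h3 : p.primeFactors ∪ q.primeFactors = (q.primeFactors \ p.primeFactors) ∪ p.primeFactors := by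
      rw [Finset.sdiff_union_self_eq_union, Finset.union_comm]
    rw [h3, Finset.prod_union Finset.sdiff_disjoint] at h2
    exact h2
  · exact fun i => NormalForm_pow_ne hq h (hdA _ (e i).2)

end Pool.Agent.H.MP_96e181_an.Gen
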