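import Mathlib
import Pool.Agent.H.MP_96e181_an.blk.Defs
import Pool.Agent.H.MP_96e181_an.blk.Ord
import Pool.Agent.H.MP_96e181_an.gen.Defs
import Pool.Agent.H.MP_96e181_an.gen.Defs2

set_option autoImplicit false

open MeasureTheory

namespace Pool.Agent.H.MP_96e181_an.Gen

open Pool.Agent.H.MP_96e181_an.Blk

namespace KRowAux

/-- The integral of a character. -/
theorem integral_fourier' {k : ℤ} (hk : k ≠ 0) :
    ∫ x : UnitAddCircle, (fourier k x : ℂ) = 0 :=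
  integral_eq_zero_of_add_right_eq_neg (μ := (volume : Measure UnitAddCircle))
      (fourier_add_half_inv_index hk (by norm_num))

/-- A trigonometric majorant of a ball. -/
theorem majorant {ρ : ℝ} (hρ : 0 < ρ) :
    ∃ c : ℤ →₀ ℂ, ‖c 0‖ ≤ 5 * ρ ∧ ∀ x : UnitAddCircle, 0 ≤ ρ + (∑ k ∈ c.support, c k * fourier k x).re ∧
      (‖x‖ ≤ ρ → 1 ≤ ρ + (∑ k ∈ c.support, c k * fourier k x).re) := by
  classical
  let f : C(UnitAddCircle, ℝ) := ⟨fun x => max 0 (min 1 (2 - ‖x‖ / ρ)), by fun_prop⟩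
  have hf0 : ∀ x, 0 ≤ f x := fun x => le_max_left _ _
  have hf1 : ∀ x, f x ≤ 1 := fun x => max_le zero_le_one (min_le_left _ _)
  have hfin : ∀ x : UnitAddCircle, ‖x‖ ≤ ρ → 1 ≤ f x := by
    intro x hx
    refine le_max_of_le_right (le_min le_rfl ?_)
    have : ‖x‖ / ρ ≤ 1 := by rw [div_le_one hρ]; exact hx
    linarith
  have hfout : ∀ x : UnitAddCircle, x ∉ Metric.closedBall (0 : UnitAddCircle) (2 * ρ) →
      f x = 0 := by
    intro x hx
    simp only [Metric.mem_closedBall, dist_zero_right, not_le] at hx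
    apply max_eq_left
    refine (min_le_right _ _).trans ?_
    have : 2 ≤ ‖x‖ / ρ := by rw [le_div_iff₀ hρ]; exact hx.le
    linarith
  have hfint : ∫ x, f x ≤ 4 * ρ := by
    have h1 : ∫ x, f x ≤ ∫ x, (Metric.closedBall (0 : UnitAddCircle) (2 * ρ)).indicator
        (fun _ => (1 : ℝ)) x := by
      apply integral_mono
      · exact f.continuous.integrable_of_hasCompactSupport (HasCompactSupport.of_compactSpace _)
      · exact (integrable_const (1 : ℝ)).indicator Metric.isClosed_closedBall.measurableSet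
      · intro x
        by_cases hx : x ∈ Metric.closedBall (0 : UnitAddCircle) (2 * ρ)
        · simp only [Set.indicator_of_mem hx]
          exact hf1 x
        · simp only [Set.indicator_of_notMem hx, hfout x hx, le_refl]
    rw [integral_indicator_const (1 : ℝ) Metric.isClosed_closedBall.measurableSet, smul_eq_mul,
      mul_one, Measure.real, AddCircle.volume_closedBall] at h1
    refine h1.trans ?_
    rw [ENNReal.toReal_ofReal (by positivity)]
    refine (min_le_right _ _).trans (le_of_eq (by ring))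
  have hfint0 : 0 ≤ ∫ x, f x := integral_nonneg hf0
  let gc : C(UnitAddCircle, ℂ) := ⟨fun x => (f x : ℂ), Complex.continuous_ofReal.comp f.continuous⟩
  have hgc : gc ∈ (Submodule.span ℂ (Set.range (@fourier 1))).topologicalClosure := by
    rw [span_fourier_closure_eq_top]
    trivial
  have hcl : gc ∈ closure ((Submodule.span ℂ (Set.range (@fourier 1)) :
      Submodule ℂ C(UnitAddCircle, ℂ)) : Set C(UnitAddCircle, ℂ)) := hgc
  rw [Metric.mem_closure_iff] at hcl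
  obtain ⟨P, hPmem, hPd⟩ := hcl ρ hρ
  have hPmem' : P ∈ Submodule.span ℂ (Set.range (@fourier 1)) := hPmem
  rw [Finsupp.mem_span_range_iff_exists_finsupp] at hPmem'
  obtain ⟨c, hc⟩ := hPmem'
  have hPx : ∀ x : UnitAddCircle, P x = ∑ k ∈ c.support, c k * fourier k x := by
    intro x
    rw [← hc, Finsupp.sum]
    simp [ContinuousMap.sum_apply]
  have hPg : ∀ x : UnitAddCircle, ‖(f x : ℂ) - P x‖ ≤ ρ := by
    intro x
    have h1 := ContinuousMap.dist_apply_le_dist (f := gc) (g := P) x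
    rw [dist_eq_norm] at h1
    exact h1.trans hPd.le
  have hint : ∫ x, P x = c 0 := by
    simp_rw [hPx]
    rw [integral_finsetSum]
    · simp_rw [integral_const_mul]
      by_cases h0 : (0 : ℤ) ∈ c.support
      · rw [Finset.sum_eq_single_of_mem 0 h0]
        · have hv : (volume : Measure UnitAddCircle).real Set.univ = 1 := by
            rw [Measure.real, UnitAddCircle.measure_univ, ENNReal.toReal_one]
          simp [hv]
        · intro k _ hk
          rw [integral_fourier' hk, mul_zero]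
      · rw [Finset.sum_eq_zero]
        · exact (Finsupp.notMem_support_iff.1 h0).symm
        · intro k hk
          have : k ≠ 0 := fun h => h0 (h ▸ hk)
          rw [integral_fourier' this, mul_zero]
    · intro k _
      exact (((fourier k).continuous).integrable_of_hasCompactSupport
        (HasCompactSupport.of_compactSpace _)).const_mul _
  refine ⟨c, ?_, ?_⟩
  · have h1 : ∫ x, P x = (∫ x, (f x : ℂ)) - ∫ x, ((f x : ℂ) - P x) := by
      rw [integral_sub]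
      · ring
      · exact (gc.continuous).integrable_of_hasCompactSupport (HasCompactSupport.of_compactSpace _)
      · exact (P.continuous).integrable_of_hasCompactSupport (HasCompactSupport.of_compactSpace _)
    rw [← hint, h1]
    have h2 : ‖∫ x, ((f x : ℂ) - P x)‖ ≤ ρ := by
      have := norm_integral_le_of_norm_le_const (μ := (volume : Measure UnitAddCircle))
        (Filter.Eventually.of_forall hPg)
      rwa [Measure.real, UnitAddCircle.measure_univ, ENNReal.toReal_one, mul_one] at this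
    have h3 : ‖∫ x, (f x : ℂ)‖ ≤ 4 * ρ := by
      rw [integral_complex_ofReal, Complex.norm_real, Real.norm_eq_abs, abs_of_nonneg hfint0]
      exact hfint
    calc ‖(∫ x, (f x : ℂ)) - ∫ x, ((f x : ℂ) - P x)‖ ≤ ‖∫ x, (f x : ℂ)‖ + ‖∫ x, ((f x : ℂ) - P x)‖ :=
        norm_sub_le _ _
      _ ≤ 5 * ρ := by linarith
  · intro x
    rw [← hPx]
    have h1 := (Complex.abs_re_le_norm ((f x : ℂ) - P x)).trans (hPg x)
    rw [Complex.sub_re, Complex.ofReal_re] at h1
    have h2 := (abs_le.1 h1).2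
    exact ⟨by linarith [hf0 x], fun hx => by linarith [hfin x hx]⟩

/-- Counting points in balls from exponential sums. -/
theorem count_le {ρ : ℝ} (hρ : 0 < ρ) : ∃ S : Finset ℤ, 0 ∉ S ∧ ∃ ε : ℝ, 0 < ε ∧
    ∀ (M : ℕ) (ζ : ℕ → UnitAddCircle) (z : UnitAddCircle),
      (∀ k ∈ S, ‖∑ j ∈ Finset.range M, (fourier k (ζ j) : ℂ)‖ ≤ ε * M) →
      (((Finset.range M).filter (fun j => dist (ζ j) z ≤ ρ)).card : ℝ) ≤ 10 * ρ * M := by
  classical
  obtain ⟨c, hc0, hc⟩ := majorant hρ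
  set A : ℝ := ∑ k ∈ c.support.erase 0, ‖c k‖ with hA
  have hA0 : 0 ≤ A := Finset.sum_nonneg (fun k _ => norm_nonneg _)
  refine ⟨c.support.erase 0, by simp, ρ / (1 + A), by positivity, ?_⟩
  intro M ζ z hS
  have hM0 : (0 : ℝ) ≤ M := Nat.cast_nonneg M
  have h1 : (((Finset.range M).filter (fun j => dist (ζ j) z ≤ ρ)).card : ℝ) ≤
      ∑ j ∈ Finset.range M, (ρ + (∑ k ∈ c.support, c k * fourier k (ζ j - z)).re) := by
    rw [Finset.card_filter, Nat.cast_sum]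
    apply Finset.sum_le_sum
    intro j _
    split_ifs with h
    · rw [Nat.cast_one]
      exact (hc (ζ j - z)).2 (by rw [← dist_eq_norm]; exact h)
    · rw [Nat.cast_zero]
      exact (hc (ζ j - z)).1
  have h2 : ∑ j ∈ Finset.range M, (ρ + (∑ k ∈ c.support, c k * fourier k (ζ j - z)).re) =
      M * ρ + (∑ k ∈ c.support, c k * (fourier k (-z) *
        ∑ j ∈ Finset.range M, (fourier k (ζ j) : ℂ))).re := by
    rw [Finset.sum_add_distrib, Finset.sum_const, Finset.card_range, nsmul_eq_mul,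
      ← Complex.re_sum, Finset.sum_comm]
    congr 2
    apply Finset.sum_congr rfl
    intro k _
    rw [Finset.mul_sum, Finset.mul_sum]
    apply Finset.sum_congr rfl
    intro j _
    congr 1
    rw [sub_eq_neg_add]
    simp only [fourier_apply, smul_add, AddCircle.toCircle_add, Circle.coe_mul]
  have hnf : ∀ (k : ℤ) (x : UnitAddCircle), ‖(fourier k x : ℂ)‖ = 1 := by
    intro k x
    rw [fourier_apply]
    exact Circle.norm_coe _
  have h3 : ‖∑ k ∈ c.support, c k * (fourier k (-z) *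
        ∑ j ∈ Finset.range M, (fourier k (ζ j) : ℂ))‖ ≤ 5 * ρ * M + ρ * M := by
    have h4 : ∑ k ∈ c.support, c k * (fourier k (-z) *
        ∑ j ∈ Finset.range M, (fourier k (ζ j) : ℂ)) = c 0 * M + ∑ k ∈ c.support.erase 0,
        c k * (fourier k (-z) * ∑ j ∈ Finset.range M, (fourier k (ζ j) : ℂ)) := by
      by_cases h0 : (0 : ℤ) ∈ c.support
      · rw [← Finset.add_sum_erase _ _ h0]
        simp
      · rw [Finsupp.notMem_support_iff.1 h0, Finset.erase_eq_of_notMem h0]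
        simp
    rw [h4]
    refine (norm_add_le _ _).trans (add_le_add ?_ ?_)
    · rw [norm_mul, Complex.norm_natCast]
      exact mul_le_mul_of_nonneg_right hc0 hM0
    · refine (norm_sum_le _ _).trans ?_
      have h5 : ∀ k ∈ c.support.erase 0, ‖c k * (fourier k (-z) *
          ∑ j ∈ Finset.range M, (fourier k (ζ j) : ℂ))‖ ≤ ‖c k‖ * (ρ / (1 + A) * M) := by
        intro k hk
        rw [norm_mul, norm_mul, hnf, one_mul]
        exact mul_le_mul_of_nonneg_left (hS k hk) (norm_nonneg _)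
      refine (Finset.sum_le_sum h5).trans ?_
      rw [← Finset.sum_mul, ← hA]
      have h6 : A * (ρ / (1 + A)) ≤ ρ := by
        rw [mul_div_assoc', div_le_iff₀ (by positivity)]
        nlinarith
      calc A * (ρ / (1 + A) * M) = A * (ρ / (1 + A)) * M := by ring
        _ ≤ ρ * M := mul_le_mul_of_nonneg_right h6 hM0
  have h7 := (Complex.re_le_norm (∑ k ∈ c.support, c k * (fourier k (-z) *
        ∑ j ∈ Finset.range M, (fourier k (ζ j) : ℂ)))).trans h3
  have h8 : 0 ≤ ρ * M := by positivity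
  rw [h2] at h1
  linarith

/-- The multiplier `u` with `W u = V` modulo `R ^ y`. -/
theorem exists_mult {R V W y : ℕ} (hR : 2 ≤ R) (hV : Nat.Coprime V R) (hW : Nat.Coprime W R)
    (hy : 1 ≤ y) : ∃ u : ℕ, Nat.Coprime u (4 * R) ∧ ((R ^ y : ℕ) : ℤ) ∣ (W : ℤ) * u - V := by
  have hWy : Nat.Coprime W (R ^ y) := hW.pow_right y
  have hRy : R ^ y ≠ 0 := pow_ne_zero _ (by omega)
  have hRRy : R ∣ R ^ y := dvd_pow_self R (by omega)
  obtain ⟨u₀, -, hu₀⟩ := Nat.exists_mul_mod_eq_of_coprime V hWy hRy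
  have hmod : ∀ u : ℕ, W * u ≡ V [MOD R ^ y] → ((R ^ y : ℕ) : ℤ) ∣ (W : ℤ) * u - V := by
    intro u hu
    have h1 := (Nat.modEq_iff_dvd.1 hu.symm)
    push_cast at h1 ⊢
    exact h1
  have hcop : ∀ u : ℕ, W * u ≡ V [MOD R ^ y] → Nat.Coprime u R := by
    intro u hu
    have h1 : W * u ≡ V [MOD R] := hu.of_dvd hRRy
    have h2 : Nat.Coprime (W * u) R := by
      unfold Nat.Coprime at hV ⊢
      rw [h1.gcd_eq]
      exact hV
    exact Nat.Coprime.coprime_mul_left h2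
  have h4 : ∀ u : ℕ, Nat.Coprime u R → Odd u → Nat.Coprime u (4 * R) := by
    intro u hu hodd
    apply Nat.Coprime.mul_right _ hu
    have : Nat.Coprime u (2 ^ 2) := Nat.Coprime.pow_right 2 (Nat.coprime_two_right.2 hodd)
    simpa using this
  rcases Nat.even_or_odd u₀ with he | ho
  · rcases Nat.even_or_odd R with hRe | hRo
    · exfalso
      have h1 := hcop u₀ hu₀
      have h2 : 2 ∣ Nat.gcd u₀ R := Nat.dvd_gcd he.two_dvd hRe.two_dvd
      rw [h1] at h2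
      omega
    · refine ⟨u₀ + R ^ y, ?_, ?_⟩
      · have h5 : W * (u₀ + R ^ y) ≡ V [MOD R ^ y] := by
          rw [mul_add]
          have : W * u₀ + W * R ^ y ≡ W * u₀ + 0 [MOD R ^ y] :=
            Nat.ModEq.add_left _ ((Nat.modEq_zero_iff_dvd).2 (dvd_mul_left _ _))
          exact this.trans hu₀
        exact h4 _ (hcop _ h5) (he.add_odd (hRo.pow))
      · apply hmod
        rw [mul_add]
        have : W * u₀ + W * R ^ y ≡ W * u₀ + 0 [MOD R ^ y] :=
          Nat.ModEq.add_left _ ((Nat.modEq_zero_iff_dvd).2 (dvd_mul_left _ _))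
        exact this.trans hu₀
  · exact ⟨u₀, h4 _ (hcop _ hu₀) ho, hmod _ hu₀⟩

/-- `u ^ d₀ - 1` is not divisible by a high power of a prime factor of `R`. -/
theorem not_dvd_pow {R V W d₀ : ℕ} (hVW : V ≠ W) (hd : 1 ≤ d₀) {y u : ℕ}
    (hy : ((V : ℤ) ^ d₀ - (W : ℤ) ^ d₀).natAbs ≤ y) (hu : ((R ^ y : ℕ) : ℤ) ∣ (W : ℤ) * u - V)
    (l : ℕ) (hl : l.Prime) (hlR : l ∣ R) :
    ¬ ((l ^ (((V : ℤ) ^ d₀ - (W : ℤ) ^ d₀).natAbs) : ℕ) : ℤ) ∣ (u : ℤ) ^ d₀ - 1 := by
  set C₀ := ((V : ℤ) ^ d₀ - (W : ℤ) ^ d₀).natAbs with hC₀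
  intro h
  have hne : (V : ℤ) ^ d₀ - (W : ℤ) ^ d₀ ≠ 0 := by
    rw [sub_ne_zero]
    intro h1
    have h2 : V ^ d₀ = W ^ d₀ := by exact_mod_cast h1
    exact hVW (Nat.pow_left_injective (by omega) h2)
  have hlC : (l ^ C₀ : ℕ) ∣ R ^ y := (pow_dvd_pow_of_dvd hlR C₀).trans (pow_dvd_pow R hy)
  have hlCz : ((l ^ C₀ : ℕ) : ℤ) ∣ (W : ℤ) * u - V := (Int.natCast_dvd_natCast.2 hlC).trans hu
  have h1 : ((l ^ C₀ : ℕ) : ℤ) ∣ ((W : ℤ) * u) ^ d₀ - (V : ℤ) ^ d₀ :=
    hlCz.trans (sub_dvd_pow_sub_pow _ _ _)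
  have h2 : ((l ^ C₀ : ℕ) : ℤ) ∣ (W : ℤ) ^ d₀ * ((u : ℤ) ^ d₀ - 1) := Dvd.dvd.mul_left h _
  have h3 : ((l ^ C₀ : ℕ) : ℤ) ∣ (V : ℤ) ^ d₀ - (W : ℤ) ^ d₀ := by
    have h4 := dvd_sub h2 h1
    have h5 : (W : ℤ) ^ d₀ * ((u : ℤ) ^ d₀ - 1) - (((W : ℤ) * u) ^ d₀ - (V : ℤ) ^ d₀) =
        (V : ℤ) ^ d₀ - (W : ℤ) ^ d₀ := by
      rw [mul_pow]; ring
    rwa [h5] at h4
  have h6 : l ^ C₀ ∣ C₀ := by
    rw [hC₀]
    exact Int.natCast_dvd.1 h3
  have h7 : 0 < C₀ := Int.natAbs_pos.2 hne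
  have h8 := Nat.le_of_dvd h7 h6
  have h9 : C₀ < l ^ C₀ := Nat.lt_pow_self hl.one_lt
  omega

/-- Coprime torsion. -/
theorem eq_zero_of_coprime {G : Type*} [AddCommGroup G] {a b : ℕ} (hab : Nat.Coprime a b) {x : G}
    (ha : a • x = 0) (hb : b • x = 0) : x = 0 := by
  have h1 := addOrderOf_dvd_of_nsmul_eq_zero ha
  have h2 := addOrderOf_dvd_of_nsmul_eq_zero hb
  have h3 := Nat.dvd_gcd h1 h2
  rw [hab] at h3
  have h4 : addOrderOf x = 1 := Nat.dvd_one.1 h3
  exact AddMonoid.addOrderOf_eq_one_iff.1 h4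

theorem zeta_eq {R V W y M u : ℕ} (hW : Nat.Coprime W R)
    (hu : ((R ^ y : ℕ) : ℤ) ∣ (W : ℤ) * u - V) {ζ : ℕ → UnitAddCircle}
    (h0 : ∀ j < M, R ^ y • ζ j = 0) (hrec : ∀ j, j + 1 < M → W • ζ (j + 1) = V • ζ j) :
    ∀ j < M, ζ j = u ^ j • ζ 0 := by
  intro j
  induction j with
  | zero => intro _; simp
  | succ j ih =>
    intro hj
    have ihj := ih (by omega)
    have h1 : W • (ζ (j + 1) - u • ζ j) = 0 := by
      rw [smul_sub, hrec j hj, smul_smul]
      obtain ⟨t, ht⟩ := hu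
      have h2 : ((W * u : ℕ) : ℤ) • ζ j - (V : ℤ) • ζ j = 0 := by
        rw [← sub_smul]
        have h3 : ((W * u : ℕ) : ℤ) - (V : ℤ) = t * ((R ^ y : ℕ) : ℤ) := by
          push_cast at ht ⊢
          rw [ht]; ring
        rw [h3, mul_smul, natCast_zsmul, h0 j (by omega), smul_zero]
      rw [natCast_zsmul, natCast_zsmul, sub_eq_zero] at h2
      rw [h2, sub_self]
    have h4 : R ^ y • (ζ (j + 1) - u • ζ j) = 0 := by
      rw [smul_sub, h0 (j + 1) hj, smul_comm, h0 j (by omega), smul_zero, sub_zero]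
    have h5 := eq_zero_of_coprime (hW.pow_right y) h1 h4
    rw [sub_eq_zero] at h5
    rw [h5, ihj, smul_smul, pow_succ, mul_comm]

/-- The order exponent of `h • ζ`. -/
theorem exists_exp {R : ℕ} (hR : 2 ≤ R) {y : ℕ} {ζ : UnitAddCircle} (h0 : R ^ y • ζ = 0)
    (h1 : R ^ (y - 1) • ζ ≠ 0) {h : ℤ} (hh : h ≠ 0) (hy : h.natAbs < y) :
    ∃ y' : ℕ, y' ≤ y ∧ y ≤ y' + h.natAbs ∧ R ^ y' • (h • ζ) = 0 ∧ R ^ (y' - 1) • (h • ζ) ≠ 0 := by
  classical
  have hex : ∃ m : ℕ, R ^ m • (h • ζ) = 0 := ⟨y, by rw [smul_comm, h0, smul_zero]⟩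
  set y' := Nat.find hex with hy'
  have hspec : R ^ y' • (h • ζ) = 0 := Nat.find_spec hex
  have hle : y' ≤ y := Nat.find_min' hex (by rw [smul_comm, h0, smul_zero])
  have hlow : y ≤ y' + h.natAbs := by
    by_contra hlt
    push Not at hlt
    set t := R ^ y' • ζ with ht
    have h2 : R ^ (y - y') • t = 0 := by
      rw [ht, smul_smul, ← pow_add, Nat.sub_add_cancel hle, h0]
    have h3 : R ^ (y - y' - 1) • t ≠ 0 := by
      rw [ht, smul_smul, ← pow_add]
      have : y - y' - 1 + y' = y - 1 := by omega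
      rw [this]
      exact h1
    have h4 : h • t = 0 := by rw [ht, smul_comm]; exact hspec
    have h5 : 2 ^ (y - y') ≤ addOrderOf t := by
      apply two_pow_le hR (by omega) (addOrderOf_dvd_of_nsmul_eq_zero h2)
      intro h6
      exact h3 (addOrderOf_dvd_iff_nsmul_eq_zero.1 h6)
    have h7 : (addOrderOf t : ℤ) ∣ h := addOrderOf_dvd_iff_zsmul_eq_zero.2 h4
    have h8 : addOrderOf t ∣ h.natAbs := Int.natCast_dvd.1 h7
    have h9 := Nat.le_of_dvd (Int.natAbs_pos.2 hh) h8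
    have h10 : y - y' < 2 ^ (y - y') := Nat.lt_two_pow_self
    omega
  refine ⟨y', hle, hlow, hspec, ?_⟩
  have hpos : 1 ≤ y' := by omega
  exact Nat.find_min hex (by omega)

/-- The exponential sum along a row. -/
theorem row_sum (HK : KorobovBound) {R V W : ℕ} (hR : 2 ≤ R) (hV : Nat.Coprime V R)
    (hW : Nat.Coprime W R) (hVW : V ≠ W) {h : ℤ} (hh : h ≠ 0) {ε : ℝ} (hε : 0 < ε) :
    ∃ y₁ M₁ : ℕ, ∀ (M y : ℕ) (ζ : ℕ → UnitAddCircle), M₁ ≤ M → y₁ ≤ y →
      y ^ 10 ≤ (Nat.log 2 M) ^ 13 → (∀ j < M, R ^ y • ζ j = 0) →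
      (∀ j < M, R ^ (y - 1) • ζ j ≠ 0) → (∀ j, j + 1 < M → W • ζ (j + 1) = V • ζ j) →
      ‖∑ j ∈ Finset.range M, (fourier h (ζ j) : ℂ)‖ ≤ ε * M := by
  set d₀ := Nat.totient (4 * R) with hd₀
  have hd₀1 : 1 ≤ d₀ := Nat.totient_pos.2 (by omega)
  set C₀ := ((V : ℤ) ^ d₀ - (W : ℤ) ^ d₀).natAbs with hC₀
  obtain ⟨y₀, M₀, H⟩ := HK R d₀ C₀ hR hd₀1 ε hε
  refine ⟨y₀ + h.natAbs + C₀ + 1, M₀ + 1, ?_⟩
  intro M y ζ hM hy hyM h0 h1 hrec
  obtain ⟨u, hu, hu'⟩ := exists_mult hR hV hW (show 1 ≤ y by omega)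
  have hmod : u ^ d₀ ≡ 1 [MOD 4 * R] := Nat.ModEq.pow_totient hu
  have hnd := fun l hl hlR => not_dvd_pow (R := R) hVW hd₀1 (y := y) (by omega) hu' l hl hlR
  obtain ⟨y', hle, hlow, ha, hb⟩ := exists_exp hR (h0 0 (by omega)) (h1 0 (by omega)) hh
    (show h.natAbs < y by omega)
  have h2 := H M y' u (by omega) (by omega)
    ((Nat.pow_le_pow_left hle 10).trans hyM) hmod hnd (h • ζ 0) ha hb
  have h3 : ∑ j ∈ Finset.range M, (fourier h (ζ j) : ℂ) =
      ∑ j ∈ Finset.range M, (fourier 1 (u ^ j • h • ζ 0) : ℂ) := by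
    apply Finset.sum_congr rfl
    intro j hj
    rw [zeta_eq hW hu' h0 hrec j (Finset.mem_range.1 hj), fourier_one, fourier_apply, smul_comm]
  rw [h3]
  exact h2

end KRowAux

open KRowAux

theorem row_sparse (HK : KorobovBound) {R V W : ℕ} (hR : 2 ≤ R) (hV : Nat.Coprime V R)
    (hW : Nat.Coprime W R) (hVW : V ≠ W) {ρ : ℝ} (hρ : 0 < ρ) :
    ∃ y₁ M₁ : ℕ, ∀ (M y : ℕ) (ζ : ℕ → UnitAddCircle) (z : UnitAddCircle), M₁ ≤ M → y₁ ≤ y →
      y ^ 10 ≤ (Nat.log 2 M) ^ 13 → (∀ j < M, R ^ y • ζ j = 0) →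
      (∀ j < M, R ^ (y - 1) • ζ j ≠ 0) → (∀ j, j + 1 < M → W • ζ (j + 1) = V • ζ j) →
      (((Finset.range M).filter (fun j => dist (ζ j) z ≤ ρ)).card : ℝ) ≤ 10 * ρ * M := by
  classical
  obtain ⟨S, hS0, ε, hε, hcount⟩ := count_le hρ
  have key : ∀ k : ℤ, ∃ y₁ M₁ : ℕ, k ≠ 0 → ∀ (M y : ℕ) (ζ : ℕ → UnitAddCircle), M₁ ≤ M → y₁ ≤ y →
      y ^ 10 ≤ (Nat.log 2 M) ^ 13 → (∀ j < M, R ^ y • ζ j = 0) →
      (∀ j < M, R ^ (y - 1) • ζ j ≠ 0) → (∀ j, j + 1 < M → W • ζ (j + 1) = V • ζ j) →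
      ‖∑ j ∈ Finset.range M, (fourier k (ζ j) : ℂ)‖ ≤ ε * M := by
    intro k
    by_cases hk : k = 0
    · exact ⟨0, 0, fun h => absurd hk h⟩
    · obtain ⟨y₁, M₁, H⟩ := row_sum HK hR hV hW hVW hk hε
      exact ⟨y₁, M₁, fun _ => H⟩
  choose y₁ M₁ H using key
  refine ⟨S.sup y₁, S.sup M₁, ?_⟩
  intro M y ζ z hM hy hyM h0 h1 hrec
  apply hcount
  intro k hk
  exact H k (fun h => hS0 (h ▸ hk)) M y ζ ((Finset.le_sup hk).trans hM)
    ((Finset.le_sup hk).trans hy) hyM h0 h1 hrec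

end Pool.Agent.H.MP_96e181_an.Gen
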