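import Mathlib

set_option autoImplicit false

namespace Pool.Agent.H.MP_96e181_an.Gen

namespace OrdAux

/-- Lifting the exponent: for a prime `l` dividing `x - y` but not `x`, the `l`-adic valuation of
`x ^ (2 n) - y ^ (2 n)` is at most that of `(x + y) (x - y) n`. -/
theorem lte_le {l x y n : ℕ} (hl : l.Prime) (hxy : y < x) (hlxy : l ∣ x - y) (hlx : ¬ l ∣ x)
    (hn : 1 ≤ n) :
    padicValNat l (x ^ (2 * n) - y ^ (2 * n)) ≤ padicValNat l ((x + y) * (x - y) * n) := by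
  have : Fact l.Prime := ⟨hl⟩
  have hx1 : x + y ≠ 0 := by omega
  have hx2 : x - y ≠ 0 := by omega
  have hn0 : n ≠ 0 := by omega
  rw [padicValNat.mul (mul_ne_zero hx1 hx2) hn0, padicValNat.mul hx1 hx2]
  rcases hl.eq_two_or_odd' with h2 | hodd
  · subst h2
    have h := padicValNat.pow_two_sub_pow (x := x) (y := y) hxy hlxy hlx
      (n := 2 * n) (by omega) (by simp)
    rw [padicValNat.mul (by norm_num) hn0, padicValNat.self (by norm_num)] at h
    omega
  · have h := padicValNat.pow_sub_pow (p := l) hodd (x := x) (y := y) hxy hlxy hlx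
      (n := 2 * n) (by omega)
    rw [padicValNat.mul (by norm_num) hn0] at h
    have h3 : padicValNat l 2 = 0 := by
      apply padicValNat.eq_zero_of_not_dvd
      intro h4
      have h5 := (Nat.prime_dvd_prime_iff_eq hl Nat.prime_two).1 h4
      subst h5
      exact absurd hodd (by decide)
    omega

/-- The ordered case. -/
theorem ord_bound_lt {R V W : ℕ} (hR : 2 ≤ R) (hV : Nat.Coprime V R) (hW : Nat.Coprime W R)
    (hVW : W < V) :
    ∃ C : ℕ, 1 ≤ C ∧ ∀ w D n : ℕ, D ∣ R ^ w → 1 ≤ n → D ∣ V ^ n - W ^ n → D ≤ C * n := by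
  have he : 1 ≤ Nat.totient R := Nat.totient_pos.2 (by omega)
  set x := V ^ Nat.totient R with hxdef
  set y := W ^ Nat.totient R with hydef
  have hxy : y < x := Nat.pow_lt_pow_left hVW (by omega)
  have hpx : R ∣ x - y := by
    have h1 : V ^ Nat.totient R ≡ 1 [MOD R] := Nat.ModEq.pow_totient hV
    have h2 : W ^ Nat.totient R ≡ 1 [MOD R] := Nat.ModEq.pow_totient hW
    exact (Nat.modEq_iff_dvd' hxy.le).1 (h2.trans h1.symm)
  have hxR : Nat.Coprime x R := Nat.Coprime.pow_left _ hV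
  refine ⟨(x + y) * (x - y), ?_, ?_⟩
  · exact Nat.one_le_iff_ne_zero.2 (mul_ne_zero (by omega) (by omega))
  intro w D n hDw hn hDn
  have hpw : R ^ w ≠ 0 := pow_ne_zero _ (by omega)
  have hD0 : D ≠ 0 := fun h => hpw (Nat.eq_zero_of_zero_dvd (h ▸ hDw))
  have hC0 : (x + y) * (x - y) * n ≠ 0 :=
    mul_ne_zero (mul_ne_zero (by omega) (by omega)) (by omega)
  apply Nat.le_of_dvd (Nat.pos_of_ne_zero hC0)
  rw [← Nat.factorization_prime_le_iff_dvd hD0 hC0]
  intro l hl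
  by_cases hlp : l ∣ R
  · have h1 : D ∣ x ^ (2 * n) - y ^ (2 * n) := by
      refine hDn.trans ?_
      have h2 : x ^ (2 * n) = (V ^ n) ^ (2 * Nat.totient R) := by
        rw [hxdef, ← pow_mul, ← pow_mul]; congr 1; ring
      have h3 : y ^ (2 * n) = (W ^ n) ^ (2 * Nat.totient R) := by
        rw [hydef, ← pow_mul, ← pow_mul]; congr 1; ring
      rw [h2, h3]
      exact Nat.sub_dvd_pow_sub_pow (V ^ n) (W ^ n) (2 * Nat.totient R)
    have h4 : x ^ (2 * n) - y ^ (2 * n) ≠ 0 := by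
      have h5 : y ^ (2 * n) < x ^ (2 * n) := Nat.pow_lt_pow_left hxy (by omega)
      omega
    have h6 := (Nat.factorization_le_iff_dvd hD0 h4).2 h1 l
    rw [Nat.factorization_def _ hl] at h6 ⊢
    rw [Nat.factorization_def _ hl] at h6 ⊢
    have hlx : ¬ l ∣ x := by
      intro h
      have h7 : l ∣ Nat.gcd x R := Nat.dvd_gcd h hlp
      rw [hxR] at h7
      exact hl.one_lt.ne' (Nat.dvd_one.1 h7)
    exact h6.trans (lte_le hl hxy (hlp.trans hpx) hlx hn)
  · have h1 : D.factorization l = 0 := by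
      apply Nat.factorization_eq_zero_of_not_dvd
      intro h
      exact hlp (hl.dvd_of_dvd_pow (h.trans hDw))
    rw [h1]; exact Nat.zero_le _

theorem dvd_nat {V W D n : ℕ} (h : W < V) (hD : (D : ℤ) ∣ (V : ℤ) ^ n - (W : ℤ) ^ n) :
    D ∣ V ^ n - W ^ n := by
  have h1 : W ^ n ≤ V ^ n := Nat.pow_le_pow_left h.le n
  have h2 : ((V ^ n - W ^ n : ℕ) : ℤ) = (V : ℤ) ^ n - (W : ℤ) ^ n := by
    rw [Nat.cast_sub h1]; push_cast; ring
  rw [← h2] at hD
  exact_mod_cast hD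

end OrdAux

open OrdAux

/-- LTE: if `D` has only prime factors of `R` and divides `V ^ n - W ^ n`, then `D ≤ C n`. -/
theorem ord_bound' {R V W : ℕ} (hR : 2 ≤ R) (hV : Nat.Coprime V R) (hW : Nat.Coprime W R)
    (hVW : V ≠ W) :
    ∃ C : ℕ, 1 ≤ C ∧ ∀ w D n : ℕ, D ∣ R ^ w → 1 ≤ n → (D : ℤ) ∣ (V : ℤ) ^ n - (W : ℤ) ^ n →
      D ≤ C * n := by
  rcases lt_or_gt_of_ne hVW with h | h
  · obtain ⟨C, hC1, hC⟩ := ord_bound_lt hR hW hV h
    refine ⟨C, hC1, fun w D n hD hn hDn => hC w D n hD hn (dvd_nat h ?_)⟩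
    rw [← neg_sub, dvd_neg]
    exact hDn
  · obtain ⟨C, hC1, hC⟩ := ord_bound_lt hR hV hW h
    exact ⟨C, hC1, fun w D n hD hn hDn => hC w D n hD hn (dvd_nat h hDn)⟩

end Pool.Agent.H.MP_96e181_an.Gen
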