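import Mathlib
import Pool.Agent.H.MP_96e181_an.blk.Equi
import Pool.Agent.H.MP_96e181_an.gen.Ord

set_option autoImplicit false

namespace Pool.Agent.H.MP_96e181_an.Gen

open Pool.Agent.H.MP_96e181_an.Blk

namespace RowAux

/-- The order is constant along a row. -/
theorem order_eq {R V W y : ℕ} (hV : Nat.Coprime V R) (hW : Nat.Coprime W R)
    {a b : UnitAddCircle} (ha : R ^ y • a = 0) (hb : R ^ y • b = 0) (h : W • b = V • a) :
    addOrderOf b = addOrderOf a := by
  have h1 : (addOrderOf b).Coprime W :=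
    Nat.Coprime.coprime_dvd_left (addOrderOf_dvd_iff_nsmul_eq_zero.2 hb)
      (Nat.Coprime.pow_left y hW.symm)
  have h2 : (addOrderOf a).Coprime V :=
    Nat.Coprime.coprime_dvd_left (addOrderOf_dvd_iff_nsmul_eq_zero.2 ha)
      (Nat.Coprime.pow_left y hV.symm)
  have h3 : addOrderOf (W • b) = addOrderOf b := h1.addOrderOf_nsmul
  have h4 : addOrderOf (V • a) = addOrderOf a := h2.addOrderOf_nsmul
  rw [← h3, h, h4]

theorem orders {R V W y M : ℕ} (hV : Nat.Coprime V R) (hW : Nat.Coprime W R)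
    {ζ : ℕ → UnitAddCircle} (h0 : ∀ j < M, R ^ y • ζ j = 0)
    (hrec : ∀ j, j + 1 < M → W • ζ (j + 1) = V • ζ j) :
    ∀ j < M, addOrderOf (ζ j) = addOrderOf (ζ 0) := by
  intro j
  induction j with
  | zero => intro _; rfl
  | succ j ih =>
    intro hj
    rw [← ih (by omega)]
    exact order_eq hV hW (h0 j (by omega)) (h0 (j + 1) hj) (hrec j hj)

theorem iter {V W M : ℕ} {ζ : ℕ → UnitAddCircle}
    (hrec : ∀ j, j + 1 < M → W • ζ (j + 1) = V • ζ j) (i : ℕ) :
    ∀ n, i + n < M → W ^ n • ζ (i + n) = V ^ n • ζ i := by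
  intro n
  induction n with
  | zero => intro _; simp
  | succ n ih =>
    intro hn
    have h1 := ih (by omega)
    have h2 := hrec (i + n) (by omega)
    calc W ^ (n + 1) • ζ (i + (n + 1)) = W ^ n • (W • ζ (i + n + 1)) := by
          rw [pow_succ, mul_smul]; rfl
      _ = V • (W ^ n • ζ (i + n)) := by rw [h2, smul_comm]
      _ = V ^ (n + 1) • ζ i := by rw [h1, ← mul_smul, pow_succ']

end RowAux

open RowAux

theorem row_count' {R V W : ℕ} (hR : 2 ≤ R) (hV : Nat.Coprime V R) (hW : Nat.Coprime W R)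
    (hVW : V ≠ W) :
    ∃ C : ℝ, 1 ≤ C ∧ ∀ (y : ℕ) (ζ : ℕ → UnitAddCircle) (z : UnitAddCircle) (ρ : ℝ) (M : ℕ),
      1 ≤ y → 0 ≤ ρ → (∀ j < M, R ^ y • ζ j = 0) → (∀ j < M, R ^ (y - 1) • ζ j ≠ 0) →
      (∀ j, j + 1 < M → W • ζ (j + 1) = V • ζ j) →
      (((Finset.range M).filter (fun j => dist (ζ j) z ≤ ρ)).card : ℝ) ≤
        C * (2 * ρ + 1 / 2 ^ y) * M + 2 * ρ * R ^ y + 1 := by
  classical
  obtain ⟨C, hC1, hC⟩ := ord_bound' hR hV hW hVW
  refine ⟨C, by exact_mod_cast hC1, ?_⟩
  intro w ζ z ρ M hw hρ hξ1 hξ2 hrec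
  rcases Nat.eq_zero_or_pos M with hM | hM
  · subst hM
    simp only [Finset.range_zero, Finset.filter_empty, Finset.card_empty, Nat.cast_zero, mul_zero,
      zero_add]
    positivity
  set D := addOrderOf (ζ 0) with hDdef
  have hDj : ∀ j < M, addOrderOf (ζ j) = D := orders hV hW hξ1 hrec
  have hDw : D ∣ R ^ w := addOrderOf_dvd_iff_nsmul_eq_zero.2 (hξ1 0 hM)
  have hDw1 : ¬ D ∣ R ^ (w - 1) := fun h => hξ2 0 hM (addOrderOf_dvd_iff_nsmul_eq_zero.1 h)
  have h2D : 2 ^ w ≤ D := two_pow_le hR hw hDw hDw1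
  have hD1 : 1 ≤ D := le_trans Nat.one_le_two_pow h2D
  have hDp : D ≤ R ^ w := Nat.le_of_dvd (pow_pos (by omega) _) hDw
  set T := (D - 1) / C + 1 with hT
  have hT1 : C * (T - 1) < D := by
    have h1 : C * ((D - 1) / C) ≤ D - 1 := Nat.mul_div_le (D - 1) C
    have h2 : T - 1 = (D - 1) / C := by rw [hT, Nat.add_sub_cancel]
    rw [h2]; omega
  have hT2 : D ≤ C * T := by
    have h1 : D - 1 < C * T := by
      rw [hT]
      exact Nat.lt_mul_div_succ (D - 1) (by omega)
    omega
  have hT0 : 0 < T := by rw [hT]; exact Nat.succ_pos _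
  set S := (Finset.range M).filter (fun b => dist (ζ b) z ≤ ρ) with hS
  have hmaps : Set.MapsTo (fun b => b / T) (S : Set ℕ) (Finset.range (M / T + 1) : Finset ℕ) := by
    intro b hb
    have hb' : b ∈ S := by simpa using hb
    rw [hS, Finset.mem_filter, Finset.mem_range] at hb'
    simp only [Finset.coe_range, Set.mem_Iio]
    exact Nat.lt_succ_of_le (Nat.div_le_div_right hb'.1.le)
  have hfib : ∀ j ∈ Finset.range (M / T + 1),
      ((S.filter (fun b => b / T = j)).card : ℝ) ≤ 2 * ρ * D + 1 := by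
    intro j _
    set F := S.filter (fun b => b / T = j) with hF
    have hinj : Set.InjOn (fun b : ℕ => ζ b) (F : Set ℕ) := by
      have key : ∀ b ∈ F, ∀ b' ∈ F, b < b' → ζ b ≠ ζ b' := by
        intro b hb b' hb' hlt heq
        rw [hF, Finset.mem_filter, hS, Finset.mem_filter, Finset.mem_range] at hb hb'
        obtain ⟨n, hn⟩ := Nat.exists_eq_add_of_lt hlt
        have hbn : b' = b + (n + 1) := by omega
        have h1 := iter hrec b (n + 1) (by omega)
        rw [← hbn, ← heq] at h1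
        have h2 : ((V : ℤ) ^ (n + 1) - (W : ℤ) ^ (n + 1)) • ζ b = 0 := by
          rw [sub_smul, sub_eq_zero]
          have h3 : ((V ^ (n + 1) : ℕ) : ℤ) • ζ b = ((W ^ (n + 1) : ℕ) : ℤ) • ζ b := by
            rw [natCast_zsmul, natCast_zsmul]; exact h1.symm
          push_cast at h3
          exact h3
        have h4 : (D : ℤ) ∣ (V : ℤ) ^ (n + 1) - (W : ℤ) ^ (n + 1) := by
          rw [← hDj b hb.1.1]
          exact addOrderOf_dvd_iff_zsmul_eq_zero.2 h2
        have h5 : D ≤ C * (n + 1) := hC w D (n + 1) hDw (by omega) h4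
        have h6 : n + 1 ≤ T - 1 := by
          have h7 : b' < T * (j + 1) := by
            rw [← hb'.2]; exact Nat.lt_mul_div_succ b' hT0
          have h8 : T * j ≤ b := by
            rw [← hb.2]; exact Nat.mul_div_le b T
          have h9 : T * (j + 1) = T * j + T := by ring
          omega
        have h7 : C * (n + 1) ≤ C * (T - 1) := Nat.mul_le_mul_left _ h6
        omega
      intro b hb b' hb' heq
      have hb1 : b ∈ F := by simpa using hb
      have hb1' : b' ∈ F := by simpa using hb'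
      rcases lt_trichotomy b b' with h | h | h
      · exact absurd heq (key b hb1 b' hb1' h)
      · exact h
      · exact absurd heq.symm (key b' hb1' b hb1 h)
    rw [← Finset.card_image_of_injOn hinj]
    refine torsion_count _ hD1 ?_ z hρ ?_
    · intro x hx
      obtain ⟨b, hb, rfl⟩ := Finset.mem_image.1 hx
      rw [hF, Finset.mem_filter, hS, Finset.mem_filter, Finset.mem_range] at hb
      change D • ζ b = 0
      rw [← hDj b hb.1.1]
      exact addOrderOf_nsmul_eq_zero _
    · intro x hx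
      obtain ⟨b, hb, rfl⟩ := Finset.mem_image.1 hx
      rw [hF, Finset.mem_filter, hS, Finset.mem_filter] at hb
      exact hb.1.2
  have hcount : (S.card : ℝ) ≤ ((M / T : ℕ) + 1) * (2 * ρ * D + 1) := by
    rw [Finset.card_eq_sum_card_fiberwise hmaps]
    push_cast
    refine (Finset.sum_le_sum hfib).trans ?_
    rw [Finset.sum_const, Finset.card_range, nsmul_eq_mul]
    push_cast
    exact le_rfl
  have hDr : (0 : ℝ) < D := by exact_mod_cast hD1
  have hTr : (0 : ℝ) < T := by exact_mod_cast hT0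
  have hMT : ((M / T : ℕ) : ℝ) ≤ M * C / D := by
    rw [le_div_iff₀ hDr]
    have h1 : M / T * D ≤ M * C := by
      calc M / T * D ≤ M / T * (C * T) := Nat.mul_le_mul_left _ hT2
        _ = (M / T * T) * C := by ring
        _ ≤ M * C := Nat.mul_le_mul_right _ (Nat.div_mul_le_self M T)
    exact_mod_cast h1
  have h2w : (0 : ℝ) < 2 ^ w := by positivity
  have hinv : (1 : ℝ) / D ≤ 1 / 2 ^ w :=
    one_div_le_one_div_of_le h2w (by exact_mod_cast h2D)
  have hDpr : (D : ℝ) ≤ (R : ℝ) ^ w := by exact_mod_cast hDp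
  have hM0 : (0 : ℝ) ≤ M := Nat.cast_nonneg M
  have hC0 : (0 : ℝ) ≤ C := Nat.cast_nonneg C
  calc (S.card : ℝ) ≤ ((M / T : ℕ) + 1) * (2 * ρ * D + 1) := hcount
    _ ≤ (M * C / D + 1) * (2 * ρ * D + 1) := by
        apply mul_le_mul_of_nonneg_right _ (by positivity)
        linarith
    _ = C * (2 * ρ) * M + (C * M) * (1 / D) + 2 * ρ * D + 1 := by
        field_simp
        ring
    _ ≤ C * (2 * ρ) * M + (C * M) * (1 / 2 ^ w) + 2 * ρ * R ^ w + 1 := by
        have h1 : (C * M : ℝ) * (1 / D) ≤ (C * M) * (1 / 2 ^ w) :=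
          mul_le_mul_of_nonneg_left hinv (by positivity)
        have h2 : 2 * ρ * (D : ℝ) ≤ 2 * ρ * R ^ w :=
          mul_le_mul_of_nonneg_left hDpr (by positivity)
        linarith
    _ = C * (2 * ρ + 1 / 2 ^ w) * M + 2 * ρ * R ^ w + 1 := by ring

end Pool.Agent.H.MP_96e181_an.Gen
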