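import Mathlib
import Pool.Agent.H.MP_96e181_an.gen.Defs
import Pool.Agent.H.MP_96e181_an.gen.Row

set_option autoImplicit false

open MeasureTheory

namespace Pool.Agent.H.MP_96e181_an.Gen

open Pool.Agent.H.MP_96e181_an.Blk

namespace StripAux

/-- a row of the strip -/
lemma row_param {A B l c N' : ℕ} (hA : 1 ≤ A) (hAB : Nat.Coprime A B) (hl : A ∣ l)
    (hfull : B * ((c + 1) * l) ≤ N') :
    ∃ a₀ b₀ : ℕ, (∀ j < l / A, b₀ + A * j ∈ Finset.Ico (c * l) ((c + 1) * l) ∧ B * j ≤ a₀ ∧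
        A * (a₀ - B * j) + B * (b₀ + A * j) = N') ∧
      ∀ a b : ℕ, b ∈ Finset.Ico (c * l) ((c + 1) * l) → A * a + B * b = N' →
        ∃ j < l / A, a = a₀ - B * j ∧ b = b₀ + A * j := by
  obtain ⟨M, rfl⟩ := hl
  have hMA : A * M / A = M := Nat.mul_div_cancel_left M (by omega)
  rw [hMA]
  -- the residue class
  obtain ⟨r, hr, hrm⟩ : ∃ r < A, (A : ℤ) ∣ (N' : ℤ) - B * (c * (A * M) + r : ℕ) := by
    obtain ⟨u, v, huv⟩ : ∃ u v : ℤ, (A : ℤ) * u + B * v = 1 := by
      have := Nat.gcd_eq_gcd_ab A B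
      rw [hAB.gcd_eq_one] at this
      exact ⟨_, _, by exact_mod_cast this.symm⟩
    have hA0 : (A : ℤ) ≠ 0 := by exact_mod_cast (by omega : A ≠ 0)
    have h1 := Int.emod_nonneg (v * N') hA0
    have h2 := Int.emod_lt_of_pos (v * N') (by exact_mod_cast hA : (0 : ℤ) < A)
    refine ⟨(v * N' % A).toNat, ?_, ?_⟩
    · zify; rw [Int.toNat_of_nonneg h1]; exact h2
    · push_cast
      rw [Int.toNat_of_nonneg h1]
      have h3 : v * N' % A = v * N' - A * (v * N' / A) := by
        have := Int.emod_add_mul_ediv (v * N') A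
        linarith
      rw [h3]
      refine ⟨u * N' - B * c * M + B * (v * N' / A), ?_⟩
      linear_combination (-(N' : ℤ)) * huv
  set b₀ := c * (A * M) + r with hb₀
  rcases Nat.eq_zero_or_pos M with hM0 | hM
  · subst hM0
    refine ⟨0, b₀, fun j hj => absurd hj (Nat.not_lt_zero j), fun a b hb _ => ?_⟩
    rw [Finset.mem_Ico] at hb
    simp at hb
  have hb0le : B * b₀ ≤ N' := by
    refine le_trans (Nat.mul_le_mul_left B ?_) hfull
    rw [hb₀, add_mul, one_mul]
    have : A ≤ A * M := Nat.le_mul_of_pos_right A hM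
    omega
  obtain ⟨k, hk⟩ := hrm
  have hk0 : 0 ≤ k := by
    have h1 : (0 : ℤ) ≤ (N' : ℤ) - B * (b₀ : ℕ) := by
      have : ((B * b₀ : ℕ) : ℤ) ≤ N' := by exact_mod_cast hb0le
      push_cast at this; linarith
    rw [hk] at h1
    by_contra hcon
    push Not at hcon
    have : (A : ℤ) * k < 0 := mul_neg_of_pos_of_neg (by exact_mod_cast hA) hcon
    linarith
  lift k to ℕ using hk0
  have hk' : A * k + B * b₀ = N' := by
    have : ((A * k + B * b₀ : ℕ) : ℤ) = N' := by push_cast; linarith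
    exact_mod_cast this
  refine ⟨k, b₀, fun j hj => ?_, fun a b hb hab => ?_⟩
  · have hbj : b₀ + A * j < (c + 1) * (A * M) := by
      have h1 : A * j + A ≤ A * M := by
        have := Nat.mul_le_mul_left A hj
        rw [Nat.succ_eq_add_one, Nat.mul_add, Nat.mul_one] at this
        exact this
      rw [add_mul, one_mul]
      omega
    have hBj : B * j ≤ k := by
      have h1 : B * (b₀ + A * j) ≤ N' := le_trans (Nat.mul_le_mul_left B hbj.le) hfull
      have h2 : A * (B * j) ≤ A * k := by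
        have h3 : B * (b₀ + A * j) = B * b₀ + A * (B * j) := by ring
        omega
      exact Nat.le_of_mul_le_mul_left h2 hA
    refine ⟨Finset.mem_Ico.mpr ⟨by omega, hbj⟩, hBj, ?_⟩
    obtain ⟨e, rfl⟩ := Nat.exists_eq_add_of_le hBj
    rw [Nat.add_sub_cancel_left]
    rw [← hk']
    ring
  · rw [Finset.mem_Ico] at hb
    -- `A` divides `b - b₀`
    have h1 : (A : ℤ) ∣ (b : ℤ) - b₀ := by
      have h2 : (A : ℤ) ∣ B * ((b : ℤ) - b₀) := by
        refine ⟨(k : ℤ) - a, ?_⟩
        have h3 : ((A * a + B * b : ℕ) : ℤ) = ((A * k + B * b₀ : ℕ) : ℤ) := by rw [hab, hk']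
        push_cast at h3
        linarith
      exact (Int.isCoprime_iff_gcd_eq_one.mpr (by simpa using hAB)).dvd_of_dvd_mul_left h2
    obtain ⟨e, he⟩ := h1
    have hb1 : (c : ℤ) * (A * M) ≤ b := by exact_mod_cast hb.1
    have hb2 : (b : ℤ) < (c + 1) * (A * M) := by exact_mod_cast hb.2
    have hr' : (r : ℤ) < A := by exact_mod_cast hr
    have hb0' : (b₀ : ℤ) = c * (A * M) + r := by rw [hb₀]; push_cast; ring
    have hA' : (0 : ℤ) < A := by exact_mod_cast hA
    have he0 : 0 ≤ e := by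
      by_contra hcon
      push Not at hcon
      have h2 : (A : ℤ) * e ≤ -A := by nlinarith
      nlinarith
    lift e to ℕ using he0
    have heM : e < M := by
      by_contra hcon
      push Not at hcon
      have h2 : (A : ℤ) * M ≤ A * e := by
        apply mul_le_mul_of_nonneg_left _ hA'.le
        exact_mod_cast hcon
      have h3 : (0 : ℤ) ≤ r := Int.natCast_nonneg r
      nlinarith
    have hbe : b = b₀ + A * e := by
      have : (b : ℤ) = ((b₀ + A * e : ℕ) : ℤ) := by push_cast; linarith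
      exact_mod_cast this
    refine ⟨e, heM, ?_, hbe⟩
    have h2 : A * (a + B * e) = A * k := by
      rw [hbe] at hab
      have h3 : A * a + B * (b₀ + A * e) = A * (a + B * e) + B * b₀ := by ring
      omega
    have h3 := Nat.eq_of_mul_eq_mul_left hA h2
    omega

lemma mem_strip {p q : ℕ} (N : NF p q) {i : Fin N.J} {s l m c : ℕ} {v : ℕ × ℕ} :
    v ∈ strip N i s l m c ↔ v.2 ∈ Finset.Ico (c * l) ((c + 1) * l) ∧
      m * s ≤ N.A i * v.1 + N.B i * v.2 ∧ N.A i * v.1 + N.B i * v.2 < m * s + s := by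
  rw [strip, Finset.mem_filter, Finset.mem_product, Finset.mem_range]
  constructor
  · rintro ⟨⟨_, h2⟩, h3⟩; exact ⟨h2, h3⟩
  · rintro ⟨h2, h3, h4⟩
    refine ⟨⟨?_, h2⟩, h3, h4⟩
    have := Nat.le_mul_of_pos_left v.1 (N.hA i)
    omega

lemma R_dvd {p q : ℕ} (N : NF p q) (i : Fin N.J) : N.R i ∣ p := by
  refine Dvd.dvd.trans ?_ (dvd_of_eq N.hp.symm)
  exact (dvd_pow_self _ (by have := N.hA i; omega)).trans (Finset.dvd_prod_of_mem _
    (Finset.mem_univ i))

end StripAux

open StripAux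

theorem card_strip {p q : ℕ} (N : NF p q) (i : Fin N.J) {s l m c : ℕ} (hl : N.A i ∣ l)
    (hfull : N.B i * ((c + 1) * l) ≤ m * s) :
    (strip N i s l m c).card = s * (l / N.A i) := by
  classical
  have hmaps : ∀ v ∈ strip N i s l m c,
      N.A i * v.1 + N.B i * v.2 ∈ Finset.Ico (m * s) (m * s + s) := by
    intro v hv
    rw [mem_strip] at hv
    exact Finset.mem_Ico.mpr hv.2
  rw [Finset.card_eq_sum_card_fiberwise (f := fun v : ℕ × ℕ => N.A i * v.1 + N.B i * v.2)
    (t := Finset.Ico (m * s) (m * s + s)) hmaps]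
  have hrow : ∀ N' ∈ Finset.Ico (m * s) (m * s + s),
      ((strip N i s l m c).filter (fun v : ℕ × ℕ => N.A i * v.1 + N.B i * v.2 = N')).card =
        l / N.A i := by
    intro N' hN'
    rw [Finset.mem_Ico] at hN'
    obtain ⟨a₀, b₀, h1, h2⟩ := row_param (N.hA i) (N.hAB i) hl (hfull.trans hN'.1)
    have heq : ((strip N i s l m c).filter (fun v : ℕ × ℕ => N.A i * v.1 + N.B i * v.2 = N')) =
        (Finset.range (l / N.A i)).image (fun j => (a₀ - N.B i * j, b₀ + N.A i * j)) := by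
      ext ⟨a, b⟩
      simp only [Finset.mem_filter, mem_strip, Finset.mem_image, Finset.mem_range, Prod.mk.injEq]
      constructor
      · rintro ⟨⟨h3, _⟩, h4⟩
        obtain ⟨j, hj, rfl, rfl⟩ := h2 a b h3 h4
        exact ⟨j, hj, rfl, rfl⟩
      · rintro ⟨j, hj, rfl, rfl⟩
        obtain ⟨h3, _, h5⟩ := h1 j hj
        exact ⟨⟨h3, by rw [h5]; exact hN'⟩, h5⟩
    rw [heq, Finset.card_image_of_injective, Finset.card_range]
    intro j j' hjj
    have h3 : b₀ + N.A i * j = b₀ + N.A i * j' := congrArg Prod.snd hjj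
    exact Nat.eq_of_mul_eq_mul_left (N.hA i) (Nat.add_left_cancel h3)
  rw [Finset.sum_congr rfl hrow, Finset.sum_const, Nat.card_Ico, smul_eq_mul,
    Nat.add_sub_cancel_left]

theorem strip_conc {p q : ℕ} (hp : 2 ≤ p) (hq : 2 ≤ q) (N : NF p q) :
    ∃ C : ℝ, 1 ≤ C ∧ ∀ (i : Fin N.J) (s l m c T i₀ : ℕ) (o : Fin N.J → ℕ)
      (ξ z : UnitAddCircle) (ρ : ℝ), 0 ≤ ρ → N.A i ∣ l → Index N o ξ →
      Edge N o T i s l m c → i₀ ≤ s →
      (((strip N i s l m c).filter (fun v => dist (nn p q v • ξ) z ≤ ρ)).card : ℝ) ≤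
        i₀ * (l / N.A i : ℕ) + s * (C * (2 * ρ + 1 / 2 ^ i₀) * (l / N.A i : ℕ) +
          2 * ρ * (N.R i : ℝ) ^ (2 * s) + 1) := by
  classical
  -- the parts of `p` and `q` prime to `R i`
  set P₁ : Fin N.J → ℕ := fun i => ∏ j ∈ Finset.univ.erase i, N.R j ^ N.A j with hP₁
  set Q₁ : Fin N.J → ℕ := fun i => N.Q0 * ∏ j ∈ Finset.univ.erase i, N.R j ^ N.B j with hQ₁
  have hpi : ∀ i, p = N.R i ^ N.A i * P₁ i := by
    intro i
    conv_lhs => rw [N.hp]
    rw [hP₁]
    exact (Finset.mul_prod_erase Finset.univ (fun j => N.R j ^ N.A j) (Finset.mem_univ i)).symm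
  have hqi : ∀ i, q = N.R i ^ N.B i * Q₁ i := by
    intro i
    conv_lhs => rw [N.hq]
    rw [hQ₁, ← Finset.mul_prod_erase Finset.univ (fun j => N.R j ^ N.B j) (Finset.mem_univ i)]
    ring
  have hPc : ∀ i, Nat.Coprime (P₁ i) (N.R i) := by
    intro i
    refine Nat.Coprime.prod_left fun j hj => ?_
    exact Nat.Coprime.pow_left _ (N.hcop j i (Finset.mem_erase.mp hj).1)
  have hQc : ∀ i, Nat.Coprime (Q₁ i) (N.R i) := by
    intro i
    refine Nat.Coprime.mul_left ?_ ?_
    · exact N.hQ0.coprime_dvd_right (R_dvd N i)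
    · refine Nat.Coprime.prod_left fun j hj => ?_
      exact Nat.Coprime.pow_left _ (N.hcop j i (Finset.mem_erase.mp hj).1)
  have hRpos : ∀ i, 0 < N.R i := fun i => by have := N.hR i; omega
  have hpow : ∀ i, p ^ N.B i = N.R i ^ (N.A i * N.B i) * P₁ i ^ N.B i := by
    intro i
    calc p ^ N.B i = (N.R i ^ N.A i * P₁ i) ^ N.B i := congrArg (· ^ N.B i) (hpi i)
      _ = _ := by rw [mul_pow, ← pow_mul]
  have hqow : ∀ i, q ^ N.A i = N.R i ^ (N.A i * N.B i) * Q₁ i ^ N.A i := by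
    intro i
    calc q ^ N.A i = (N.R i ^ N.B i * Q₁ i) ^ N.A i := congrArg (· ^ N.A i) (hqi i)
      _ = _ := by rw [mul_pow, ← pow_mul, mul_comm (N.B i)]
  have hVW : ∀ i, Q₁ i ^ N.A i ≠ P₁ i ^ N.B i := by
    intro i h
    apply N.hne i
    rw [hpow, hqow, h]
  have hrow := fun i : Fin N.J => row_count' (N.hR i) ((hQc i).pow_left (N.A i))
    ((hPc i).pow_left (N.B i)) (hVW i)
  choose Cf hCf1 hCf using hrow
  have hCf0 : ∀ i, 0 ≤ Cf i := fun i => zero_le_one.trans (hCf1 i)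
  refine ⟨1 + ∑ i, Cf i, by
    have := Finset.sum_nonneg fun i (_ : i ∈ Finset.univ) => hCf0 i
    linarith, ?_⟩
  intro i s l m c T i₀ o ξ z ρ hρ hl hI hE hi₀
  have hCi : Cf i ≤ 1 + ∑ i, Cf i := by
    have := Finset.single_le_sum (fun i (_ : i ∈ Finset.univ) => hCf0 i) (Finset.mem_univ i)
    linarith
  set C := 1 + ∑ i, Cf i with hC
  set M := l / N.A i with hM
  set X : ℝ := C * (2 * ρ + 1 / 2 ^ i₀) * M + 2 * ρ * (N.R i : ℝ) ^ (2 * s) + 1 with hX
  have hC0 : 0 ≤ C := (hCf0 i).trans hCi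
  have hX0 : 0 ≤ X := by positivity
  have hmaps : ∀ v ∈ (strip N i s l m c).filter (fun v => dist (nn p q v • ξ) z ≤ ρ),
      N.A i * v.1 + N.B i * v.2 ∈ Finset.Ico (m * s) (m * s + s) := by
    intro v hv
    have h1 := (Finset.mem_filter.mp hv).1
    rw [mem_strip] at h1
    exact Finset.mem_Ico.mpr h1.2
  rw [Finset.card_eq_sum_card_fiberwise (f := fun v : ℕ × ℕ => N.A i * v.1 + N.B i * v.2)
    (t := Finset.Ico (m * s) (m * s + s)) hmaps]
  push_cast
  have hbd : ∀ N' ∈ Finset.Ico (m * s) (m * s + s),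
      ((((strip N i s l m c).filter (fun v => dist (nn p q v • ξ) z ≤ ρ)).filter
        (fun v : ℕ × ℕ => N.A i * v.1 + N.B i * v.2 = N')).card : ℝ) ≤
        (if m * s + s - i₀ ≤ N' then (M : ℝ) else 0) + X := by
    intro N' hN'
    rw [Finset.mem_Ico] at hN'
    obtain ⟨a₀, b₀, h1, h2⟩ := row_param (N.hA i) (N.hAB i) hl (hE.full.trans hN'.1)
    set ζ : ℕ → UnitAddCircle :=
      fun j => nn p q (a₀ - N.B i * j, b₀ + N.A i * j) • ξ with hζ
    have hsub : (((strip N i s l m c).filter (fun v => dist (nn p q v • ξ) z ≤ ρ)).filter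
        (fun v : ℕ × ℕ => N.A i * v.1 + N.B i * v.2 = N')) ⊆
        ((Finset.range M).filter (fun j => dist (ζ j) z ≤ ρ)).image
          (fun j => (a₀ - N.B i * j, b₀ + N.A i * j)) := by
      rintro ⟨a, b⟩ hv
      rw [Finset.mem_filter, Finset.mem_filter, mem_strip] at hv
      obtain ⟨⟨⟨h3, _⟩, h4⟩, h5⟩ := hv
      obtain ⟨j, hj, rfl, rfl⟩ := h2 a b h3 h5
      exact Finset.mem_image.mpr ⟨j, Finset.mem_filter.mpr ⟨Finset.mem_range.mpr hj, h4⟩, rfl⟩
    have hle := (Finset.card_le_card hsub).trans Finset.card_image_le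
    by_cases hcase : m * s + s - i₀ ≤ N'
    · rw [if_pos hcase]
      have h3 : ((Finset.range M).filter (fun j => dist (ζ j) z ≤ ρ)).card ≤ M :=
        (Finset.card_filter_le _ _).trans (by rw [Finset.card_range])
      have h4 : ((((strip N i s l m c).filter (fun v => dist (nn p q v • ξ) z ≤ ρ)).filter
        (fun v : ℕ × ℕ => N.A i * v.1 + N.B i * v.2 = N')).card : ℝ) ≤ M := by
        exact_mod_cast hle.trans h3
      linarith
    · rw [if_neg hcase, zero_add]
      push Not at hcase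
      have hlo := hE.lo
      have hhi := hE.hi
      obtain ⟨y, hy⟩ : ∃ y, y = o i - N' := ⟨_, rfl⟩
      have hy1 : i₀ < y := by omega
      have hy2 : y ≤ 2 * s := by omega
      have hoy : o i = N' + y := by omega
      have hind : ∀ j < M, ∀ e, (N.R i ^ e • ζ j = 0 ↔ o i ≤ N' + e) := by
        intro j hj e
        obtain ⟨h3, _, h5⟩ := h1 j hj
        have h6 := hI (a₀ - N.B i * j) (b₀ + N.A i * j) i
          (hE.other _ _ h3 (by rw [h5]; exact hN'.1)) e
        rw [h5] at h6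
        exact h6
      have hrc := hCf i y ζ z ρ M (by omega) hρ
        (fun j hj => (hind j hj y).2 (by omega))
        (fun j hj => fun h0 => by
          have := (hind j hj (y - 1)).1 h0
          omega)
        (fun j hj => by
          -- the recurrence
          obtain ⟨_, h4, _⟩ := h1 (j + 1) hj
          have h4' : N.B i ≤ a₀ - N.B i * j := by
            rw [Nat.mul_add, Nat.mul_one] at h4; omega
          have h5 : a₀ - N.B i * (j + 1) + N.B i = a₀ - N.B i * j := by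
            rw [Nat.mul_add, Nat.mul_one] at h4 ⊢; omega
          have h6 : b₀ + N.A i * (j + 1) = b₀ + N.A i * j + N.A i := by ring
          have hnat : P₁ i ^ N.B i * (p ^ (a₀ - N.B i * (j + 1)) * q ^ (b₀ + N.A i * (j + 1))) =
              Q₁ i ^ N.A i * (p ^ (a₀ - N.B i * j) * q ^ (b₀ + N.A i * j)) := by
            apply Nat.eq_of_mul_eq_mul_left (pow_pos (hRpos i) (N.A i * N.B i))
            calc N.R i ^ (N.A i * N.B i) * (P₁ i ^ N.B i * (p ^ (a₀ - N.B i * (j + 1)) *
                  q ^ (b₀ + N.A i * (j + 1))))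
                = (N.R i ^ (N.A i * N.B i) * P₁ i ^ N.B i) * (p ^ (a₀ - N.B i * (j + 1)) *
                  q ^ (b₀ + N.A i * (j + 1))) := by ring
              _ = p ^ (a₀ - N.B i * (j + 1) + N.B i) * q ^ (b₀ + N.A i * (j + 1)) := by
                  rw [← hpow, pow_add]; ring
              _ = p ^ (a₀ - N.B i * j) * (q ^ (b₀ + N.A i * j) * q ^ N.A i) := by
                  rw [h5, h6, pow_add q]
              _ = _ := by rw [hqow]; ring
          change P₁ i ^ N.B i • (nn p q (a₀ - N.B i * (j + 1), b₀ + N.A i * (j + 1)) • ξ) =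
            Q₁ i ^ N.A i • (nn p q (a₀ - N.B i * j, b₀ + N.A i * j) • ξ)
          rw [smul_smul, smul_smul]
          simp only [nn]
          rw [hnat])
      have h3 : ((((strip N i s l m c).filter (fun v => dist (nn p q v • ξ) z ≤ ρ)).filter
        (fun v : ℕ × ℕ => N.A i * v.1 + N.B i * v.2 = N')).card : ℝ) ≤
          (((Finset.range M).filter (fun j => dist (ζ j) z ≤ ρ)).card : ℝ) := by
        exact_mod_cast hle
      refine h3.trans (hrc.trans ?_)
      have h4 : (1 : ℝ) / 2 ^ y ≤ 1 / 2 ^ i₀ :=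
        one_div_le_one_div_of_le (by positivity)
          (pow_le_pow_right₀ (by norm_num) hy1.le)
      have hR1 : (1 : ℝ) ≤ N.R i := by exact_mod_cast hRpos i
      have h5 : (N.R i : ℝ) ^ y ≤ (N.R i : ℝ) ^ (2 * s) := pow_le_pow_right₀ hR1 hy2
      rw [hX]
      gcongr
  refine (Finset.sum_le_sum hbd).trans ?_
  rw [Finset.sum_add_distrib, Finset.sum_const, Nat.card_Ico, Nat.add_sub_cancel_left,
    nsmul_eq_mul, ← Finset.sum_filter, Finset.sum_const, nsmul_eq_mul]
  have hcard : ((Finset.Ico (m * s) (m * s + s)).filter (fun N' => m * s + s - i₀ ≤ N')).card ≤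
      i₀ := by
    have hsub : ((Finset.Ico (m * s) (m * s + s)).filter (fun N' => m * s + s - i₀ ≤ N')) ⊆
        Finset.Ico (m * s + s - i₀) (m * s + s) := by
      intro N' hN'
      rw [Finset.mem_filter, Finset.mem_Ico] at hN'
      exact Finset.mem_Ico.mpr ⟨hN'.2, hN'.1.2⟩
    refine (Finset.card_le_card hsub).trans ?_
    rw [Nat.card_Ico]
    omega
  have hcard' : ((((Finset.Ico (m * s) (m * s + s)).filter
      (fun N' => m * s + s - i₀ ≤ N')).card : ℕ) : ℝ) ≤ i₀ := by exact_mod_cast hcard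
  have hM0 : (0 : ℝ) ≤ M := Nat.cast_nonneg _
  have := mul_le_mul_of_nonneg_right hcard' hM0
  linarith

end Pool.Agent.H.MP_96e181_an.Gen
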