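import Mathlib
import Pool.Agent.H.MP_96e181_an.blk.Defs
import Pool.Agent.H.MP_96e181_an.gen.Defs
import Pool.Agent.H.MP_96e181_an.gen.Defs2
import Pool.Agent.H.MP_96e181_an.gen.KRow
import Pool.Agent.H.MP_96e181_an.gen.Strip

set_option autoImplicit false

open MeasureTheory

namespace Pool.Agent.H.MP_96e181_an.Gen

open Pool.Agent.H.MP_96e181_an.Blk

open StripAux in
theorem row_conc (HK : KorobovBound) {p q : ℕ} (hp : 2 ≤ p) (hq : 2 ≤ q) (N : NF p q)
    (g : Fin N.J → ℕ) (hg : ∀ i, 1 ≤ g i) {ρ : ℝ} (hρ : 0 < ρ) :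
    ∃ y₁ M₁ : ℕ, ∀ (i : Fin N.J) (s l m c T i₀ M : ℕ) (o : Fin N.J → ℕ) (ξ z : UnitAddCircle)
      (w : ℕ × ℕ), M₁ ≤ M → y₁ ≤ i₀ → (s + i₀) ^ 10 ≤ (Nat.log 2 M) ^ 13 → Index N o ξ →
      Edge N o T i s l m c →
      (∀ j < M, rpt (g i * N.A i) (g i * N.B i) M w j ∈ strip N i s l m c ∧
        N.A i * (rpt (g i * N.A i) (g i * N.B i) M w j).1 +
          N.B i * (rpt (g i * N.A i) (g i * N.B i) M w j).2 + i₀ = m * s + s) →
      (((row (g i * N.A i) (g i * N.B i) M w).filter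
        (fun v => dist (nn p q v • ξ) z ≤ ρ)).card : ℝ) ≤ 10 * ρ * M := by
  classical
  -- the parts of `p` and `q` prime to `R i`
  obtain ⟨P₁, hP₁⟩ : ∃ P₁ : Fin N.J → ℕ, P₁ = fun i => ∏ j ∈ Finset.univ.erase i, N.R j ^ N.A j :=
    ⟨_, rfl⟩
  obtain ⟨Q₁, hQ₁⟩ : ∃ Q₁ : Fin N.J → ℕ,
      Q₁ = fun i => N.Q0 * ∏ j ∈ Finset.univ.erase i, N.R j ^ N.B j := ⟨_, rfl⟩
  have hpi : ∀ i, p = N.R i ^ N.A i * P₁ i := by
    intro i
    conv_lhs => rw [N.hp]
    rw [hP₁]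
    exact (Finset.mul_prod_erase Finset.univ (fun j => N.R j ^ N.A j) (Finset.mem_univ i)).symm
  have hqi : ∀ i, q = N.R i ^ N.B i * Q₁ i := by
    intro i
    conv_lhs => rw [N.hq]
    rw [hQ₁, ← Finset.mul_prod_erase Finset.univ (fun j => N.R j ^ N.B j) (Finset.mem_univ i)]
    ring
  have hPc : ∀ i, Nat.Coprime (P₁ i) (N.R i) := by
    intro i
    rw [hP₁]
    refine Nat.Coprime.prod_left fun j hj => ?_
    exact Nat.Coprime.pow_left _ (N.hcop j i (Finset.mem_erase.mp hj).1)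
  have hQc : ∀ i, Nat.Coprime (Q₁ i) (N.R i) := by
    intro i
    rw [hQ₁]
    refine Nat.Coprime.mul_left ?_ ?_
    · exact N.hQ0.coprime_dvd_right (R_dvd N i)
    · refine Nat.Coprime.prod_left fun j hj => ?_
      exact Nat.Coprime.pow_left _ (N.hcop j i (Finset.mem_erase.mp hj).1)
  have hRpos : ∀ i, 0 < N.R i := fun i => by have := N.hR i; omega
  have hpow : ∀ i, p ^ N.B i = N.R i ^ (N.A i * N.B i) * P₁ i ^ N.B i := by
    intro i
    calc p ^ N.B i = (N.R i ^ N.A i * P₁ i) ^ N.B i := congrArg (· ^ N.B i) (hpi i)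
      _ = _ := by rw [mul_pow, ← pow_mul]
  have hqow : ∀ i, q ^ N.A i = N.R i ^ (N.A i * N.B i) * Q₁ i ^ N.A i := by
    intro i
    calc q ^ N.A i = (N.R i ^ N.B i * Q₁ i) ^ N.A i := congrArg (· ^ N.A i) (hqi i)
      _ = _ := by rw [mul_pow, ← pow_mul, mul_comm (N.B i)]
  have hVW : ∀ i, Q₁ i ^ N.A i ≠ P₁ i ^ N.B i := by
    intro i h
    apply N.hne i
    rw [hpow, hqow, h]
  have hVWg : ∀ i, (Q₁ i ^ N.A i) ^ g i ≠ (P₁ i ^ N.B i) ^ g i := by
    intro i h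
    exact hVW i (Nat.pow_left_injective (by have := hg i; omega) h)
  have hrow := fun i : Fin N.J => row_sparse HK (N.hR i)
    (((hQc i).pow_left (N.A i)).pow_left (g i)) (((hPc i).pow_left (N.B i)).pow_left (g i))
    (hVWg i) hρ
  choose yf Mf hf using hrow
  refine ⟨1 + ∑ i, yf i, ∑ i, Mf i, ?_⟩
  intro i s l m c T i₀ M o ξ z w hM hi₀ hlog hI hE hpts
  have hyi : yf i ≤ ∑ i, yf i :=
    Finset.single_le_sum (fun i (_ : i ∈ Finset.univ) => Nat.zero_le _) (Finset.mem_univ i)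
  have hMi : Mf i ≤ ∑ i, Mf i :=
    Finset.single_le_sum (fun i (_ : i ∈ Finset.univ) => Nat.zero_le _) (Finset.mem_univ i)
  rcases Nat.eq_zero_or_pos M with hM0 | hM0
  · subst hM0
    simp [row]
  obtain ⟨A, hA⟩ : ∃ A, A = N.A i := ⟨_, rfl⟩
  obtain ⟨B, hB⟩ : ∃ B, B = N.B i := ⟨_, rfl⟩
  have hlo := hE.lo
  have hhi := hE.hi
  have h00 := (hpts 0 hM0).2
  obtain ⟨N', hN'⟩ : ∃ N', N' + i₀ = m * s + s := ⟨_, h00⟩
  obtain ⟨y, hy⟩ : ∃ y, y = o i - N' := ⟨_, rfl⟩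
  have hy1 : i₀ < y := by omega
  have hy2 : y ≤ s + i₀ := by omega
  have hoy : o i = N' + y := by omega
  obtain ⟨ζ, hζ⟩ : ∃ ζ : ℕ → UnitAddCircle,
      ζ = fun j => nn p q (rpt (g i * N.A i) (g i * N.B i) M w j) • ξ := ⟨_, rfl⟩
  have hlevel : ∀ j < M, N.A i * (rpt (g i * N.A i) (g i * N.B i) M w j).1 +
      N.B i * (rpt (g i * N.A i) (g i * N.B i) M w j).2 = N' := by
    intro j hj
    have := (hpts j hj).2
    omega
  have hind : ∀ j < M, ∀ e, (N.R i ^ e • ζ j = 0 ↔ o i ≤ N' + e) := by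
    intro j hj e
    have h1 := (hpts j hj).1
    rw [mem_strip] at h1
    have h6 := hI (rpt (g i * N.A i) (g i * N.B i) M w j).1
      (rpt (g i * N.A i) (g i * N.B i) M w j).2 i (hE.other _ _ h1.1 h1.2.1) e
    rw [hlevel j hj] at h6
    rw [hζ]
    exact h6
  have hrc := hf i M y ζ z (by omega) (by omega)
    (le_trans (Nat.pow_le_pow_left hy2 10) hlog)
    (fun j hj => (hind j hj y).2 (by omega))
    (fun j hj h0 => by
      have := (hind j hj (y - 1)).1 h0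
      omega)
    (fun j hj => by
      have h1 : M - 1 - j = (M - 1 - (j + 1)) + 1 := by omega
      have hnat : (P₁ i ^ N.B i) ^ g i * (p ^ (g i * N.B i * (M - 1 - (j + 1)) + w.1)
            * q ^ (g i * N.A i * (j + 1) + w.2)) =
          (Q₁ i ^ N.A i) ^ g i * (p ^ (g i * N.B i * (M - 1 - j) + w.1)
            * q ^ (g i * N.A i * j + w.2)) := by
        apply Nat.eq_of_mul_eq_mul_left (pow_pos (hRpos i) (N.A i * N.B i * g i))
        have e1 : N.R i ^ (N.A i * N.B i * g i) * (P₁ i ^ N.B i) ^ g i = p ^ (g i * N.B i) := by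
          rw [mul_comm (g i) (N.B i), pow_mul p, hpow, mul_pow, ← pow_mul (N.R i)]
        have e2 : N.R i ^ (N.A i * N.B i * g i) * (Q₁ i ^ N.A i) ^ g i = q ^ (g i * N.A i) := by
          rw [mul_comm (g i) (N.A i), pow_mul q, hqow, mul_pow, ← pow_mul (N.R i)]
        have e3 : ∀ x y z t : ℕ, x * (y * (z * t)) = x * y * (z * t) := fun x y z t => by ring
        rw [e3, e3, e1, e2, h1]
        ring
      rw [hζ]
      show (P₁ i ^ N.B i) ^ g i • (nn p q (rpt (g i * N.A i) (g i * N.B i) M w (j + 1)) • ξ) =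
        (Q₁ i ^ N.A i) ^ g i • (nn p q (rpt (g i * N.A i) (g i * N.B i) M w j) • ξ)
      rw [smul_smul, smul_smul]
      simp only [nn, rpt]
      rw [hnat])
  refine le_trans ?_ hrc
  have hle : ((row (g i * N.A i) (g i * N.B i) M w).filter
        (fun v => dist (nn p q v • ξ) z ≤ ρ)).card
      ≤ ((Finset.range M).filter (fun j => dist (ζ j) z ≤ ρ)).card := by
    have hsub : (row (g i * N.A i) (g i * N.B i) M w).filter
        (fun v => dist (nn p q v • ξ) z ≤ ρ)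
        ⊆ ((Finset.range M).filter (fun j => dist (ζ j) z ≤ ρ)).image
          (rpt (g i * N.A i) (g i * N.B i) M w) := by
      intro v hv
      rw [Finset.mem_filter, row, Finset.mem_image] at hv
      obtain ⟨⟨j, hj, rfl⟩, h2⟩ := hv
      refine Finset.mem_image.mpr ⟨j, Finset.mem_filter.mpr ⟨hj, ?_⟩, rfl⟩
      rw [hζ]
      exact h2
    exact (Finset.card_le_card hsub).trans Finset.card_image_le
  exact_mod_cast hle

end Pool.Agent.H.MP_96e181_an.Gen
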