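import Mathlib
import Pool.Agent.H.MP_96e181_an.blk.Defs
import Pool.Agent.H.MP_96e181_an.gen.Defs
import Pool.Agent.H.MP_96e181_an.gen.Defs2

set_option autoImplicit false

open MeasureTheory

namespace Pool.Agent.H.MP_96e181_an.Gen

open Pool.Agent.H.MP_96e181_an.Blk

theorem nf_prime {p q : ℕ} (hp : 2 ≤ p) (hq : 2 ≤ q) (N : NF p q) (i : Fin N.J) :
    ∃ l g : ℕ, l.Prime ∧ l ∣ p ∧ 1 ≤ g ∧ p.factorization l = g * N.A i ∧
      q.factorization l = g * N.B i := by
  obtain ⟨l, hl, hlR⟩ := Nat.exists_prime_and_dvd (show N.R i ≠ 1 by have := N.hR i; omega)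
  have hRpos : ∀ j, N.R j ≠ 0 := fun j => by have := N.hR j; omega
  have hother : ∀ j, j ≠ i → (N.R j).factorization l = 0 := fun j hj =>
    Nat.factorization_eq_zero_of_not_dvd fun h =>
      hl.one_lt.ne' (Nat.eq_one_of_dvd_coprimes (N.hcop j i hj) h hlR)
  have hprod : ∀ C : Fin N.J → ℕ,
      (∏ j, N.R j ^ C j).factorization l = (N.R i).factorization l * C i := by
    intro C
    rw [Nat.factorization_prod (fun j _ => pow_ne_zero _ (hRpos j)), Finsupp.finsetSum_apply,
      Finset.sum_eq_single i]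
    · rw [Nat.factorization_pow, Finsupp.smul_apply, smul_eq_mul, mul_comm]
    · intro j _ hj
      rw [Nat.factorization_pow, Finsupp.smul_apply, hother j hj, smul_zero]
    · intro h
      exact absurd (Finset.mem_univ i) h
  have hg : 1 ≤ (N.R i).factorization l := (hl.dvd_iff_one_le_factorization (hRpos i)).mp hlR
  have hpf : p.factorization l = (N.R i).factorization l * N.A i := by
    rw [← hprod N.A]
    exact congrArg (fun n : ℕ => n.factorization l) N.hp
  have hlp : l ∣ p := by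
    rw [hl.dvd_iff_one_le_factorization (by omega), hpf]
    exact Nat.mul_pos hg (N.hA i)
  refine ⟨l, (N.R i).factorization l, hl, hlp, hg, hpf, ?_⟩
  have hQ0ne : N.Q0 ≠ 0 := by
    intro h
    have := N.hq
    rw [h, zero_mul] at this
    omega
  have hprodne : (∏ j, N.R j ^ N.B j) ≠ 0 :=
    Finset.prod_ne_zero_iff.mpr fun j _ => pow_ne_zero _ (hRpos j)
  have hQl : N.Q0.factorization l = 0 :=
    Nat.factorization_eq_zero_of_not_dvd fun h =>
      hl.one_lt.ne' (Nat.eq_one_of_dvd_coprimes N.hQ0 h hlp)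
  have h1 : q.factorization l = (N.Q0 * ∏ j, N.R j ^ N.B j).factorization l :=
    congrArg (fun n : ℕ => n.factorization l) N.hq
  rw [h1, Nat.factorization_mul hQ0ne hprodne, Finsupp.add_apply, hQl, zero_add, hprod]

theorem card_row {a b M : ℕ} (ha : 1 ≤ a) (w : ℕ × ℕ) : (row a b M w).card = M := by
  unfold row
  rw [Finset.card_image_of_injective, Finset.card_range]
  intro j k hjk
  have h1 : a * j + w.2 = a * k + w.2 := congrArg Prod.snd hjk
  have h2 : a * j = a * k := by omega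
  exact Nat.eq_of_mul_eq_mul_left ha h2

theorem exists_row {p q : ℕ} (N : NF p q) (i : Fin N.J) {g s l m c i₀ M : ℕ} (hg : 1 ≤ g)
    (hi₀ : 1 ≤ i₀) (hi₀s : i₀ ≤ s) (hM : 1 ≤ M) (hl : g * N.A i * M ≤ l)
    (hfull : N.B i * ((c + 1) * l) ≤ m * s) :
    ∃ w : ℕ × ℕ, ∀ j < M, rpt (g * N.A i) (g * N.B i) M w j ∈ strip N i s l m c ∧
      N.A i * (rpt (g * N.A i) (g * N.B i) M w j).1 +
        N.B i * (rpt (g * N.A i) (g * N.B i) M w j).2 + i₀ = m * s + s := by
  have hA := N.hA i
  have hAB := N.hAB i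
  unfold rpt strip
  generalize N.A i = A at *
  generalize N.B i = B at *
  set N' := m * s + s - i₀ with hN'
  -- the residue
  obtain ⟨k, hk1, hk2⟩ := Nat.chineseRemainder hAB N' 0
  have hk3 : B ∣ k := (Nat.modEq_zero_iff_dvd).mp hk2
  obtain ⟨t, rfl⟩ := hk3
  set b0 := c * l + (t + (A - 1) * (c * l)) % A with hb0
  have hb0t : b0 ≡ t [MOD A] := by
    have h1 : b0 ≡ c * l + (t + (A - 1) * (c * l)) [MOD A] :=
      (Nat.ModEq.refl (c * l)).add (Nat.mod_modEq _ _)
    have h2 : c * l + (t + (A - 1) * (c * l)) = t + A * (c * l) := by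
      obtain ⟨A', rfl⟩ : ∃ A', A = A' + 1 := ⟨A - 1, by omega⟩
      simp only [Nat.add_sub_cancel]
      ring
    rw [h2] at h1
    refine h1.trans ?_
    have h3 : A * (c * l) ≡ 0 [MOD A] := (Nat.modEq_zero_iff_dvd).mpr ⟨_, rfl⟩
    simpa using (Nat.ModEq.refl t).add h3
  have hmod : (t + (A - 1) * (c * l)) % A < A := Nat.mod_lt _ hA
  set b1 := g * A * (M - 1) + b0 with hb1
  have hlt : g * A * (M - 1) + A ≤ l := by
    obtain ⟨M', rfl⟩ : ∃ M', M = M' + 1 := ⟨M - 1, by omega⟩
    simp only [Nat.add_sub_cancel]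
    have : A ≤ g * A := Nat.le_mul_of_pos_left _ hg
    nlinarith
  have hcl : (c + 1) * l = c * l + l := by ring
  have hb1lt : b1 < (c + 1) * l := by
    rw [hcl, hb1, hb0]
    omega
  have hBb1 : B * b1 ≤ N' := by
    calc B * b1 ≤ B * ((c + 1) * l) := Nat.mul_le_mul_left _ hb1lt.le
      _ ≤ m * s := hfull
      _ ≤ N' := by omega
  have hcong : B * b1 ≡ N' [MOD A] := by
    refine Nat.ModEq.trans ?_ hk1
    refine Nat.ModEq.mul_left B ?_
    have h3 : g * A * (M - 1) ≡ 0 [MOD A] := (Nat.modEq_zero_iff_dvd).mpr ⟨g * (M - 1), by ring⟩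
    simpa only [zero_add] using h3.add hb0t
  obtain ⟨w1, hw1⟩ := (Nat.modEq_iff_dvd' hBb1).mp hcong
  have hw1' : A * w1 + B * b1 = N' := by omega
  refine ⟨(w1, b0), fun j hj => ?_⟩
  have hsum : A * (g * B * (M - 1 - j) + w1) + B * (g * A * j + b0) = N' := by
    obtain ⟨r, hr⟩ : ∃ r, M - 1 = r + j := ⟨M - 1 - j, by omega⟩
    have hr2 : M - 1 - j = r := by omega
    rw [hr2, ← hw1', hb1, hr]
    ring
  have hjM : g * A * j ≤ g * A * (M - 1) := Nat.mul_le_mul_left _ (by omega)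
  refine ⟨?_, ?_⟩
  · rw [Finset.mem_filter, Finset.mem_product, Finset.mem_range, Finset.mem_Ico]
    refine ⟨⟨?_, ?_, ?_⟩, ?_, ?_⟩
    · have h1 : g * B * (M - 1 - j) + w1 ≤ A * (g * B * (M - 1 - j) + w1) :=
        Nat.le_mul_of_pos_left _ hA
      change g * B * (M - 1 - j) + w1 < m * s + s
      omega
    · change c * l ≤ g * A * j + b0
      omega
    · change g * A * j + b0 < (c + 1) * l
      omega
    · change m * s ≤ A * (g * B * (M - 1 - j) + w1) + B * (g * A * j + b0)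
      omega
    · change A * (g * B * (M - 1 - j) + w1) + B * (g * A * j + b0) < m * s + s
      omega
  · change A * (g * B * (M - 1 - j) + w1) + B * (g * A * j + b0) + i₀ = m * s + s
    omega

end Pool.Agent.H.MP_96e181_an.Gen
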