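import Mathlib
import Pool.Agent.H.MP_96e181_an.blk.Defs
import Pool.Agent.H.MP_96e181_an.gen.Defs
import Pool.Agent.H.MP_96e181_an.gen.Defs2

set_option autoImplicit false

open MeasureTheory

namespace Pool.Agent.H.MP_96e181_an.Gen

open Pool.Agent.H.MP_96e181_an.Blk

private lemma RowStat_mp_pow {p : ℕ} {μ : Measure UnitAddCircle}
    (hμp : MeasurePreserving (fun x : UnitAddCircle => p • x) μ μ) (n : ℕ) :
    MeasurePreserving (fun x : UnitAddCircle => p ^ n • x) μ μ := by
  induction n with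
  | zero =>
    have h2 : (fun x : UnitAddCircle => p ^ 0 • x) = id := by
      funext x; simp
    rw [h2]; exact MeasurePreserving.id μ
  | succ n ih =>
    have h := hμp.comp ih
    have h2 : ((fun x : UnitAddCircle => p • x) ∘ fun x => p ^ n • x) =
        fun x : UnitAddCircle => p ^ (n + 1) • x := by
      funext x
      show p • (p ^ n • x) = p ^ (n + 1) • x
      rw [← mul_smul, pow_succ, mul_comm]
    rwa [h2] at h

private lemma RowStat_fourier (k : ℤ) (n : ℕ) (x : UnitAddCircle) :
    (fourier (k * (n : ℤ)) x : ℂ) = fourier k (n • x) := by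
  simp only [fourier_apply, mul_smul, natCast_zsmul]

private lemma RowStat_inj {a b M : ℕ} (ha : 1 ≤ a) (w : ℕ × ℕ) :
    Function.Injective (rpt a b M w) := by
  intro i j h
  have h2 : a * i + w.2 = a * j + w.2 := congrArg Prod.snd h
  have h3 : a * i = a * j := by omega
  exact Nat.eq_of_mul_eq_mul_left (by omega) h3

/-- statistics of the rows -/
theorem row_stat {p q : ℕ} {μ : Measure UnitAddCircle} [IsProbabilityMeasure μ]
    (hμp : MeasurePreserving (fun x : UnitAddCircle => p • x) μ μ)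
    (hμq : MeasurePreserving (fun x : UnitAddCircle => q • x) μ μ)
    {a b M : ℕ} (ha : 1 ≤ a) (w : ℕ × ℕ) (S : Finset ℤ) (ε : ℝ) :
    ∃ E : Set UnitAddCircle, MeasurableSet E ∧
      μ.real E ≤ ∑ k ∈ S, μ.real {x | ε * M <
        ‖∑ j ∈ Finset.range M, ((fourier (k * ((p ^ (b * (M - 1 - j)) * q ^ (a * j) : ℕ) : ℤ)) x
          : ℂ) - coef μ k)‖} ∧
      ∀ x, x ∉ E → ∀ k ∈ S, ‖∑ v ∈ row a b M w,
        ((fourier (k * (nn p q v : ℤ)) x : ℂ) - coef μ k)‖ ≤ ε * (row a b M w).card := by
  obtain ⟨G, hG⟩ : ∃ G : ℤ → UnitAddCircle → ℂ, G = fun k x => ∑ j ∈ Finset.range M,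
      ((fourier (k * ((p ^ (b * (M - 1 - j)) * q ^ (a * j) : ℕ) : ℤ)) x : ℂ) - coef μ k) :=
    ⟨_, rfl⟩
  obtain ⟨D, hD⟩ : ∃ D : ℕ, D = p ^ w.1 * q ^ w.2 := ⟨_, rfl⟩
  have hmp : MeasurePreserving (fun x : UnitAddCircle => D • x) μ μ := by
    have h := (RowStat_mp_pow hμp w.1).comp (RowStat_mp_pow hμq w.2)
    have h2 : ((fun x : UnitAddCircle => p ^ w.1 • x) ∘ fun x => q ^ w.2 • x) =
        fun x : UnitAddCircle => D • x := by
      funext x
      show p ^ w.1 • (q ^ w.2 • x) = D • x
      rw [← mul_smul, hD]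
    rwa [h2] at h
  have hcont : ∀ k, Continuous (G k) := by
    intro k
    rw [hG]
    exact continuous_finsetSum _ fun j _ =>
      (ContinuousMap.continuous (fourier _)).sub continuous_const
  have hms : ∀ k, MeasurableSet {x : UnitAddCircle | ε * M < ‖G k x‖} := by
    intro k
    exact (isOpen_lt continuous_const (hcont k).norm).measurableSet
  have hcard : (row a b M w).card = M := by
    unfold row
    rw [Finset.card_image_of_injective _ (RowStat_inj ha w), Finset.card_range]
  have hsum : ∀ k x, ∑ v ∈ row a b M w, ((fourier (k * (nn p q v : ℤ)) x : ℂ) - coef μ k)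
      = G k (D • x) := by
    intro k x
    unfold row
    rw [Finset.sum_image (fun i _ j _ h => RowStat_inj ha w h), hG]
    refine Finset.sum_congr rfl fun j _ => ?_
    congr 1
    have h1 : nn p q (rpt a b M w j) = (p ^ (b * (M - 1 - j)) * q ^ (a * j)) * D := by
      rw [hD]
      show p ^ (b * (M - 1 - j) + w.1) * q ^ (a * j + w.2) = _
      rw [pow_add, pow_add]
      ring
    rw [h1, Nat.cast_mul, ← mul_assoc, RowStat_fourier]
  refine ⟨⋃ k ∈ S, (fun x : UnitAddCircle => D • x) ⁻¹' {x | ε * M < ‖G k x‖}, ?_, ?_, ?_⟩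
  · exact Finset.measurableSet_biUnion _ fun k _ => hmp.measurable (hms k)
  · refine (measureReal_biUnion_finset_le _ _).trans ?_
    refine Finset.sum_le_sum fun k _ => ?_
    have h1 : μ.real ((fun x : UnitAddCircle => D • x) ⁻¹' {x | ε * M < ‖G k x‖})
        = μ.real {x | ε * M < ‖G k x‖} := by
      unfold Measure.real
      rw [hmp.measure_preimage (hms k).nullMeasurableSet]
    rw [h1, hG]
  · intro x hx k hk
    rw [hsum, hcard]
    by_contra h
    push Not at h
    apply hx
    rw [Set.mem_iUnion₂]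
    exact ⟨k, hk, h⟩

end Pool.Agent.H.MP_96e181_an.Gen
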