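import Mathlib
import Pool.Agent.H.MP_96e181_an.gen.Defs
import Pool.Agent.H.MP_96e181_an.blk.Stat

set_option autoImplicit false

open MeasureTheory

namespace Pool.Agent.H.MP_96e181_an.Gen

open Pool.Agent.H.MP_96e181_an.Blk
open Pool.Agent.H.MP_96e181_an.Blk.StatAux

/-- Deterministic version of the statistical bound: if the averages of finitely many characters
along `F` are close to their integrals, then few points of `F` bring `x` outside of the
neighbourhood of `Z`. -/
theorem stat_core {p q : ℕ} {μ : Measure UnitAddCircle} [IsProbabilityMeasure μ]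
    (Z : Finset UnitAddCircle) {r : ℝ} (hr : 0 < r) (hZ : μ.real (nbh Z r)ᶜ ≤ 1 / 64) :
    ∃ (S : Finset ℤ) (ε : ℝ), 0 < ε ∧ ∀ F : Finset (ℕ × ℕ), F.Nonempty → ∀ x : UnitAddCircle,
      (∀ k ∈ S, ‖∑ v ∈ F, ((fourier (k * (nn p q v : ℤ)) x : ℂ) - coef μ k)‖ ≤ ε * F.card) →
      8 * (outCount p q Z (2 * r) F x : ℝ) ≤ F.card := by
  classical
  have hZne : Z.Nonempty := by
    rw [Finset.nonempty_iff_ne_empty]
    rintro rfl
    simp [nbh] at hZ
    norm_num at hZ
  obtain ⟨g, hg0, hg1, hgZ, hgout⟩ := exists_cutoff Z hZne hr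
  -- the integral of the cut-off function
  have hmeasN : MeasurableSet (nbh Z r) := by
    unfold nbh
    exact Finset.measurableSet_biUnion _ (fun z _ => Metric.isClosed_closedBall.measurableSet)
  have hgint : ∫ x, g x ∂μ ≤ 1 / 64 := by
    have h1 : ∫ x, g x ∂μ ≤ ∫ x, (nbh Z r)ᶜ.indicator (fun _ => (1 : ℝ)) x ∂μ := by
      apply integral_mono
      · exact g.continuous.integrable_of_hasCompactSupport (HasCompactSupport.of_compactSpace _)
      · exact (integrable_const (1 : ℝ)).indicator hmeasN.compl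
      · intro x
        by_cases hx : x ∈ nbh Z r
        · have : x ∉ (nbh Z r)ᶜ := by simpa using hx
          simp only [Set.indicator_of_notMem this, hgZ x hx, le_refl]
        · have : x ∈ (nbh Z r)ᶜ := hx
          simp only [Set.indicator_of_mem this]
          exact hg1 x
    rw [integral_indicator_const (1 : ℝ) hmeasN.compl, smul_eq_mul, mul_one] at h1
    exact h1.trans hZ
  have hgint0 : 0 ≤ ∫ x, g x ∂μ := integral_nonneg hg0
  -- the complex version of g
  let gc : C(UnitAddCircle, ℂ) := ⟨fun x => (g x : ℂ), Complex.continuous_ofReal.comp g.continuous⟩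
  have hgc : gc ∈ (Submodule.span ℂ (Set.range (@fourier 1))).topologicalClosure := by
    rw [span_fourier_closure_eq_top]
    trivial
  have hcl : gc ∈ closure ((Submodule.span ℂ (Set.range (@fourier 1)) :
      Submodule ℂ C(UnitAddCircle, ℂ)) : Set C(UnitAddCircle, ℂ)) := hgc
  rw [Metric.mem_closure_iff] at hcl
  obtain ⟨P, hPmem, hPd⟩ := hcl (1 / 64) (by norm_num)
  have hPmem' : P ∈ Submodule.span ℂ (Set.range (@fourier 1)) := hPmem
  rw [Finsupp.mem_span_range_iff_exists_finsupp] at hPmem'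
  obtain ⟨c, hc⟩ := hPmem'
  have hPx : ∀ x : UnitAddCircle, P x = ∑ k ∈ c.support, c k * fourier k x := by
    intro x
    rw [← hc, Finsupp.sum]
    simp [ContinuousMap.sum_apply]
  have hPg : ∀ x : UnitAddCircle, ‖(g x : ℂ) - P x‖ ≤ 1 / 64 := by
    intro x
    have h1 := ContinuousMap.dist_apply_le_dist (f := gc) (g := P) x
    rw [dist_eq_norm] at h1
    exact h1.trans hPd.le
  -- the constants
  set A : ℝ := ∑ k ∈ c.support, ‖c k‖ with hA
  have hA0 : 0 ≤ A := Finset.sum_nonneg (fun k _ => norm_nonneg _)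
  set τ : ℝ := 1 / (64 * (1 + A)) with hτdef
  have hτ : 0 < τ := by positivity
  refine ⟨c.support, τ, hτ, ?_⟩
  intro F hF x hxk
  have hN : (0 : ℝ) < F.card := by exact_mod_cast hF.card_pos
  -- the integral of P
  have hPint : ∫ y, P y ∂μ = ∑ k ∈ c.support, c k * coef μ k := by
    have h1 : ∀ y : UnitAddCircle, P y = ∑ k ∈ c.support, c k * fourier k y := hPx
    simp_rw [h1]
    rw [integral_finsetSum]
    · apply Finset.sum_congr rfl
      intro k _
      rw [integral_const_mul]
      rfl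
    · intro k _
      apply Integrable.const_mul
      exact (fourier k).continuous.integrable_of_hasCompactSupport
        (HasCompactSupport.of_compactSpace _)
  have hPintn : ‖∫ y, P y ∂μ‖ ≤ 2 / 64 := by
    have hgi : Integrable (fun y => ((g y : ℝ) : ℂ)) μ :=
      gc.continuous.integrable_of_hasCompactSupport (HasCompactSupport.of_compactSpace _)
    have hPi : Integrable (fun y => P y) μ :=
      P.continuous.integrable_of_hasCompactSupport (HasCompactSupport.of_compactSpace _)
    have h1 : ∫ y, P y ∂μ = ∫ y, ((g y : ℝ) : ℂ) ∂μ - ∫ y, (((g y : ℝ) : ℂ) - P y) ∂μ := by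
      rw [integral_sub hgi hPi]; ring
    rw [h1]
    refine (norm_sub_le _ _).trans ?_
    have h2 : ‖∫ y, ((g y : ℝ) : ℂ) ∂μ‖ ≤ 1 / 64 := by
      rw [integral_complex_ofReal, Complex.norm_real, Real.norm_of_nonneg hgint0]
      exact hgint
    have h3 : ‖∫ y, (((g y : ℝ) : ℂ) - P y) ∂μ‖ ≤ 1 / 64 := by
      have := norm_integral_le_of_norm_le_const (μ := μ)
        (Filter.Eventually.of_forall (fun y => hPg y))
      simpa using this
    linarith
  -- the sum of P
  have hsumP : ∑ v ∈ F, P (nn p q v • x) = (F.card : ℂ) * (∫ y, P y ∂μ) +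
      ∑ k ∈ c.support, c k *
        ∑ v ∈ F, ((fourier (k * (nn p q v : ℤ)) x : ℂ) - coef μ k) := by
    rw [hPint]
    simp_rw [hPx, fourier_nsmul]
    rw [Finset.sum_comm]
    rw [Finset.mul_sum, ← Finset.sum_add_distrib]
    apply Finset.sum_congr rfl
    intro k _
    rw [Finset.sum_sub_distrib, Finset.sum_const, nsmul_eq_mul, ← Finset.mul_sum]
    ring
  have hsumPn : ‖∑ v ∈ F, P (nn p q v • x)‖ ≤ 3 / 64 * F.card := by
    rw [hsumP]
    refine (norm_add_le _ _).trans ?_
    have h1 : ‖(F.card : ℂ) * (∫ y, P y ∂μ)‖ ≤ 2 / 64 * F.card := by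
      rw [norm_mul, Complex.norm_natCast, mul_comm]
      exact mul_le_mul_of_nonneg_right hPintn hN.le
    have h2 : ‖∑ k ∈ c.support, c k *
        ∑ v ∈ F, ((fourier (k * (nn p q v : ℤ)) x : ℂ) - coef μ k)‖ ≤ 1 / 64 * F.card := by
      refine (norm_sum_le _ _).trans ?_
      have h3 : ∑ k ∈ c.support, ‖c k *
          ∑ v ∈ F, ((fourier (k * (nn p q v : ℤ)) x : ℂ) - coef μ k)‖ ≤
          ∑ k ∈ c.support, ‖c k‖ * (τ * F.card) := by
        apply Finset.sum_le_sum
        intro k hk
        rw [norm_mul]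
        exact mul_le_mul_of_nonneg_left (hxk k hk) (norm_nonneg _)
      rw [← Finset.sum_mul] at h3
      refine h3.trans ?_
      have h4 : A * τ ≤ 1 / 64 := by
        rw [hτdef, mul_one_div, div_le_div_iff₀ (by positivity) (by norm_num)]
        linarith
      calc A * (τ * F.card) = A * τ * F.card := by ring
        _ ≤ 1 / 64 * F.card := mul_le_mul_of_nonneg_right h4 hN.le
    linarith
  -- the sum of g
  have hsumg : ∑ v ∈ F, g (nn p q v • x) ≤ 4 / 64 * F.card := by
    have h1 : ((∑ v ∈ F, g (nn p q v • x) : ℝ) : ℂ) =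
        ∑ v ∈ F, P (nn p q v • x) +
          ∑ v ∈ F, ((g (nn p q v • x) : ℂ) - P (nn p q v • x)) := by
      rw [Finset.sum_sub_distrib]
      push_cast
      ring
    have h2 : ‖∑ v ∈ F, ((g (nn p q v • x) : ℂ) - P (nn p q v • x))‖ ≤ 1 / 64 * F.card := by
      refine (norm_sum_le _ _).trans ?_
      have h3 : ∑ v ∈ F, ‖(g (nn p q v • x) : ℂ) - P (nn p q v • x)‖ ≤
          ∑ v ∈ F, (1 / 64 : ℝ) := Finset.sum_le_sum (fun v _ => hPg _)
      rw [Finset.sum_const, nsmul_eq_mul] at h3
      linarith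
    have h4 : ‖((∑ v ∈ F, g (nn p q v • x) : ℝ) : ℂ)‖ ≤ 4 / 64 * F.card := by
      rw [h1]
      refine (norm_add_le _ _).trans ?_
      linarith
    rw [Complex.norm_real] at h4
    exact (le_abs_self _).trans h4
  -- conclusion
  have hcount : (outCount p q Z (2 * r) F x : ℝ) ≤ ∑ v ∈ F, g (nn p q v • x) := by
    unfold outCount
    have h1 : ((F.filter (fun v => nn p q v • x ∉ nbh Z (2 * r))).card : ℝ) =
        ∑ v ∈ F.filter (fun v => nn p q v • x ∉ nbh Z (2 * r)), g (nn p q v • x) := by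
      rw [Finset.sum_congr rfl (fun v hv => hgout _ (Finset.mem_filter.1 hv).2)]
      simp
    refine le_trans (le_of_eq ?_) (le_trans (le_of_eq h1) ?_)
    · congr
    · exact Finset.sum_le_sum_of_subset_of_nonneg (Finset.filter_subset _ _)
        (fun v _ _ => hg0 _)
  linarith

end Pool.Agent.H.MP_96e181_an.Gen
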