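import Mathlib
import Pool.Agent.H.MP_96e181_an.blk.Defs
import Pool.Agent.H.MP_96e181_an.gen.Defs
import Pool.Agent.H.MP_96e181_an.gen.Defs2
import Pool.Agent.H.MP_96e181_an.gen.RowGeom
import Pool.Agent.H.MP_96e181_an.gen.RowConc
import Pool.Agent.H.MP_96e181_an.gen.RowStat
import Pool.Agent.H.MP_96e181_an.gen.Master
import Pool.Agent.H.MP_96e181_an.gen.NormalForm
import Pool.Agent.H.MP_96e181_an.gen.StatCore
import Pool.Agent.H.MP_96e181_an.gen.Cover
import Pool.Agent.H.MP_96e181_an.gen.ErgConv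

set_option autoImplicit false

open MeasureTheory Filter Topology

namespace Pool.Agent.H.MP_96e181_an.Gen

open Pool.Agent.H.MP_96e181_an.Blk

/-- The large deviation set of the averages in direction `(-b, a)`. -/
def Dev (p q : ℕ) (μ : Measure UnitAddCircle) (a b : ℕ) (k : ℤ) (ε : ℝ) (M : ℕ) :
    Set UnitAddCircle :=
  {x | ε * M < ‖∑ j ∈ Finset.range M,
    ((fourier (k * ((p ^ (b * (M - 1 - j)) * q ^ (a * j) : ℕ) : ℤ)) x : ℂ) - coef μ k)‖}

/-- The block heights. -/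
def sig (n : ℕ) : ℕ := n * Nat.sqrt (Nat.sqrt n)

theorem sig_pow {n : ℕ} (hn : 2 ^ 20 ≤ n) : (2 * sig n) ^ 10 ≤ n ^ 13 := by
  set f := Nat.sqrt (Nat.sqrt n) with hf
  have h1 : f ^ 4 ≤ n := by
    have h2 : f * f ≤ Nat.sqrt n := Nat.sqrt_le _
    have h3 : Nat.sqrt n * Nat.sqrt n ≤ n := Nat.sqrt_le _
    calc f ^ 4 = (f * f) * (f * f) := by ring
      _ ≤ Nat.sqrt n * Nat.sqrt n := Nat.mul_le_mul h2 h2
      _ ≤ n := h3
  have h2 : 32 ≤ f := by
    rw [hf, Nat.le_sqrt, Nat.le_sqrt]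
    exact le_trans (by norm_num) hn
  have h3 : 1024 * f ^ 10 ≤ n ^ 3 := by
    calc 1024 * f ^ 10 ≤ f ^ 2 * f ^ 10 := by
          apply Nat.mul_le_mul_right
          calc 1024 = 32 ^ 2 := by norm_num
            _ ≤ f ^ 2 := Nat.pow_le_pow_left h2 2
      _ = (f ^ 4) ^ 3 := by ring
      _ ≤ n ^ 3 := Nat.pow_le_pow_left h1 3
  calc (2 * sig n) ^ 10 = n ^ 10 * (1024 * f ^ 10) := by rw [sig]; ring
    _ ≤ n ^ 10 * n ^ 3 := Nat.mul_le_mul_left _ h3
    _ = n ^ 13 := by ring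

theorem sig_low {n : ℕ} (hn : 16 ≤ n) : (n : ℝ) ^ (5 / 4 : ℝ) ≤ 2 * sig n := by
  set f := Nat.sqrt (Nat.sqrt n) with hf
  have h1 : n < (f + 1) ^ 4 := by
    have h2 : Nat.sqrt n < (f + 1) * (f + 1) := Nat.lt_succ_sqrt _
    have h3 : n < (Nat.sqrt n + 1) * (Nat.sqrt n + 1) := Nat.lt_succ_sqrt _
    calc n < (Nat.sqrt n + 1) * (Nat.sqrt n + 1) := h3
      _ ≤ ((f + 1) * (f + 1)) * ((f + 1) * (f + 1)) := Nat.mul_le_mul h2 h2
      _ = (f + 1) ^ 4 := by ring
  have h2 : 2 ≤ f := by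
    rw [hf, Nat.le_sqrt, Nat.le_sqrt]
    exact le_trans (by norm_num) hn
  have hn0 : (0:ℝ) < n := by
    have : 0 < n := by omega
    exact_mod_cast this
  have h3 : (n : ℝ) ^ (1 / 4 : ℝ) ≤ f + 1 := by
    have h4 : (n : ℝ) ≤ ((f : ℝ) + 1) ^ 4 := by exact_mod_cast h1.le
    calc (n : ℝ) ^ (1 / 4 : ℝ) ≤ (((f : ℝ) + 1) ^ 4) ^ (1 / 4 : ℝ) := by
          apply Real.rpow_le_rpow hn0.le h4 (by norm_num)
      _ = f + 1 := by
          rw [← Real.rpow_natCast, ← Real.rpow_mul (by positivity)]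
          norm_num
  have h4 : (f : ℝ) + 1 ≤ 2 * f := by
    have : (2:ℝ) ≤ f := by exact_mod_cast h2
    linarith
  have h5 : (n : ℝ) ^ (5 / 4 : ℝ) = n * (n : ℝ) ^ (1 / 4 : ℝ) := by
    rw [show (5 / 4 : ℝ) = 1 + 1 / 4 by norm_num, Real.rpow_add hn0, Real.rpow_one]
  rw [h5, sig]
  push_cast
  nlinarith

theorem sig_le (n : ℕ) : sig n ≤ n ^ 2 := by
  rw [sig, pow_two]
  exact Nat.mul_le_mul_left _ ((Nat.sqrt_le_self _).trans (Nat.sqrt_le_self _))

theorem sig_tendsto (c : ℕ) : ∃ n₁, ∀ n, n₁ ≤ n → c ≤ sig n := by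
  refine ⟨c + 1, fun n hn => ?_⟩
  rw [sig]
  have h : 1 ≤ Nat.sqrt (Nat.sqrt n) := by
    rw [Nat.le_sqrt, Nat.le_sqrt]; omega
  calc c ≤ n * 1 := by omega
    _ ≤ _ := Nat.mul_le_mul_left _ h

theorem sig_small (c : ℕ) : ∃ n₁, ∀ n, n₁ ≤ n → c * sig n ≤ 2 ^ n := by
  have h1 : Tendsto (fun t : ℕ => (t : ℝ) ^ 2 / (2:ℝ) ^ t) atTop (𝓝 0) :=
    tendsto_pow_const_div_const_pow_of_one_lt 2 (by norm_num)
  have h2 : ∀ᶠ t : ℕ in atTop, (t : ℝ) ^ 2 / (2:ℝ) ^ t < 1 / ((c : ℝ) + 1) :=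
    h1.eventually (gt_mem_nhds (by positivity))
  rw [eventually_atTop] at h2
  obtain ⟨n₁, hn₁⟩ := h2
  refine ⟨n₁, fun n hn => ?_⟩
  have h3 := hn₁ n hn
  rw [div_lt_div_iff₀ (by positivity) (by positivity), one_mul] at h3
  have h4 : n ^ 2 * (c + 1) < 2 ^ n := by exact_mod_cast h3
  calc c * sig n ≤ c * n ^ 2 := Nat.mul_le_mul_left _ (sig_le n)
    _ ≤ n ^ 2 * (c + 1) := by nlinarith
    _ ≤ 2 ^ n := h4.le

theorem sum_dyadic {f : ℕ → ℝ} (n : ℕ) :
    ∑ t ∈ Finset.range n, ∑ M ∈ Finset.Ico (2 ^ t) (2 ^ (t + 1)), f M =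
      ∑ M ∈ Finset.Ico 1 (2 ^ n), f M := by
  induction n with
  | zero => simp
  | succ n ih =>
    rw [Finset.sum_range_succ, ih, Finset.sum_Ico_consecutive]
    · exact Nat.one_le_two_pow
    · exact Nat.pow_le_pow_right (by norm_num) (Nat.le_succ n)

/-- Dyadic selection. -/
theorem dyadic_select {P : ℕ → ℝ} (hP : ∀ M, 0 ≤ P M)
    (hsum : Summable (fun M : ℕ => P M / (Real.log M) ^ (5 / 4 : ℝ))) :
    ∃ MM : ℕ → ℕ, (∀ n, 2 ^ n ≤ MM n ∧ MM n < 2 ^ (n + 1)) ∧
      Summable (fun n => (2:ℝ) ^ n / sig n * P (MM n)) := by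
  have hsel : ∀ n, ∃ M, (2 ^ n ≤ M ∧ M < 2 ^ (n + 1)) ∧
      (2:ℝ) ^ n * P M ≤ ∑ M ∈ Finset.Ico (2 ^ n) (2 ^ (n + 1)), P M := by
    intro n
    have hne : (Finset.Ico (2 ^ n) (2 ^ (n + 1))).Nonempty := by
      rw [Finset.nonempty_Ico]
      exact Nat.pow_lt_pow_right (by norm_num) (Nat.lt_succ_self n)
    obtain ⟨M, hM, hmin⟩ := Finset.exists_min_image _ P hne
    refine ⟨M, Finset.mem_Ico.1 hM, ?_⟩
    have h1 := Finset.card_nsmul_le_sum _ _ _ hmin
    rw [Nat.card_Ico, nsmul_eq_mul] at h1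
    have h2 : 2 ^ (n + 1) - 2 ^ n = 2 ^ n := by rw [pow_succ]; omega
    rw [h2] at h1
    push_cast at h1
    exact h1
  choose MM hMM1 hMM2 using hsel
  refine ⟨MM, hMM1, ?_⟩
  set f : ℕ → ℝ := fun M => P M / (Real.log M) ^ (5 / 4 : ℝ) with hf
  have hf0 : ∀ M, 0 ≤ f M := by
    intro M
    have : 0 ≤ Real.log M := Real.log_natCast_nonneg M
    simp only [hf]
    have := hP M
    positivity
  have hblock : Summable (fun n => 5 * ∑ M ∈ Finset.Ico (2 ^ n) (2 ^ (n + 1)), f M) := by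
    refine Summable.mul_left _ ?_
    refine summable_of_sum_range_le (c := ∑' M, f M) (fun n => Finset.sum_nonneg
      fun M _ => hf0 M) ?_
    intro n
    rw [sum_dyadic]
    exact hsum.sum_le_tsum _ (fun M _ => hf0 M)
  refine Summable.of_norm_bounded_eventually_nat hblock ?_
  filter_upwards [eventually_ge_atTop 16] with n hn
  have hn0 : (0:ℝ) < n := by
    have : 0 < n := by omega
    exact_mod_cast this
  have hs := sig_low hn
  have hnp : (0:ℝ) < (n : ℝ) ^ (5 / 4 : ℝ) := by positivity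
  have hs0 : (0:ℝ) < sig n := by linarith
  have hP0 := hP (MM n)
  rw [Real.norm_of_nonneg (by positivity)]
  calc (2:ℝ) ^ n / sig n * P (MM n) = (2 ^ n * P (MM n)) * (1 / sig n) := by ring
    _ ≤ (∑ M ∈ Finset.Ico (2 ^ n) (2 ^ (n + 1)), P M) * (1 / sig n) := by
        have := hMM2 n
        gcongr
    _ = ∑ M ∈ Finset.Ico (2 ^ n) (2 ^ (n + 1)), P M * (1 / sig n) := by rw [Finset.sum_mul]
    _ ≤ ∑ M ∈ Finset.Ico (2 ^ n) (2 ^ (n + 1)), 5 * f M := by
        refine Finset.sum_le_sum fun M hM => ?_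
        rw [Finset.mem_Ico] at hM
        have hM1 : 1 < M := by
          have : 2 ^ 16 ≤ 2 ^ n := Nat.pow_le_pow_right (by norm_num) hn
          omega
        have hMr : (1:ℝ) < M := by exact_mod_cast hM1
        have hlog : 0 < Real.log M := Real.log_pos hMr
        have hlog2 : Real.log M ≤ 2 * n := by
          have h1 : (M : ℝ) ≤ 2 ^ (n + 1) := by exact_mod_cast hM.2.le
          have h2 : Real.log M ≤ Real.log (2 ^ (n + 1)) := Real.log_le_log (by linarith) h1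
          rw [Real.log_pow] at h2
          have h3 : Real.log 2 < 1 := by
            have := Real.log_two_lt_d9; linarith
          have h4 : 0 < Real.log 2 := Real.log_pos (by norm_num)
          have h5 : (((n + 1 : ℕ) : ℝ)) ≤ 2 * n := by
            push_cast
            have : (1:ℝ) ≤ n := by exact_mod_cast (by omega : 1 ≤ n)
            linarith
          have h6 : (0:ℝ) ≤ ((n + 1 : ℕ) : ℝ) := Nat.cast_nonneg _
          nlinarith
        have h6 : (Real.log M) ^ (5 / 4 : ℝ) ≤ 5 * sig n := by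
          calc (Real.log M) ^ (5 / 4 : ℝ) ≤ (2 * n) ^ (5 / 4 : ℝ) := by
                apply Real.rpow_le_rpow hlog.le hlog2 (by norm_num)
            _ = 2 ^ (5 / 4 : ℝ) * (n : ℝ) ^ (5 / 4 : ℝ) :=
                Real.mul_rpow (by norm_num) hn0.le
            _ ≤ (5 / 2) * (n : ℝ) ^ (5 / 4 : ℝ) := by
                have h7 : (2:ℝ) ^ (5 / 4 : ℝ) ≤ 5 / 2 := by
                  have h8 : ((2:ℝ) ^ (5 / 4 : ℝ)) ^ 4 ≤ (5 / 2) ^ 4 := by
                    rw [← Real.rpow_natCast, ← Real.rpow_mul (by norm_num)]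
                    norm_num
                  exact le_of_pow_le_pow_left₀ (by norm_num) (by norm_num) h8
                gcongr
            _ ≤ (5 / 2) * (2 * sig n) := by gcongr
            _ = 5 * sig n := by ring
        have hPM := hP M
        simp only [hf]
        rw [mul_one_div, mul_div_assoc', div_le_div_iff₀ hs0 (by positivity)]
        nlinarith
    _ = 5 * ∑ M ∈ Finset.Ico (2 ^ n) (2 ^ (n + 1)), f M := by rw [Finset.mul_sum]

theorem exists_small {P : ℕ → ℝ}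
    (hsum : Summable (fun M : ℕ => P M / (Real.log M) ^ (5 / 4 : ℝ))) {δ : ℝ} (hδ : 0 < δ) :
    ∃ M, 1 ≤ M ∧ P M ≤ δ := by
  by_contra hcon
  push Not at hcon
  have hns : ¬ Summable (fun M : ℕ => (δ / 2) * (1 / (M : ℝ))) := by
    intro h
    exact Real.not_summable_one_div_natCast ((summable_mul_left_iff (by positivity)).1 h)
  apply hns
  refine Summable.of_norm_bounded_eventually_nat hsum ?_
  filter_upwards [eventually_ge_atTop 2] with M hM
  have hMr : (1:ℝ) < M := by exact_mod_cast (by omega : 1 < M)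
  have hM0 : (0:ℝ) < M := by linarith
  have hlog : 0 < Real.log M := Real.log_pos hMr
  have h1 : (Real.log M) ^ (5 / 4 : ℝ) ≤ 2 * M := by
    have h2 : Real.log M ≤ (M : ℝ) ^ (4 / 5 : ℝ) / (4 / 5) :=
      Real.log_le_rpow_div hM0.le (by norm_num)
    have h3 : (Real.log M) ^ (5 / 4 : ℝ) ≤ ((5 / 4) * (M : ℝ) ^ (4 / 5 : ℝ)) ^ (5 / 4 : ℝ) := by
      apply Real.rpow_le_rpow hlog.le _ (by norm_num)
      refine h2.trans (le_of_eq ?_)
      ring
    have h4 : ((5 / 4) * (M : ℝ) ^ (4 / 5 : ℝ)) ^ (5 / 4 : ℝ) = (5 / 4 : ℝ) ^ (5 / 4 : ℝ) * M := by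
      rw [Real.mul_rpow (by norm_num) (by positivity), ← Real.rpow_mul hM0.le]
      norm_num
    have h5 : (5 / 4 : ℝ) ^ (5 / 4 : ℝ) ≤ 2 := by
      have h8 : ((5 / 4 : ℝ) ^ (5 / 4 : ℝ)) ^ 4 ≤ 2 ^ 4 := by
        rw [← Real.rpow_natCast, ← Real.rpow_mul (by norm_num)]
        norm_num
      exact le_of_pow_le_pow_left₀ (by norm_num) (by norm_num) h8
    calc _ ≤ _ := h3
      _ = _ := h4
      _ ≤ 2 * M := by gcongr
  have h2 := hcon M (by omega)
  rw [Real.norm_of_nonneg (by positivity), ← mul_div_assoc, mul_one, div_le_div_iff₀ hM0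
    (by positivity)]
  have h6 : 0 < (Real.log M) ^ (5 / 4 : ℝ) := by positivity
  nlinarith

theorem norm_fourier' (k : ℤ) (x : UnitAddCircle) : ‖(fourier k x : ℂ)‖ = 1 := Circle.norm_coe _

theorem norm_coef_le (μ : Measure UnitAddCircle) [IsProbabilityMeasure μ] (k : ℤ) :
    ‖coef μ k‖ ≤ 1 := by
  unfold coef
  refine (norm_integral_le_integral_norm _).trans ?_
  simp only [norm_fourier']
  simp

/-- A small deviation probability gives a small variance. -/
theorem variance_of_dev {p q : ℕ} {μ : Measure UnitAddCircle} [IsProbabilityMeasure μ]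
    {a b : ℕ} (ha : 1 ≤ a) (k : ℤ) {ε : ℝ} {M : ℕ}
    (h : μ.real (Dev p q μ a b k ε M) ≤ ε ^ 2) :
    ∫ x : UnitAddCircle, ‖∑ v ∈ row a b M (0, 0),
      ((fourier (k * (nn p q v : ℤ)) x : ℂ) - coef μ k)‖ ^ 2 ∂μ ≤
        5 * ε ^ 2 * ((row a b M (0, 0)).card : ℝ) ^ 2 := by
  rw [card_row ha]
  have hsum : ∀ x : UnitAddCircle, ∑ v ∈ row a b M (0, 0),
      ((fourier (k * (nn p q v : ℤ)) x : ℂ) - coef μ k) =
      ∑ j ∈ Finset.range M,
        ((fourier (k * ((p ^ (b * (M - 1 - j)) * q ^ (a * j) : ℕ) : ℤ)) x : ℂ) - coef μ k) := by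
    intro x
    rw [row, Finset.sum_image]
    · simp [rpt, nn]
    · intro j _ j' _ hjj
      simp only [rpt, Prod.mk.injEq, add_zero] at hjj
      exact Nat.eq_of_mul_eq_mul_left ha hjj.2
  set G : UnitAddCircle → ℝ := fun x => ‖∑ j ∈ Finset.range M,
        ((fourier (k * ((p ^ (b * (M - 1 - j)) * q ^ (a * j) : ℕ) : ℤ)) x : ℂ) - coef μ k)‖
    with hG
  have hGc : Continuous G := by
    apply Continuous.norm
    apply continuous_finsetSum
    intro v _
    exact ((fourier _).continuous).sub continuous_const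
  have hG2 : ∀ x, G x ≤ 2 * M := by
    intro x
    refine (norm_sum_le _ _).trans ?_
    have : ∀ j ∈ Finset.range M, ‖(fourier (k * ((p ^ (b * (M - 1 - j)) * q ^ (a * j) : ℕ) : ℤ)) x
        : ℂ) - coef μ k‖ ≤ 2 := by
      intro j _
      refine (norm_sub_le _ _).trans ?_
      rw [norm_fourier']
      linarith [norm_coef_le μ k]
    refine (Finset.sum_le_card_nsmul _ _ _ this).trans ?_
    rw [Finset.card_range, nsmul_eq_mul]
    linarith
  have hD : MeasurableSet (Dev p q μ a b k ε M) := measurableSet_lt measurable_const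
    hGc.measurable
  have hpt : ∀ x, G x ^ 2 ≤ (ε * M) ^ 2 +
      (Dev p q μ a b k ε M).indicator (fun _ => (2 * (M:ℝ)) ^ 2) x := by
    intro x
    have hG0 : 0 ≤ G x := norm_nonneg _
    by_cases hx : x ∈ Dev p q μ a b k ε M
    · rw [Set.indicator_of_mem hx]
      have := pow_le_pow_left₀ hG0 (hG2 x) 2
      nlinarith [sq_nonneg (ε * M)]
    · rw [Set.indicator_of_notMem hx, add_zero]
      have : G x ≤ ε * M := not_lt.1 hx
      exact pow_le_pow_left₀ hG0 this 2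
  have hint : Integrable (fun x => (ε * M) ^ 2 +
      (Dev p q μ a b k ε M).indicator (fun _ => (2 * (M:ℝ)) ^ 2) x) μ :=
    (integrable_const _).add ((integrable_const _).indicator hD)
  have h1 : ∫ x, G x ^ 2 ∂μ ≤ ∫ x, ((ε * M) ^ 2 +
      (Dev p q μ a b k ε M).indicator (fun _ => (2 * (M:ℝ)) ^ 2) x) ∂μ := by
    apply integral_mono _ hint hpt
    have h1 : Continuous (fun x => G x ^ 2) := hGc.pow 2
    exact h1.integrable_of_hasCompactSupport (HasCompactSupport.of_compactSpace _)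
  rw [integral_add (integrable_const _) ((integrable_const _).indicator hD),
    integral_indicator hD, setIntegral_const, integral_const] at h1
  simp only [smul_eq_mul, probReal_univ, one_mul] at h1
  simp only [hsum]
  refine h1.trans ?_
  have hM0 : (0:ℝ) ≤ M := Nat.cast_nonneg _
  nlinarith [sq_nonneg (M:ℝ)]

theorem final (HK : KorobovBound) {p q : ℕ} (hp : 2 ≤ p) (hq : 2 ≤ q)
    (h : Irrational (Real.log (p : ℝ) / Real.log (q : ℝ)))
    {μ : Measure UnitAddCircle} [IsProbabilityMeasure μ] [NullSingletonClass μ]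
    (hμp : MeasurePreserving (fun x : UnitAddCircle => p • x) μ μ)
    (hμq : MeasurePreserving (fun x : UnitAddCircle => q • x) μ μ)
    (H : ∀ l : ℕ, l.Prime → l ∣ p → ∃ a b : ℕ, 1 ≤ a ∧
      a * q.factorization l = b * p.factorization l ∧ ∀ (k : ℤ) (ε : ℝ), 0 < ε →
      Summable (fun M : ℕ => μ.real (Dev p q μ a b k ε M) / (Real.log M) ^ (5 / 4 : ℝ))) :
    μ = (volume : Measure UnitAddCircle) := by
  classical
  by_contra hne
  -- ergodicity
  have herg := ergodic_of_conv (p := p) (q := q) hμp hμq (by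
    intro k ε hε
    obtain ⟨l, hl, hlp⟩ := Nat.exists_prime_and_dvd (show p ≠ 1 by omega)
    obtain ⟨a, b, ha, -, H'⟩ := H l hl hlp
    have hε' : 0 < Real.sqrt (ε / 5) := Real.sqrt_pos.2 (by positivity)
    have hsq : Real.sqrt (ε / 5) ^ 2 = ε / 5 := Real.sq_sqrt (by positivity)
    obtain ⟨M, hM1, hM2⟩ := exists_small
      (H' k (Real.sqrt (ε / 5)) hε') (δ := Real.sqrt (ε / 5) ^ 2) (by positivity)
    refine ⟨row a b M (0, 0), ?_, ?_⟩
    · rw [← Finset.card_pos, card_row ha]; omega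
    · refine (variance_of_dev ha k hM2).trans (le_of_eq ?_)
      rw [hsq]; ring)
  obtain ⟨N⟩ := exists_nf hp hq h
  -- the multipliers
  have hmult : ∀ i : Fin N.J, ∃ g : ℕ, 1 ≤ g ∧ ∀ (k : ℤ) (ε : ℝ), 0 < ε →
      Summable (fun M : ℕ =>
        μ.real (Dev p q μ (g * N.A i) (g * N.B i) k ε M) / (Real.log M) ^ (5 / 4 : ℝ)) := by
    intro i
    obtain ⟨l, g₀, hl, hlp, hg₀, hgA, hgB⟩ := nf_prime hp hq N i
    obtain ⟨a, b, ha, hab, H'⟩ := H l hl hlp
    rw [hgA, hgB] at hab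
    have h1 : a * N.B i = b * N.A i := by
      apply Nat.eq_of_mul_eq_mul_left hg₀
      calc g₀ * (a * N.B i) = a * (g₀ * N.B i) := by ring
        _ = b * (g₀ * N.A i) := hab
        _ = g₀ * (b * N.A i) := by ring
    have h2 : N.A i ∣ a := by
      apply (N.hAB i).dvd_of_dvd_mul_right
      exact ⟨b, by rw [h1, mul_comm]⟩
    obtain ⟨g, hg⟩ := h2
    have h3 : b = g * N.B i := by
      apply Nat.eq_of_mul_eq_mul_right (N.hA i)
      rw [← h1, hg]; ring
    have h4 : a = g * N.A i := by rw [hg, mul_comm]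
    refine ⟨g, ?_, ?_⟩
    · rcases Nat.eq_zero_or_pos g with rfl | hg'
      · rw [zero_mul] at h4; omega
      · exact hg'
    · rw [← h3, ← h4]; exact H'
  choose g hg hgH using hmult
  obtain ⟨Z, r, hr, hZr, hZ⟩ := small_cover hp hq h hμp hμq herg hne
    (ε := 1 / 100) (by norm_num)
  obtain ⟨S, ε, hε, hS⟩ := stat_core (p := p) (q := q) Z hr hZ
  obtain ⟨y₁, M₁, hconc⟩ := row_conc HK hp hq N g hg (ρ := 5 * r) (by positivity)
  -- the deviation probability
  set P : ℕ → ℝ := fun M => ∑ i : Fin N.J, ∑ k ∈ S,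
    μ.real (Dev p q μ (g i * N.A i) (g i * N.B i) k ε M) with hPdef
  have hP0 : ∀ M, 0 ≤ P M := fun M =>
    Finset.sum_nonneg fun i _ => Finset.sum_nonneg fun k _ => measureReal_nonneg
  have hPsum : Summable (fun M : ℕ => P M / (Real.log M) ^ (5 / 4 : ℝ)) := by
    have h1 : (fun M : ℕ => P M / (Real.log M) ^ (5 / 4 : ℝ)) = fun M : ℕ =>
        ∑ i : Fin N.J, ∑ k ∈ S, μ.real (Dev p q μ (g i * N.A i) (g i * N.B i) k ε M) /
          (Real.log M) ^ (5 / 4 : ℝ) := by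
      funext M
      simp only [hPdef]
      rw [Finset.sum_div]
      refine Finset.sum_congr rfl fun i _ => ?_
      rw [Finset.sum_div]
    rw [h1]
    refine summable_sum fun i _ => summable_sum fun k _ => ?_
    exact hgH i k ε hε
  obtain ⟨MM, hMM, hMMsum⟩ := dyadic_select hP0 hPsum
  -- the shift
  obtain ⟨e, he1, he⟩ : ∃ e : ℕ, 1 ≤ e ∧ ∀ i, g i * 2 ≤ 2 ^ e := by
    refine ⟨1 + ∑ i, g i, by omega, fun i => ?_⟩
    have h1 : g i ≤ ∑ i, g i := Finset.single_le_sum (fun _ _ => Nat.zero_le _) (Finset.mem_univ i)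
    calc g i * 2 ≤ 2 ^ (g i) * 2 := Nat.mul_le_mul_right _ Nat.lt_two_pow_self.le
      _ = 2 ^ (g i + 1) := by rw [pow_succ]
      _ ≤ 2 ^ (1 + ∑ i, g i) := Nat.pow_le_pow_right (by norm_num) (by omega)
  set i₀ : ℕ := y₁ + 1 with hi₀
  obtain ⟨n₁, hn₁⟩ := sig_tendsto i₀
  set t₀ : ℕ := e + 2 ^ 20 + n₁ + M₁ with ht₀
  set s : ℕ → ℕ := fun t => sig (t - e) with hs
  set AA : ℕ := ∏ j, N.A j with hAA
  have hA1 : 1 ≤ AA := Nat.succ_le_of_lt (Finset.prod_pos
    (fun j _ => Nat.lt_of_lt_of_le Nat.zero_lt_one (N.hA j)))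
  have hAle : ∀ i, N.A i ≤ AA := fun i =>
    Nat.le_of_dvd hA1 (Finset.dvd_prod_of_mem N.A (Finset.mem_univ i))
  have hst : ∀ t, t₀ ≤ t → i₀ ≤ s t := fun t ht => hn₁ _ (by omega)
  -- the rows
  let Q : ℕ → Fin N.J → ℕ → ℕ → ℕ × ℕ → Prop := fun t i m c w =>
    ∀ j < MM (t - e), rpt (g i * N.A i) (g i * N.B i) (MM (t - e)) w j ∈
      strip N i (s t) (AA * 2 ^ t) m c ∧
      N.A i * (rpt (g i * N.A i) (g i * N.B i) (MM (t - e)) w j).1 +
        N.B i * (rpt (g i * N.A i) (g i * N.B i) (MM (t - e)) w j).2 + i₀ = m * s t + s t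
  let F : ℕ → Fin N.J → ℕ → ℕ → Finset (ℕ × ℕ) := fun t i m c =>
    if hw : ∃ w, Q t i m c w then row (g i * N.A i) (g i * N.B i) (MM (t - e)) hw.choose else ∅
  have hMMt : ∀ t, t₀ ≤ t → ∀ i, g i * N.A i * MM (t - e) ≤ AA * 2 ^ t := by
    intro t ht i
    have h1 : MM (t - e) ≤ 2 ^ (t - e + 1) := (hMM (t - e)).2.le
    have h2 : 2 ^ e * 2 ^ (t - e) = 2 ^ t := by rw [← pow_add]; congr 1; omega
    calc g i * N.A i * MM (t - e) ≤ g i * N.A i * 2 ^ (t - e + 1) := Nat.mul_le_mul_left _ h1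
      _ = N.A i * ((g i * 2) * 2 ^ (t - e)) := by rw [pow_succ]; ring
      _ ≤ AA * (2 ^ e * 2 ^ (t - e)) :=
          Nat.mul_le_mul (hAle i) (Nat.mul_le_mul_right _ (he i))
      _ = AA * 2 ^ t := by rw [h2]
  have hMM1 : ∀ t, 1 ≤ MM (t - e) := fun t => Nat.one_le_two_pow.trans (hMM (t - e)).1
  have hexw : ∀ t, t₀ ≤ t → ∀ i m c, N.B i * ((c + 1) * (AA * 2 ^ t)) ≤ m * s t →
      ∃ w, Q t i m c w := by
    intro t ht i m c hfull
    exact exists_row N i (hg i) (by omega) (hst t ht) (hMM1 t) (hMMt t ht i) hfull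
  have hgA1 : ∀ i, 1 ≤ g i * N.A i := fun i => Nat.mul_pos (hg i) (N.hA i)
  have hFeq : ∀ t i m c (hw : ∃ w, Q t i m c w),
      F t i m c = row (g i * N.A i) (g i * N.B i) (MM (t - e)) hw.choose := by
    intro t i m c hw
    simp only [F]
    rw [dif_pos hw]
  refine master hp hq N hμp Z hr s t₀ (fun t ht => by have := hst t ht; omega) ?_ F ?_
    (fun t => P (MM (t - e))) (fun t => hP0 _) ?_ ?_ ?_
  · -- s t is small
    intro c
    obtain ⟨n₂, hn₂⟩ := sig_small c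
    refine ⟨n₂ + e, fun t ht => ?_⟩
    refine (hn₂ (t - e) (by omega)).trans (Nat.pow_le_pow_right (by norm_num) (Nat.sub_le _ _))
  · -- F is contained in the strip
    intro t i m c
    by_cases hw : ∃ w, Q t i m c w
    · rw [hFeq t i m c hw]
      intro v hv
      rw [row, Finset.mem_image] at hv
      obtain ⟨j, hj, rfl⟩ := hv
      exact (hw.choose_spec j (Finset.mem_range.1 hj)).1
    · simp only [F]
      rw [dif_neg hw]
      exact Finset.empty_subset _
  · -- summability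
    rw [← summable_nat_add_iff e]
    have h1 : (fun n => (2:ℝ) ^ (n + e) / s (n + e) * P (MM (n + e - e))) =
        fun n => 2 ^ e * ((2:ℝ) ^ n / sig n * P (MM n)) := by
      funext n
      simp only [hs]
      rw [Nat.add_sub_cancel, pow_add]
      ring
    rw [h1]
    exact hMMsum.mul_left _
  · -- the bad sets
    intro t ht i m c hfull
    have hw := hexw t ht i m c hfull
    rw [hFeq t i m c hw]
    have hcard := card_row (b := g i * N.B i) (M := MM (t - e)) (hgA1 i) hw.choose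
    have hne' : (row (g i * N.A i) (g i * N.B i) (MM (t - e)) hw.choose).Nonempty := by
      rw [← Finset.card_pos, hcard]; exact hMM1 t
    refine ⟨hne', ?_⟩
    obtain ⟨E, hE1, hE2, hE3⟩ := row_stat (p := p) (q := q) hμp hμq (b := g i * N.B i)
      (M := MM (t - e)) (hgA1 i) hw.choose S ε
    refine ⟨E, hE1, hE2.trans ?_, fun x hx => hS _ hne' x (hE3 x hx)⟩
    simp only [hPdef]
    exact Finset.single_le_sum (f := fun i => ∑ k ∈ S,
      μ.real (Dev p q μ (g i * N.A i) (g i * N.B i) k ε (MM (t - e))))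
      (fun i _ => Finset.sum_nonneg fun k _ => measureReal_nonneg) (Finset.mem_univ i)
  · -- non-concentration
    intro t ht i m c o T ξ ho hE z
    have hw := hexw t ht i m c hE.full
    rw [hFeq t i m c hw]
    have hcard := card_row (b := g i * N.B i) (M := MM (t - e)) (hgA1 i) hw.choose
    have hte : 2 ^ 20 ≤ t - e := by omega
    have hlog : Nat.log 2 (MM (t - e)) = t - e := by
      rw [Nat.log_eq_iff (Or.inr ⟨by norm_num, by have := hMM1 t; omega⟩)]
      exact hMM (t - e)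
    have h1 := hconc i (s t) (AA * 2 ^ t) m c T i₀ (MM (t - e)) o ξ z hw.choose ?_ (by omega) ?_
      ho hE hw.choose_spec
    · rw [hcard]
      have hM0 : (0:ℝ) < MM (t - e) := by exact_mod_cast hMM1 t
      calc 2 * (Z.card : ℝ) ^ 2 * _ ≤ 2 * (Z.card : ℝ) ^ 2 * (10 * (5 * r) * MM (t - e)) := by
            gcongr
        _ = (100 * ((Z.card : ℝ) ^ 2 * r)) * MM (t - e) := by ring
        _ ≤ 1 * MM (t - e) := by
            gcongr
            linarith
        _ = MM (t - e) := one_mul _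
    · have h2 : t - e < 2 ^ (t - e) := Nat.lt_two_pow_self
      have h3 := (hMM (t - e)).1
      omega
    · rw [hlog]
      calc (s t + i₀) ^ 10 ≤ (2 * sig (t - e)) ^ 10 := by
            apply Nat.pow_le_pow_left
            have := hst t ht
            simp only [hs] at this ⊢
            omega
        _ ≤ (t - e) ^ 13 := sig_pow hte

end Pool.Agent.H.MP_96e181_an.Gen
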