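import Mathlib
import Pool.Agent.H.MP_96e181_an.blk.Defs
import Pool.Agent.H.MP_96e181_an.blk.Leb
import Pool.Agent.H.MP_96e181_an.gen.Final

set_option autoImplicit false

open MeasureTheory Filter Topology

namespace Pool.Agent.H.MP_96e181_an.Gen

open Pool.Agent.H.MP_96e181_an.Blk

theorem summable_log_aux :
    Summable (fun M : ℕ => 1 / ((M : ℝ) * (Real.log M) ^ (5 / 4 : ℝ))) := by
  rw [← summable_condensed_iff_of_eventually_nonneg (Eventually.of_forall fun M => by
    have := Real.log_natCast_nonneg M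
    positivity)]
  · have h1 : Summable (fun k : ℕ => (1 / (Real.log 2) ^ (5 / 4 : ℝ)) *
        (1 / (k : ℝ) ^ (5 / 4 : ℝ))) :=
      (Real.summable_one_div_nat_rpow.2 (by norm_num)).mul_left _
    refine h1.congr fun k => ?_
    rw [Nat.cast_pow, Nat.cast_ofNat, Real.log_pow, Real.mul_rpow (Nat.cast_nonneg _)
      (Real.log_nonneg (by norm_num))]
    have h2 : (0:ℝ) < 2 ^ k := by positivity
    have h3 : (0:ℝ) < (Real.log 2) ^ (5 / 4 : ℝ) := by
      have := Real.log_pos (by norm_num : (1:ℝ) < 2)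
      positivity
    rcases Nat.eq_zero_or_pos k with rfl | hk
    · simp [Real.zero_rpow]
    · have hk' : (0:ℝ) < (k : ℝ) ^ (5 / 4 : ℝ) := by
        have : (0:ℝ) < k := by exact_mod_cast hk
        positivity
      field_simp
  · filter_upwards [eventually_ge_atTop 2] with M hM
    have hM' : (2:ℝ) ≤ M := by exact_mod_cast hM
    have h1 : 0 < Real.log M := Real.log_pos (by linarith)
    have h2 : Real.log M ≤ Real.log ((M + 1 : ℕ) : ℝ) := by
      apply Real.log_le_log (by linarith)
      push_cast; linarith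
    have h3 : (Real.log M) ^ (5 / 4 : ℝ) ≤ (Real.log ((M + 1 : ℕ) : ℝ)) ^ (5 / 4 : ℝ) :=
      Real.rpow_le_rpow h1.le h2 (by norm_num)
    have h4 : (0:ℝ) < (Real.log M) ^ (5 / 4 : ℝ) := by positivity
    apply one_div_le_one_div_of_le (by positivity)
    push_cast at h3 ⊢
    gcongr
    linarith

/-- Orthogonality of characters. -/
theorem leb_orth {k : ℤ} (hk : k ≠ 0) {M : ℕ} {n : ℕ → ℕ}
    (hn : ∀ i ∈ Finset.range M, ∀ j ∈ Finset.range M, n i = n j → i = j) :
    ∫ x : UnitAddCircle, ‖∑ v ∈ Finset.range M, (fourier (k * (n v : ℤ)) x : ℂ)‖ ^ 2 = M := by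
  have hsq : ∀ x : UnitAddCircle,
      ((‖∑ v ∈ Finset.range M, (fourier (k * (n v : ℤ)) x : ℂ)‖ ^ 2 : ℝ) : ℂ) =
      ∑ v ∈ Finset.range M, ∑ w ∈ Finset.range M,
        (fourier (k * (n v : ℤ) - k * (n w : ℤ)) x : ℂ) := by
    intro x
    rw [Complex.ofReal_pow, ← Complex.mul_conj', map_sum, Finset.sum_mul_sum]
    refine Finset.sum_congr rfl fun v _ => Finset.sum_congr rfl fun w _ => ?_
    rw [sub_eq_add_neg, fourier_add, fourier_neg]
  have h1 : ((∫ x : UnitAddCircle,
      ‖∑ v ∈ Finset.range M, (fourier (k * (n v : ℤ)) x : ℂ)‖ ^ 2 : ℝ) : ℂ) = (M : ℂ) := by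
    rw [← integral_complex_ofReal]
    simp_rw [hsq]
    rw [integral_finsetSum _ fun v _ => integrable_finsetSum _ fun w _ => integrable_fourier _]
    have : ∀ v ∈ Finset.range M, ∫ x : UnitAddCircle, ∑ w ∈ Finset.range M,
        (fourier (k * (n v : ℤ) - k * (n w : ℤ)) x : ℂ) = 1 := by
      intro v hv
      rw [integral_finsetSum _ fun w _ => integrable_fourier _]
      rw [Finset.sum_eq_single v]
      · rw [sub_self]
        exact coef_zero (μ := volume)
      · intro w hw hwv
        apply integral_fourier_ne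
        intro h0
        have h2 : k * ((n v : ℤ) - n w) = 0 := by rw [mul_sub]; exact h0
        rcases mul_eq_zero.1 h2 with h3 | h3
        · exact hk h3
        · apply hwv
          have : n v = n w := by
            have := sub_eq_zero.1 h3
            exact_mod_cast this
          exact (hn v hv w hw this).symm
      · intro h
        exact absurd hv h
    rw [Finset.sum_congr rfl this]
    simp
  exact_mod_cast h1

theorem vol_dev {p q : ℕ} {a b : ℕ} (k : ℤ) {ε : ℝ} (hε : 0 < ε) (M : ℕ)
    (hn : ∀ i ∈ Finset.range M, ∀ j ∈ Finset.range M,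
      p ^ (b * (M - 1 - i)) * q ^ (a * i) = p ^ (b * (M - 1 - j)) * q ^ (a * j) → i = j) :
    (volume : Measure UnitAddCircle).real (Dev p q volume a b k ε M) ≤ 1 / (ε ^ 2 * M) := by
  rcases Nat.eq_zero_or_pos M with rfl | hM
  · simp [Dev]
  have hM' : (0:ℝ) < M := by exact_mod_cast hM
  by_cases hk : k = 0
  · subst hk
    have : Dev p q (volume : Measure UnitAddCircle) a b 0 ε M = ∅ := by
      rw [Set.eq_empty_iff_forall_notMem]
      intro x hx
      simp only [Dev, Set.mem_ofPred_eq, zero_mul, fourier_zero, coef_zero, sub_self,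
        Finset.sum_const_zero, norm_zero] at hx
      have : 0 < ε * M := by positivity
      linarith
    rw [this]
    simp only [measureReal_empty]
    positivity
  have hc : coef (volume : Measure UnitAddCircle) k = 0 := integral_fourier_ne hk
  have horth := leb_orth hk (n := fun j => p ^ (b * (M - 1 - j)) * q ^ (a * j)) hn
  set f : UnitAddCircle → ℝ := fun x => ‖∑ v ∈ Finset.range M,
    (fourier (k * ((p ^ (b * (M - 1 - v)) * q ^ (a * v) : ℕ) : ℤ)) x : ℂ)‖ ^ 2 with hf
  have hcont : Continuous f := by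
    refine (Continuous.norm ?_).pow 2
    exact continuous_finsetSum _ fun v _ => (fourier _).continuous
  have hint : Integrable f (volume : Measure UnitAddCircle) := by
    exact hcont.integrable_of_hasCompactSupport (HasCompactSupport.of_compactSpace f)
  have hmarkov := mul_meas_ge_le_integral_of_nonneg (μ := (volume : Measure UnitAddCircle))
    (f := f) (Eventually.of_forall fun x => by simp only [hf, Pi.zero_apply]; positivity)
    hint ((ε * M) ^ 2)
  have hsub : Dev p q (volume : Measure UnitAddCircle) a b k ε M ⊆ {x | (ε * M) ^ 2 ≤ f x} := by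
    intro x hx
    simp only [Dev, Set.mem_ofPred_eq, hc, sub_zero] at hx
    simp only [Set.mem_ofPred_eq, hf]
    exact pow_le_pow_left₀ (by positivity) hx.le 2
  have h1 : (volume : Measure UnitAddCircle).real (Dev p q volume a b k ε M) ≤
      (volume : Measure UnitAddCircle).real {x | (ε * M) ^ 2 ≤ f x} :=
    measureReal_mono hsub
  have h2 : (ε * M) ^ 2 * (volume : Measure UnitAddCircle).real {x | (ε * M) ^ 2 ≤ f x} ≤ M := by
    exact hmarkov.trans horth.le
  rw [le_div_iff₀ (by positivity)]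
  have h3 : (volume : Measure UnitAddCircle).real {x | (ε * M) ^ 2 ≤ f x} * (ε ^ 2 * M) ≤ 1 := by
    have h4 : M * ((volume : Measure UnitAddCircle).real {x | (ε * M) ^ 2 ≤ f x} * (ε ^ 2 * M))
        ≤ M * 1 := by
      calc _ = (ε * M) ^ 2 * (volume : Measure UnitAddCircle).real {x | (ε * M) ^ 2 ≤ f x} := by
            ring
        _ ≤ M := h2
        _ = M * 1 := (mul_one _).symm
    exact le_of_mul_le_mul_left h4 hM'
  exact (mul_le_mul_of_nonneg_right h1 (by positivity)).trans h3

/-- The multipliers of a row are distinct. -/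
theorem row_inj {p q : ℕ} (hp : 2 ≤ p) (hq : 2 ≤ q)
    (h : Irrational (Real.log (p : ℝ) / Real.log (q : ℝ))) {a b : ℕ} (ha : 1 ≤ a) {M : ℕ} :
    ∀ i ∈ Finset.range M, ∀ j ∈ Finset.range M,
      p ^ (b * (M - 1 - i)) * q ^ (a * i) = p ^ (b * (M - 1 - j)) * q ^ (a * j) → i = j := by
  have hlp : 0 < Real.log p := Real.log_pos (by exact_mod_cast (by omega : 1 < p))
  have hlq : 0 < Real.log q := Real.log_pos (by exact_mod_cast (by omega : 1 < q))
  have hp0 : (0:ℝ) < p := by exact_mod_cast (by omega : 0 < p)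
  have hq0 : (0:ℝ) < q := by exact_mod_cast (by omega : 0 < q)
  intro i hi j hj hij
  rw [Finset.mem_range] at hi hj
  have h1 : ((b * (M - 1 - i) : ℕ) : ℝ) * Real.log p + ((a * i : ℕ) : ℝ) * Real.log q =
      ((b * (M - 1 - j) : ℕ) : ℝ) * Real.log p + ((a * j : ℕ) : ℝ) * Real.log q := by
    have h2 : Real.log ((p ^ (b * (M - 1 - i)) * q ^ (a * i) : ℕ) : ℝ) =
        Real.log ((p ^ (b * (M - 1 - j)) * q ^ (a * j) : ℕ) : ℝ) := by rw [hij]
    rw [Nat.cast_mul, Nat.cast_mul, Nat.cast_pow, Nat.cast_pow, Nat.cast_pow, Nat.cast_pow,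
      Real.log_mul (by positivity) (by positivity), Real.log_mul (by positivity) (by positivity),
      Real.log_pow, Real.log_pow, Real.log_pow, Real.log_pow] at h2
    exact h2
  by_contra hne
  have hi' : ((M - 1 - i : ℕ) : ℝ) = (M : ℝ) - 1 - i := by
    rw [Nat.cast_sub (by omega), Nat.cast_sub (by omega)]; simp
  have hj' : ((M - 1 - j : ℕ) : ℝ) = (M : ℝ) - 1 - j := by
    rw [Nat.cast_sub (by omega), Nat.cast_sub (by omega)]; simp
  push_cast at h1
  rw [hi', hj'] at h1
  have h3 : ((i : ℝ) - j) * (a * Real.log q - b * Real.log p) = 0 := by linarith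
  have h4 : (i : ℝ) - j ≠ 0 := by
    rw [sub_ne_zero]
    exact_mod_cast hne
  have h5 : a * Real.log q = b * Real.log p := by
    have := (mul_eq_zero.1 h3).resolve_left h4
    linarith
  rcases Nat.eq_zero_or_pos b with rfl | hb
  · have ha' : (0:ℝ) < a := by exact_mod_cast ha
    have : 0 < a * Real.log q := by positivity
    rw [h5] at this
    simp at this
  · apply h
    refine ⟨(a : ℚ) / b, ?_⟩
    have hb' : (0:ℝ) < b := by exact_mod_cast hb
    push_cast
    rw [div_eq_div_iff hb'.ne' hlq.ne', h5, mul_comm]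

/-- Lebesgue measure satisfies the large deviation condition. -/
theorem vol_summable {p q : ℕ} (hp : 2 ≤ p) (hq : 2 ≤ q)
    (h : Irrational (Real.log (p : ℝ) / Real.log (q : ℝ))) {a b : ℕ} (ha : 1 ≤ a)
    (k : ℤ) {ε : ℝ} (hε : 0 < ε) :
    Summable (fun M : ℕ =>
        (volume : Measure UnitAddCircle).real (Dev p q volume a b k ε M) /
          (Real.log M) ^ (5 / 4 : ℝ)) := by
  refine Summable.of_nonneg_of_le (fun M => ?_) (fun M => ?_)
    (summable_log_aux.mul_left (1 / ε ^ 2))
  · have := Real.log_natCast_nonneg M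
    positivity
  · have hl := Real.log_natCast_nonneg M
    calc (volume : Measure UnitAddCircle).real (Dev p q volume a b k ε M) /
          (Real.log M) ^ (5 / 4 : ℝ)
        ≤ (1 / (ε ^ 2 * M)) / (Real.log M) ^ (5 / 4 : ℝ) := by
          gcongr
          exact vol_dev k hε M (row_inj hp hq h ha)
      _ = 1 / ε ^ 2 * (1 / ((M : ℝ) * (Real.log M) ^ (5 / 4 : ℝ))) := by
          rw [div_div, div_mul_div_comm, one_mul]
          ring

end Pool.Agent.H.MP_96e181_an.Gen
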