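import Mathlib
import Pool.Agent.H.MP_96e181_an.mix.Hyp
import Pool.Agent.H.MP_96e181_an.gen.VolDev

set_option autoImplicit false

open MeasureTheory Filter Topology

namespace Pool.Agent.H.MP_96e181_an.Gen

open Pool.Agent.H.MP_96e181_an.Blk
open scoped ComplexConjugate

/-- The correlation defect along the direction `(-b, a)`. -/
noncomputable def cdef (p q : ℕ) (μ : Measure UnitAddCircle) (a b : ℕ) (k : ℤ) (n : ℕ) : ℝ :=
  ‖Mix.mhat μ (k * ((q : ℤ) ^ (a * n) - (p : ℤ) ^ (b * n))) -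
    Mix.mhat μ k * conj (Mix.mhat μ k)‖

theorem cdef_nonneg (p q : ℕ) (μ : Measure UnitAddCircle) (a b : ℕ) (k : ℤ) (n : ℕ) :
    0 ≤ cdef p q μ a b k n := norm_nonneg _

theorem corr_row {p q : ℕ} {μ : Measure UnitAddCircle}
    (hμp : MeasurePreserving (fun x : UnitAddCircle => p • x) μ μ)
    (hμq : MeasurePreserving (fun x : UnitAddCircle => q • x) μ μ) {a b M : ℕ} (k : ℤ)
    {s t : ℕ} (hs : s < M) (hts : t ≤ s) :
    ‖Mix.mhat μ (k * ((p ^ (b * (M - 1 - s)) * q ^ (a * s) : ℕ) : ℤ) -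
      k * ((p ^ (b * (M - 1 - t)) * q ^ (a * t) : ℕ) : ℤ)) -
      Mix.mhat μ k * conj (Mix.mhat μ k)‖ = cdef p q μ a b k (s - t) := by
  obtain ⟨n, rfl⟩ := Nat.exists_eq_add_of_le hts
  have e0 : t + n - t = n := by omega
  have e1 : M - 1 - t = (M - 1 - (t + n)) + n := by omega
  have e : k * ((p ^ (b * (M - 1 - (t + n))) * q ^ (a * (t + n)) : ℕ) : ℤ) -
      k * ((p ^ (b * (M - 1 - t)) * q ^ (a * t) : ℕ) : ℤ) =
      (k * ((q : ℤ) ^ (a * n) - (p : ℤ) ^ (b * n))) *
        ((p ^ (b * (M - 1 - (t + n))) * q ^ (a * t) : ℕ) : ℤ) := by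
    rw [e1]
    push_cast
    rw [mul_add, mul_add, pow_add, pow_add]
    ring
  rw [e0, e, Mix.mhat_mul (mp_mul (mp_pow hμp _) (mp_pow hμq _)), cdef]

theorem corr_row' {p q : ℕ} {μ : Measure UnitAddCircle}
    (hμp : MeasurePreserving (fun x : UnitAddCircle => p • x) μ μ)
    (hμq : MeasurePreserving (fun x : UnitAddCircle => q • x) μ μ) {a b M : ℕ} (k : ℤ)
    {s t : ℕ} (ht : t < M) (hts : s ≤ t) :
    ‖Mix.mhat μ (k * ((p ^ (b * (M - 1 - s)) * q ^ (a * s) : ℕ) : ℤ) -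
      k * ((p ^ (b * (M - 1 - t)) * q ^ (a * t) : ℕ) : ℤ)) -
      Mix.mhat μ k * conj (Mix.mhat μ k)‖ = cdef p q μ a b k (t - s) := by
  rw [← corr_row hμp hμq k ht hts,
    ← neg_sub (k * ((p ^ (b * (M - 1 - t)) * q ^ (a * t) : ℕ) : ℤ)), Mix.mhat_neg]
  have : conj (Mix.mhat μ (k * ((p ^ (b * (M - 1 - t)) * q ^ (a * t) : ℕ) : ℤ) -
      k * ((p ^ (b * (M - 1 - s)) * q ^ (a * s) : ℕ) : ℤ))) -
      Mix.mhat μ k * conj (Mix.mhat μ k) =
      conj (Mix.mhat μ (k * ((p ^ (b * (M - 1 - t)) * q ^ (a * t) : ℕ) : ℤ) -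
      k * ((p ^ (b * (M - 1 - s)) * q ^ (a * s) : ℕ) : ℤ)) -
      Mix.mhat μ k * conj (Mix.mhat μ k)) := by
    rw [map_sub, map_mul, Complex.conj_conj, mul_comm (conj (Mix.mhat μ k))]
  rw [this, Complex.norm_conj]

theorem sum_dist_le {r : ℕ → ℝ} (hr : ∀ n, 0 ≤ r n) {f : ℕ → ℝ} {M s : ℕ} (hs : s < M)
    (h1 : ∀ t, t ≤ s → f t = r (s - t)) (h2 : ∀ t, s ≤ t → t < M → f t = r (t - s)) :
    ∑ t ∈ Finset.range M, f t ≤ 2 * ∑ n ∈ Finset.range M, r n := by
  have e : ∑ t ∈ Finset.range M, f t =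
      ∑ t ∈ Finset.range (s + 1), r (s - t) + ∑ t ∈ Finset.Ico (s + 1) M, r (t - s) := by
    rw [← Finset.sum_range_add_sum_Ico _ (show s + 1 ≤ M by omega)]
    congr 1
    · exact Finset.sum_congr rfl fun t ht => h1 t (by have := Finset.mem_range.1 ht; omega)
    · exact Finset.sum_congr rfl fun t ht => by
        have := Finset.mem_Ico.1 ht
        exact h2 t (by omega) (by omega)
  have a1 : ∑ t ∈ Finset.range (s + 1), r (s - t) ≤ ∑ n ∈ Finset.range M, r n := by
    have : ∑ t ∈ Finset.range (s + 1), r (s - t) = ∑ t ∈ Finset.range (s + 1), r t := by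
      rw [← Finset.sum_range_reflect r (s + 1)]
      exact Finset.sum_congr rfl fun t ht => by
        have := Finset.mem_range.1 ht
        congr 1
    rw [this]
    apply Finset.sum_le_sum_of_subset_of_nonneg
    · intro t ht
      rw [Finset.mem_range] at ht ⊢
      omega
    · intro t _ _
      exact hr t
  have a2 : ∑ t ∈ Finset.Ico (s + 1) M, r (t - s) ≤ ∑ n ∈ Finset.range M, r n := by
    rw [← Finset.sum_image (s := Finset.Ico (s + 1) M) (g := fun t => t - s) (f := r)]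
    · apply Finset.sum_le_sum_of_subset_of_nonneg
      · intro t ht
        obtain ⟨u, hu, rfl⟩ := Finset.mem_image.1 ht
        rw [Finset.mem_Ico] at hu
        rw [Finset.mem_range]
        omega
      · intro t _ _
        exact hr t
    · intro t ht u hu htu
      have h3 := Finset.mem_Ico.1 ht
      have h4 := Finset.mem_Ico.1 hu
      simp only at htu
      omega
  rw [e]
  linarith

/-- Chebyshev. -/
theorem dev_of_corr {p q : ℕ} {μ : Measure UnitAddCircle} [IsProbabilityMeasure μ]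
    (hμp : MeasurePreserving (fun x : UnitAddCircle => p • x) μ μ)
    (hμq : MeasurePreserving (fun x : UnitAddCircle => q • x) μ μ) {a b M : ℕ} (k : ℤ)
    {ε : ℝ} (hε : 0 < ε) :
    μ.real (Dev p q μ a b k ε M) ≤ (2 / ε ^ 2) *
      ((∑ n ∈ Finset.range M, cdef p q μ a b k n) / M) := by
  rcases Nat.eq_zero_or_pos M with rfl | hM
  · simp [Dev]
  have hM' : (0:ℝ) < M := by exact_mod_cast hM
  have hMc : (M : ℂ) ≠ 0 := by exact_mod_cast hM.ne'
  set n : ℕ → ℤ := fun s => k * ((p ^ (b * (M - 1 - s)) * q ^ (a * s) : ℕ) : ℤ) with hn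
  have hcoef : Mix.mhat μ k = coef μ k := rfl
  have hvar := Mix.variance_le (μ := μ) hM (n := n) (c := Mix.mhat μ k)
    (fun s _ => Mix.mhat_mul (mp_mul (mp_pow hμp _) (mp_pow hμq _)) k)
    (T := 2 * ∑ n ∈ Finset.range M, cdef p q μ a b k n) (fun s hs => by
      refine sum_dist_le (cdef_nonneg p q μ a b k) hs (fun t hts => ?_) (fun t hts ht => ?_)
      · exact corr_row hμp hμq k hs hts
      · exact corr_row' hμp hμq k ht hts)
  set f : UnitAddCircle → ℝ := fun x =>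
    ‖(M : ℂ)⁻¹ * ∑ s ∈ Finset.range M, (fourier (n s) x : ℂ) - Mix.mhat μ k‖ ^ 2 with hf
  have hcont : Continuous f := by
    refine (Continuous.norm ?_).pow 2
    exact (continuous_const.mul (continuous_finsetSum _ fun v _ =>
      (fourier _).continuous)).sub continuous_const
  have hint : Integrable f μ :=
    hcont.integrable_of_hasCompactSupport (HasCompactSupport.of_compactSpace f)
  have hmarkov := mul_meas_ge_le_integral_of_nonneg (μ := μ)
    (f := f) (Eventually.of_forall fun x => by simp only [hf, Pi.zero_apply]; positivity)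
    hint (ε ^ 2)
  have hsub : Dev p q μ a b k ε M ⊆ {x | ε ^ 2 ≤ f x} := by
    intro x hx
    simp only [Dev, Set.mem_ofPred_eq] at hx
    simp only [Set.mem_ofPred_eq, hf]
    apply pow_le_pow_left₀ hε.le
    have e1 : (M : ℂ)⁻¹ * ∑ s ∈ Finset.range M, (fourier (n s) x : ℂ) - Mix.mhat μ k =
        (M : ℂ)⁻¹ * ∑ s ∈ Finset.range M, ((fourier (n s) x : ℂ) - coef μ k) := by
      rw [Finset.sum_sub_distrib, Finset.sum_const, Finset.card_range, nsmul_eq_mul, mul_sub,
        ← mul_assoc, inv_mul_cancel₀ hMc, one_mul, hcoef]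
    rw [e1, norm_mul, norm_inv, Complex.norm_natCast, ← div_eq_inv_mul, le_div_iff₀ hM']
    exact hx.le
  have h1 : μ.real (Dev p q μ a b k ε M) ≤ μ.real {x | ε ^ 2 ≤ f x} := measureReal_mono hsub
  have h2 : ε ^ 2 * μ.real {x | ε ^ 2 ≤ f x} ≤
      (2 * ∑ n ∈ Finset.range M, cdef p q μ a b k n) / M := hmarkov.trans hvar
  have h3 : μ.real {x | ε ^ 2 ≤ f x} ≤
      ((2 * ∑ n ∈ Finset.range M, cdef p q μ a b k n) / M) / ε ^ 2 := by
    rw [le_div_iff₀ (by positivity), mul_comm]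
    exact h2
  refine h1.trans (h3.trans (le_of_eq ?_))
  field_simp

/-- The weights. -/
theorem weight_step {M : ℕ} (hM : 3 ≤ M) :
    1 / ((M : ℝ) * (Real.log M) ^ (5 / 4 : ℝ)) ≤
      4 * (Real.log ((M - 1 : ℕ) : ℝ)) ^ (-(1 / 4) : ℝ) - 4 * (Real.log M) ^ (-(1 / 4) : ℝ) := by
  have hM1 : ((M - 1 : ℕ) : ℝ) = (M : ℝ) - 1 := by
    rw [Nat.cast_sub (by omega)]; simp
  have hM3 : (3:ℝ) ≤ M := by exact_mod_cast hM
  rw [hM1]
  set A := Real.log ((M : ℝ) - 1) with hA
  set B := Real.log (M : ℝ) with hB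
  have hA0 : 0 < A := Real.log_pos (by linarith)
  have hB0 : 0 < B := Real.log_pos (by linarith)
  have hAB : 1 / (M : ℝ) ≤ B - A := by
    have h1 : A - B = Real.log (((M : ℝ) - 1) / M) := by
      rw [Real.log_div (by linarith) (by linarith)]
    have h2 := Real.log_le_sub_one_of_pos (show (0:ℝ) < ((M : ℝ) - 1) / M by
      apply div_pos <;> linarith)
    have h3 : ((M : ℝ) - 1) / M - 1 = -(1 / (M : ℝ)) := by
      field_simp
      ring
    rw [← h1, h3] at h2
    linarith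
  have h1 : 1 + (1 / 4) * (1 - A / B) ≤ (A / B) ^ (-(1 / 4) : ℝ) := by
    have hq : 0 < A / B := by positivity
    rw [Real.rpow_def_of_pos hq]
    have h2 := Real.log_le_sub_one_of_pos hq
    have h3 := Real.add_one_le_exp (Real.log (A / B) * -(1 / 4))
    linarith
  have h2 : (A / B) ^ (-(1 / 4) : ℝ) * B ^ (-(1 / 4) : ℝ) = A ^ (-(1 / 4) : ℝ) := by
    rw [← Real.mul_rpow (by positivity) hB0.le, div_mul_cancel₀ _ hB0.ne']
  have hBp : 0 < B ^ (-(1 / 4) : ℝ) := by positivity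
  have h3 : B ^ (-(1 / 4) : ℝ) = B * (B ^ (5 / 4 : ℝ))⁻¹ := by
    rw [← Real.rpow_neg hB0.le, ← Real.rpow_one_add' hB0.le (by norm_num)]
    norm_num
  have hBq : 0 < B ^ (5 / 4 : ℝ) := by positivity
  have h4 : 4 * A ^ (-(1 / 4) : ℝ) - 4 * B ^ (-(1 / 4) : ℝ) ≥
      (B - A) * (B ^ (5 / 4 : ℝ))⁻¹ := by
    have h5 : (1 + (1 / 4) * (1 - A / B)) * B ^ (-(1 / 4) : ℝ) ≤ A ^ (-(1 / 4) : ℝ) := by
      rw [← h2]
      exact mul_le_mul_of_nonneg_right h1 hBp.le
    have h6 : 4 * ((1 + (1 / 4) * (1 - A / B)) * B ^ (-(1 / 4) : ℝ)) =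
        4 * B ^ (-(1 / 4) : ℝ) + (1 - A / B) * B ^ (-(1 / 4) : ℝ) := by ring
    have h7 : (1 - A / B) * B ^ (-(1 / 4) : ℝ) = (B - A) * (B ^ (5 / 4 : ℝ))⁻¹ := by
      rw [h3]
      field_simp
    linarith
  have h5 : 1 / ((M : ℝ) * B ^ (5 / 4 : ℝ)) = (1 / (M : ℝ)) * (B ^ (5 / 4 : ℝ))⁻¹ := by
    rw [one_div, mul_inv, one_div]
  rw [h5]
  have h6 : (1 / (M : ℝ)) * (B ^ (5 / 4 : ℝ))⁻¹ ≤ (B - A) * (B ^ (5 / 4 : ℝ))⁻¹ := by
    gcongr
  linarith

theorem summable_weight {r : ℕ → ℝ} (hr : ∀ n, 0 ≤ r n)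
    (h : Summable (fun n : ℕ => r n / (Real.log n) ^ (1 / 4 : ℝ))) :
    Summable (fun M : ℕ => ((∑ n ∈ Finset.range M, r n) / M) / (Real.log M) ^ (5 / 4 : ℝ)) := by
  set u : ℕ → ℝ := fun M => 4 * (Real.log M) ^ (-(1 / 4) : ℝ) with hu
  have hu0 : ∀ M, 0 ≤ u M := fun M => by
    have := Real.log_natCast_nonneg M
    simp only [hu]
    positivity
  set w : ℕ → ℝ := fun M => ((∑ n ∈ Finset.range M, r n) / M) / (Real.log M) ^ (5 / 4 : ℝ) with hw
  have hR0 : ∀ M, 0 ≤ ∑ n ∈ Finset.range M, r n := fun M => Finset.sum_nonneg fun n _ => hr n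
  have hw0 : ∀ M, 0 ≤ w M := fun M => by
    have := Real.log_natCast_nonneg M
    have := hR0 M
    simp only [hw]
    positivity
  have hru : ∀ n, r n * u n = 4 * (r n / (Real.log n) ^ (1 / 4 : ℝ)) := by
    intro n
    simp only [hu]
    rw [Real.rpow_neg (Real.log_natCast_nonneg n)]
    ring
  have hsum : Summable (fun n : ℕ => r n * u n) := by
    simp_rw [hru]
    exact h.mul_left 4
  have key : ∀ N, ∑ M ∈ Finset.Ico 3 (3 + N), w M +
      u (3 + N - 1) * ∑ n ∈ Finset.range (3 + N), r n ≤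
      u 2 * ∑ n ∈ Finset.range 3, r n + ∑ M ∈ Finset.Ico 3 (3 + N), r M * u M := by
    intro N
    induction N with
    | zero => simp
    | succ N ih =>
      rw [show 3 + (N + 1) = (3 + N) + 1 by ring, Finset.sum_Ico_succ_top (by omega),
        Finset.sum_Ico_succ_top (by omega), Finset.sum_range_succ]
      have h1 : w (3 + N) ≤ (u (3 + N - 1) - u (3 + N)) * ∑ n ∈ Finset.range (3 + N), r n := by
        have h2 := weight_step (M := 3 + N) (by omega)
        have h3 : w (3 + N) = (1 / (((3 + N : ℕ) : ℝ) * (Real.log ((3 + N : ℕ) : ℝ)) ^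
            (5 / 4 : ℝ))) * ∑ n ∈ Finset.range (3 + N), r n := by
          simp only [hw]
          rw [div_div, div_eq_mul_inv, mul_comm, one_div]
        rw [h3]
        exact mul_le_mul_of_nonneg_right h2 (hR0 _)
      have h4 : 3 + N + 1 - 1 = 3 + N := by omega
      rw [h4]
      nlinarith
  refine (summable_nat_add_iff 3).1 ?_
  refine summable_of_sum_range_le (c := u 2 * ∑ n ∈ Finset.range 3, r n + ∑' n, r n * u n)
    (fun n => hw0 _) (fun N => ?_)
  have h1 : ∑ i ∈ Finset.range N, w (i + 3) = ∑ M ∈ Finset.Ico 3 (3 + N), w M := by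
    rw [Finset.sum_Ico_eq_sum_range]
    simp only [Nat.add_sub_cancel_left]
    exact Finset.sum_congr rfl fun i _ => by rw [add_comm]
  rw [h1]
  have h2 := key N
  have h3 : 0 ≤ u (3 + N - 1) * ∑ n ∈ Finset.range (3 + N), r n := mul_nonneg (hu0 _) (hR0 _)
  have h4 : ∑ M ∈ Finset.Ico 3 (3 + N), r M * u M ≤ ∑' n, r n * u n :=
    hsum.sum_le_tsum _ fun n _ => mul_nonneg (hr n) (hu0 n)
  linarith

/-- Correlations to large deviations. -/
theorem dev_summable_of_corr {p q : ℕ} {μ : Measure UnitAddCircle} [IsProbabilityMeasure μ]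
    (hμp : MeasurePreserving (fun x : UnitAddCircle => p • x) μ μ)
    (hμq : MeasurePreserving (fun x : UnitAddCircle => q • x) μ μ) {a b : ℕ} (k : ℤ)
    (h : Summable (fun n : ℕ => cdef p q μ a b k n / (Real.log n) ^ (1 / 4 : ℝ)))
    {ε : ℝ} (hε : 0 < ε) :
    Summable (fun M : ℕ => μ.real (Dev p q μ a b k ε M) / (Real.log M) ^ (5 / 4 : ℝ)) := by
  refine Summable.of_nonneg_of_le (fun M => ?_) (fun M => ?_)
    ((summable_weight (cdef_nonneg p q μ a b k) h).mul_left (2 / ε ^ 2))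
  · have := Real.log_natCast_nonneg M
    positivity
  · have hl := Real.log_natCast_nonneg M
    rw [← mul_div_assoc]
    gcongr
    exact dev_of_corr hμp hμq k hε

theorem vol_corr {p q : ℕ} (hq : 2 ≤ q)
    (h : Irrational (Real.log (p : ℝ) / Real.log (q : ℝ))) {a b : ℕ} (ha : 1 ≤ a)
    (k : ℤ) :
    Summable (fun n : ℕ => cdef p q volume a b k n / (Real.log n) ^ (1 / 4 : ℝ)) := by
  have : (fun n : ℕ => cdef p q (volume : Measure UnitAddCircle) a b k n /
      (Real.log n) ^ (1 / 4 : ℝ)) = fun _ => 0 := by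
    funext n
    rcases Nat.eq_zero_or_pos n with rfl | hn
    · simp [Real.zero_rpow]
    · have h1 : cdef p q (volume : Measure UnitAddCircle) a b k n = 0 := by
        unfold cdef
        by_cases hk : k = 0
        · subst hk
          have : Mix.mhat (volume : Measure UnitAddCircle) 0 = 1 := coef_zero
          rw [zero_mul, this]
          simp
        · have h2 : Mix.mhat (volume : Measure UnitAddCircle) k = 0 := integral_fourier_ne hk
          have h3 : k * ((q : ℤ) ^ (a * n) - (p : ℤ) ^ (b * n)) ≠ 0 := by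
            refine mul_ne_zero hk ?_
            rw [sub_ne_zero]
            intro h4
            have h5 : p ^ (b * n) = q ^ (a * n) := by exact_mod_cast h4.symm
            exact NormalForm_pow_ne hq h (Nat.mul_pos ha hn) h5
          have h4 : Mix.mhat (volume : Measure UnitAddCircle)
              (k * ((q : ℤ) ^ (a * n) - (p : ℤ) ^ (b * n))) = 0 := integral_fourier_ne h3
          rw [h2, h4]
          simp
      rw [h1, zero_div]
  rw [this]
  exact summable_zero

end Pool.Agent.H.MP_96e181_an.Gen
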