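import Mathlib
import Pool.Agent.H.MP_96e181_an.gen.Defs
import Pool.Agent.H.MP_96e181_an.blk.Leb

set_option autoImplicit false

open MeasureTheory

namespace Pool.Agent.H.MP_96e181_an.Gen

open Pool.Agent.H.MP_96e181_an.Blk

namespace ErgAux

lemma integrable_cont (ν : Measure UnitAddCircle) [IsFiniteMeasure ν] (g : C(UnitAddCircle, ℂ)) :
    Integrable (fun x => g x) ν := by
  refine Integrable.of_bound (C := ‖g‖) g.continuous.aestronglyMeasurable ?_
  exact Filter.Eventually.of_forall fun x => g.norm_coe_le_norm x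

lemma continuous_integral (ν : Measure UnitAddCircle) [IsFiniteMeasure ν] :
    Continuous (fun g : C(UnitAddCircle, ℂ) => ∫ x, g x ∂ν) := by
  have : LipschitzWith (ν.real Set.univ).toNNReal (fun g : C(UnitAddCircle, ℂ) => ∫ x, g x ∂ν) := by
    refine LipschitzWith.of_dist_le_mul fun g g₀ => ?_
    rw [dist_eq_norm, ← integral_sub (integrable_cont ν g) (integrable_cont ν g₀),
      Real.coe_toNNReal _ measureReal_nonneg, mul_comm, dist_eq_norm]
    exact norm_integral_le_of_norm_le_const
      (Filter.Eventually.of_forall fun x => (g - g₀).norm_coe_le_norm x)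
  exact this.continuous

/-- Two finite measures on the circle with the same Fourier coefficients are equal. -/
lemma eq_of_coef {μ ν : Measure UnitAddCircle} [IsFiniteMeasure μ] [IsFiniteMeasure ν]
    (h : ∀ k : ℤ, ∫ x, (fourier k x : ℂ) ∂μ = ∫ x, (fourier k x : ℂ) ∂ν) : μ = ν := by
  have key : ∀ g : C(UnitAddCircle, ℂ), ∫ x, g x ∂μ = ∫ x, g x ∂ν := by
    intro g
    have hg : g ∈ (Submodule.span ℂ (Set.range (@fourier (1 : ℝ)))).topologicalClosure := by
      rw [span_fourier_closure_eq_top]
      trivial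
    have hcl : IsClosed {g : C(UnitAddCircle, ℂ) | ∫ x, g x ∂μ = ∫ x, g x ∂ν} :=
      isClosed_eq (continuous_integral μ) (continuous_integral ν)
    have hsub : (Submodule.span ℂ (Set.range (@fourier (1 : ℝ))) : Set C(UnitAddCircle, ℂ)) ⊆
        {g : C(UnitAddCircle, ℂ) | ∫ x, g x ∂μ = ∫ x, g x ∂ν} := by
      intro g hg
      refine Submodule.span_induction ?_ ?_ ?_ ?_ hg
      · rintro _ ⟨k, rfl⟩
        exact h k
      · simp
      · intro a b _ _ ha hb
        simp only [Set.mem_ofPred_eq, ContinuousMap.add_apply] at ha hb ⊢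
        rw [integral_add (integrable_cont μ a) (integrable_cont μ b),
          integral_add (integrable_cont ν a) (integrable_cont ν b), ha, hb]
      · intro c a _ ha
        simp only [Set.mem_ofPred_eq, ContinuousMap.smul_apply] at ha ⊢
        rw [integral_smul, integral_smul, ha]
    exact closure_minimal hsub hcl hg
  apply ext_of_forall_integral_eq_of_IsFiniteMeasure
  intro f
  let g : C(UnitAddCircle, ℂ) := ⟨fun x => (f x : ℂ), by fun_prop⟩
  have hg := key g
  have h1 : ∫ x, g x ∂μ = ((∫ x, f x ∂μ : ℝ) : ℂ) := integral_complex_ofReal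
  have h2 : ∫ x, g x ∂ν = ((∫ x, f x ∂ν : ℝ) : ℂ) := integral_complex_ofReal
  rw [h1, h2] at hg
  exact_mod_cast hg

lemma mp_pow {p : ℕ} {μ : Measure UnitAddCircle}
    (hμp : MeasurePreserving (fun x : UnitAddCircle => p • x) μ μ) (a : ℕ) :
    MeasurePreserving (fun x : UnitAddCircle => p ^ a • x) μ μ := by
  induction a with
  | zero =>
    have e : (fun x : UnitAddCircle => p ^ 0 • x) = id := by
      funext x
      simp
    rw [e]
    exact MeasurePreserving.id μ
  | succ a ih =>
    have h := hμp.comp ih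
    have e : ((fun x : UnitAddCircle => p • x) ∘ fun x : UnitAddCircle => p ^ a • x) =
        fun x => p ^ (a + 1) • x := by
      funext x
      simp only [Function.comp_apply]
      rw [← mul_smul, pow_succ, mul_comm]
    rwa [e] at h

lemma mp_nn {p q : ℕ} {μ : Measure UnitAddCircle}
    (hμp : MeasurePreserving (fun x : UnitAddCircle => p • x) μ μ)
    (hμq : MeasurePreserving (fun x : UnitAddCircle => q • x) μ μ) (v : ℕ × ℕ) :
    MeasurePreserving (fun x : UnitAddCircle => nn p q v • x) μ μ := by
  have h := (mp_pow hμp v.1).comp (mp_pow hμq v.2)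
  have e : ((fun x : UnitAddCircle => p ^ v.1 • x) ∘ fun x : UnitAddCircle => q ^ v.2 • x) =
      fun x => nn p q v • x := by
    funext x
    simp only [Function.comp_apply, nn]
    rw [← mul_smul]
  rwa [e] at h

lemma mem_pow {p : ℕ} {A : Set UnitAddCircle}
    (hA : (fun x : UnitAddCircle => p • x) ⁻¹' A = A) (a : ℕ) (x : UnitAddCircle) :
    p ^ a • x ∈ A ↔ x ∈ A := by
  induction a generalizing x with
  | zero => simp
  | succ a ih =>
    rw [pow_succ, mul_smul, ih]
    have : x ∈ (fun x : UnitAddCircle => p • x) ⁻¹' A ↔ x ∈ A := by rw [hA]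
    exact this

lemma mem_nn {p q : ℕ} {A : Set UnitAddCircle}
    (hA : (fun x : UnitAddCircle => p • x) ⁻¹' A = A)
    (hA' : (fun x : UnitAddCircle => q • x) ⁻¹' A = A) (v : ℕ × ℕ) (x : UnitAddCircle) :
    nn p q v • x ∈ A ↔ x ∈ A := by
  rw [nn, mul_smul, mem_pow hA, mem_pow hA']

lemma fourier_mul_nat (k : ℤ) (n : ℕ) (x : UnitAddCircle) :
    (fourier (k * (n : ℤ)) x : ℂ) = fourier k (n • x) := by
  simp only [fourier_apply, mul_smul, natCast_zsmul]

end ErgAux

open ErgAux

theorem ergodic_of_conv {p q : ℕ} {μ : Measure UnitAddCircle} [IsProbabilityMeasure μ]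
    (hμp : MeasurePreserving (fun x : UnitAddCircle => p • x) μ μ)
    (hμq : MeasurePreserving (fun x : UnitAddCircle => q • x) μ μ)
    (H : ∀ (k : ℤ) (ε : ℝ), 0 < ε → ∃ F : Finset (ℕ × ℕ), F.Nonempty ∧
      ∫ x : UnitAddCircle, ‖∑ v ∈ F, ((fourier (k * (nn p q v : ℤ)) x : ℂ) - coef μ k)‖ ^ 2 ∂μ ≤
        ε * (F.card : ℝ) ^ 2) :
    ∀ A : Set UnitAddCircle, MeasurableSet A →
      (fun x : UnitAddCircle => p • x) ⁻¹' A = A → (fun x : UnitAddCircle => q • x) ⁻¹' A = A →
      μ A = 0 ∨ μ Aᶜ = 0 := by
  intro A hA hAp hAq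
  -- the integral over `A` of each exponential
  have hshift : ∀ (k : ℤ) (v : ℕ × ℕ),
      ∫ x in A, (fourier (k * (nn p q v : ℤ)) x : ℂ) ∂μ = ∫ x in A, (fourier k x : ℂ) ∂μ := by
    intro k v
    rw [← integral_indicator hA, ← integral_indicator hA]
    have hmp := mp_nn hμp hμq v
    have hmeas : AEStronglyMeasurable (A.indicator fun x : UnitAddCircle => (fourier k x : ℂ))
        (μ.map fun x : UnitAddCircle => nn p q v • x) :=
      ((fourier k).continuous.stronglyMeasurable.indicator hA).aestronglyMeasurable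
    have h1 := integral_map hmp.measurable.aemeasurable hmeas
    rw [hmp.map_eq] at h1
    rw [h1]
    refine integral_congr_ae (Filter.Eventually.of_forall fun x => ?_)
    simp only
    by_cases hx : x ∈ A
    · rw [Set.indicator_of_mem hx, Set.indicator_of_mem ((mem_nn hAp hAq v x).2 hx),
        fourier_mul_nat]
    · rw [Set.indicator_of_notMem hx, Set.indicator_of_notMem fun h => hx ((mem_nn hAp hAq v x).1 h)]
  have hcoef : ∀ k : ℤ, ∫ x in A, (fourier k x : ℂ) ∂μ = (μ.real A : ℂ) * coef μ k := by
    intro k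
    set D : ℂ := ∫ x in A, (fourier k x : ℂ) ∂μ - (μ.real A : ℂ) * coef μ k with hD
    have hbound : ∀ ε : ℝ, 0 < ε → ‖D‖ ^ 2 ≤ ε := by
      intro ε hε
      obtain ⟨F, hF, hle⟩ := H k ε hε
      set S : UnitAddCircle → ℂ :=
        fun x => ∑ v ∈ F, ((fourier (k * (nn p q v : ℤ)) x : ℂ) - coef μ k) with hS
      have hSc : Continuous S := by
        rw [hS]
        refine continuous_finsetSum _ fun v _ => ?_
        exact ((fourier (k * (nn p q v : ℤ))).continuous).sub continuous_const
      let g : C(UnitAddCircle, ℂ) := ⟨S, hSc⟩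
      have hSi : Integrable S μ := integrable_cont μ g
      have hSn : Integrable (fun x => ‖S x‖) μ := hSi.norm
      have hS2 : Integrable (fun x => ‖S x‖ ^ 2) μ := by
        refine Integrable.of_bound (C := ‖g‖ ^ 2) (by fun_prop) ?_
        refine Filter.Eventually.of_forall fun x => ?_
        rw [Real.norm_of_nonneg (by positivity)]
        have := g.norm_coe_le_norm x
        exact pow_le_pow_left₀ (norm_nonneg _) this 2
      have hint : ∫ x in A, S x ∂μ = (F.card : ℂ) * D := by
        have hi : ∀ v ∈ F, Integrable (fun x : UnitAddCircle =>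
            (fourier (k * (nn p q v : ℤ)) x : ℂ) - coef μ k) (μ.restrict A) := fun v _ =>
          (Integrable.sub (integrable_fourier _) (integrable_const _)).restrict
        rw [hS, integral_finsetSum _ hi]
        have : ∀ v ∈ F, ∫ x in A, ((fourier (k * (nn p q v : ℤ)) x : ℂ) - coef μ k) ∂μ = D := by
          intro v _
          rw [integral_sub (integrable_fourier _).integrableOn (integrable_const _), hshift, hD]
          simp
        rw [Finset.sum_congr rfl this]
        simp
      have h1 : ‖∫ x in A, S x ∂μ‖ ≤ ∫ x, ‖S x‖ ∂μ :=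
        (norm_integral_le_integral_norm _).trans
          (setIntegral_le_integral hSn (Filter.Eventually.of_forall fun x => norm_nonneg _))
      set t : ℝ := ∫ x, ‖S x‖ ∂μ with ht
      have h2 : t ^ 2 ≤ ∫ x, ‖S x‖ ^ 2 ∂μ := by
        have h3 : 0 ≤ ∫ x, (‖S x‖ - t) ^ 2 ∂μ := integral_nonneg fun x => sq_nonneg _
        have h4 : ∫ x, (‖S x‖ - t) ^ 2 ∂μ = ∫ x, ‖S x‖ ^ 2 ∂μ - t ^ 2 := by
          have e : ∀ x, (‖S x‖ - t) ^ 2 = ‖S x‖ ^ 2 - ((2 * t) * ‖S x‖ - t ^ 2) := fun x => by ring
          simp_rw [e]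
          have hi : Integrable (fun x => (2 * t) * ‖S x‖ - t ^ 2) μ :=
            Integrable.sub (hSn.const_mul _) (integrable_const _)
          rw [integral_sub hS2 hi,
            integral_sub (hSn.const_mul _) (integrable_const _), integral_const_mul, ← ht]
          simp
          ring
        linarith
      have hcard : (0 : ℝ) < (F.card : ℝ) := by exact_mod_cast hF.card_pos
      have h5 : (F.card : ℝ) * ‖D‖ ≤ t := by
        rw [hint, norm_mul, Complex.norm_natCast] at h1
        exact h1
      have h6 : ((F.card : ℝ) * ‖D‖) ^ 2 ≤ ε * (F.card : ℝ) ^ 2 :=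
        (pow_le_pow_left₀ (by positivity) h5 2).trans (h2.trans hle)
      have h7 : (F.card : ℝ) ^ 2 * ‖D‖ ^ 2 ≤ (F.card : ℝ) ^ 2 * ε := by
        rw [← mul_pow, mul_comm _ ε]
        exact h6
      exact le_of_mul_le_mul_left h7 (by positivity)
    have hD0 : ‖D‖ ^ 2 ≤ 0 := le_of_forall_pos_le_add fun ε hε => by simpa using hbound ε hε
    have hD1 : D = 0 := by
      have : ‖D‖ = 0 := by nlinarith [norm_nonneg D]
      exact norm_eq_zero.1 this
    exact sub_eq_zero.1 hD1
  -- equality of measures
  have hmeas : μ.restrict A = (μ A) • μ := by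
    have : IsFiniteMeasure ((μ A) • μ) := by
      refine ⟨?_⟩
      rw [Measure.smul_apply, smul_eq_mul, measure_univ, mul_one]
      exact measure_lt_top μ A
    refine eq_of_coef fun k => ?_
    rw [hcoef, integral_smul_measure]
    rfl
  have hself : μ A = μ A * μ A := by
    have := congrArg (fun m => m A) hmeas
    simpa using this
  rcases eq_or_ne (μ A) 0 with h0 | h0
  · exact Or.inl h0
  · right
    have h1 : μ A = 1 := by
      have h2 : μ A * 1 = μ A * μ A := by rw [mul_one]; exact hself
      exact ((ENNReal.mul_right_inj h0 (measure_ne_top μ A)).1 h2).symm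
    rw [measure_compl hA (measure_ne_top μ A), h1, measure_univ, tsub_self]

end Pool.Agent.H.MP_96e181_an.Gen
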