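import Mathlib
import Pool.Agent.H.MP_96e181_an.blk.Defs
import Pool.Agent.H.MP_96e181_an.gen.Defs
import Pool.Agent.H.MP_96e181_an.gen.NormalForm
import Pool.Agent.H.MP_96e181_an.gen.Strip
import Pool.Agent.H.MP_96e181_an.gen.StatCore
import Pool.Agent.H.MP_96e181_an.gen.Cover
import Pool.Agent.H.MP_96e181_an.gen.ErgConv
import Pool.Agent.H.MP_96e181_an.gen.Master

set_option autoImplicit false

open MeasureTheory Filter Topology

namespace Pool.Agent.H.MP_96e181_an.Gen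

open Pool.Agent.H.MP_96e181_an.Blk

/-- Chebyshev. -/
theorem cheb {p q : ℕ} {μ : Measure UnitAddCircle} [IsProbabilityMeasure μ] (k : ℤ) {C ε : ℝ}
    (hε : 0 < ε) {F : Finset (ℕ × ℕ)} (hF : F.Nonempty)
    (H : ∫ x : UnitAddCircle, ‖∑ v ∈ F, ((fourier (k * (nn p q v : ℤ)) x : ℂ) - coef μ k)‖ ^ 2 ∂μ ≤
      C) :
    μ.real {x | ε * F.card <
      ‖∑ v ∈ F, ((fourier (k * (nn p q v : ℤ)) x : ℂ) - coef μ k)‖} ≤
      C / (ε * F.card) ^ 2 := by
  have hN : (0 : ℝ) < F.card := by exact_mod_cast hF.card_pos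
  set G : UnitAddCircle → ℝ := fun x =>
    ‖∑ v ∈ F, ((fourier (k * (nn p q v : ℤ)) x : ℂ) - coef μ k)‖ with hG
  have hGc : Continuous G := by
    apply Continuous.norm
    apply continuous_finsetSum
    intro v _
    exact ((fourier (k * (nn p q v : ℤ))).continuous).sub continuous_const
  have hGi : Integrable (fun x => G x ^ 2) μ := by
    have h1 : Continuous (fun x => G x ^ 2) := hGc.pow 2
    exact h1.integrable_of_hasCompactSupport (HasCompactSupport.of_compactSpace _)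
  have hms := mul_meas_ge_le_integral_of_nonneg (μ := μ) (f := fun x => G x ^ 2)
    (Filter.Eventually.of_forall (fun x => by positivity)) hGi ((ε * F.card) ^ 2)
  have hsub : {x | ε * F.card < G x} ⊆ {x | (ε * F.card) ^ 2 ≤ G x ^ 2} := by
    intro x hx
    simp only [Set.mem_ofPred_eq] at hx ⊢
    have : 0 ≤ ε * F.card := by positivity
    exact pow_le_pow_left₀ this hx.le 2
  have h3 : μ.real {x | ε * F.card < G x} ≤ μ.real {x | (ε * F.card) ^ 2 ≤ G x ^ 2} :=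
    measureReal_mono hsub
  rw [le_div_iff₀ (by positivity)]
  calc μ.real {x | ε * F.card < G x} * (ε * F.card) ^ 2
      ≤ μ.real {x | (ε * F.card) ^ 2 ≤ G x ^ 2} * (ε * F.card) ^ 2 := by gcongr
    _ = (ε * F.card) ^ 2 * μ.real {x | (ε * F.card) ^ 2 ≤ G x ^ 2} := mul_comm _ _
    _ ≤ C := hms.trans H

/-- The bad set for finitely many frequencies. -/
theorem bad_set {p q : ℕ} {μ : Measure UnitAddCircle} [IsProbabilityMeasure μ] (S : Finset ℤ)
    {ε : ℝ} (hε : 0 < ε) {F : Finset (ℕ × ℕ)} (hF : F.Nonempty) (c : ℤ → ℝ)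
    (H : ∀ k ∈ S, ∫ x : UnitAddCircle,
      ‖∑ v ∈ F, ((fourier (k * (nn p q v : ℤ)) x : ℂ) - coef μ k)‖ ^ 2 ∂μ ≤ c k) :
    ∃ E : Set UnitAddCircle, MeasurableSet E ∧
      μ.real E ≤ (∑ k ∈ S, c k) / (ε * F.card) ^ 2 ∧
      ∀ x, x ∉ E → ∀ k ∈ S,
        ‖∑ v ∈ F, ((fourier (k * (nn p q v : ℤ)) x : ℂ) - coef μ k)‖ ≤ ε * F.card := by
  refine ⟨⋃ k ∈ S, {x | ε * F.card <
      ‖∑ v ∈ F, ((fourier (k * (nn p q v : ℤ)) x : ℂ) - coef μ k)‖}, ?_, ?_, ?_⟩
  · refine Finset.measurableSet_biUnion _ fun k _ => ?_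
    refine measurableSet_lt measurable_const ?_
    apply Continuous.measurable
    apply Continuous.norm
    apply continuous_finsetSum
    intro v _
    exact ((fourier (k * (nn p q v : ℤ))).continuous).sub continuous_const
  · refine (measureReal_biUnion_finset_le _ _).trans ?_
    rw [Finset.sum_div]
    exact Finset.sum_le_sum fun k hk => cheb k hε hF (H k hk)
  · intro x hx k hk
    by_contra hcon
    push Not at hcon
    apply hx
    simp only [Set.mem_iUnion]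
    exact ⟨k, hk, hcon⟩

theorem R_le {p q : ℕ} (hp : 2 ≤ p) (N : NF p q) (i : Fin N.J) : N.R i ≤ p := by
  apply Nat.le_of_dvd (by omega)
  have h1 : N.R i ∣ N.R i ^ N.A i := dvd_pow_self _ (by have := N.hA i; omega)
  have h2 : N.R i ^ N.A i ∣ ∏ i, N.R i ^ N.A i :=
    Finset.dvd_prod_of_mem (fun i => N.R i ^ N.A i) (Finset.mem_univ i)
  rw [← N.hp] at h2
  exact h1.trans h2

theorem pow_le_of_div {p t : ℕ} : p ^ (2 * (t / (4 * p))) ≤ 2 ^ (t / 2) := by
  have h1 : p ≤ 2 ^ p := Nat.lt_two_pow_self.le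
  calc p ^ (2 * (t / (4 * p))) ≤ (2 ^ p) ^ (2 * (t / (4 * p))) := Nat.pow_le_pow_left h1 _
    _ = 2 ^ (p * (2 * (t / (4 * p)))) := by rw [← pow_mul]
    _ ≤ 2 ^ (t / 2) := by
        apply Nat.pow_le_pow_right (by norm_num)
        rw [Nat.le_div_iff_mul_le (by norm_num)]
        calc p * (2 * (t / (4 * p))) * 2 = (4 * p) * (t / (4 * p)) := by ring
          _ ≤ t := Nat.mul_div_le t (4 * p)

theorem main_gen {p q : ℕ} (hp : 2 ≤ p) (hq : 2 ≤ q)
    (h : Irrational (Real.log (p : ℝ) / Real.log (q : ℝ)))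
    {μ : Measure UnitAddCircle} [IsProbabilityMeasure μ] [NullSingletonClass μ]
    (hμp : MeasurePreserving (fun x : UnitAddCircle => p • x) μ μ)
    (hμq : MeasurePreserving (fun x : UnitAddCircle => q • x) μ μ)
    (H : ∀ k : ℤ, ∃ C : ℝ, ∀ F : Finset (ℕ × ℕ),
      ∫ x : UnitAddCircle, ‖∑ v ∈ F, ((fourier (k * (nn p q v : ℤ)) x : ℂ) - coef μ k)‖ ^ 2 ∂μ ≤
        C * F.card) :
    μ = (volume : Measure UnitAddCircle) := by
  classical
  by_contra hne
  choose CC hCC using H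
  have herg := ergodic_of_conv (p := p) (q := q) hμp hμq (by
    intro k ε hε
    obtain ⟨n, hn⟩ := exists_nat_gt (max 0 (CC k / ε))
    have hn0 : (0:ℝ) < n := (le_max_left _ _).trans_lt hn
    have hn1 : CC k / ε < n := (le_max_right _ _).trans_lt hn
    have hn0' : 0 < n := by exact_mod_cast hn0
    refine ⟨(Finset.range n) ×ˢ {0}, ?_, ?_⟩
    · rw [Finset.nonempty_product, Finset.nonempty_range_iff]
      exact ⟨hn0'.ne', Finset.singleton_nonempty 0⟩
    · refine (hCC k _).trans ?_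
      rw [Finset.card_product, Finset.card_range, Finset.card_singleton, mul_one]
      rw [div_lt_iff₀ hε] at hn1
      nlinarith)
  obtain ⟨N⟩ := exists_nf hp hq h
  obtain ⟨Cs, hCs1, hCs⟩ := strip_conc hp hq N
  have hCs0 : 0 < Cs := by linarith
  obtain ⟨Z, r, hr, hZr, hZ⟩ := small_cover hp hq h hμp hμq herg hne
    (ε := 1 / (160 * Cs)) (by positivity)
  obtain ⟨S, ε, hε, hS⟩ := stat_core (p := p) (q := q) Z hr hZ
  set n : ℝ := (Z.card : ℝ) with hn
  have hn0 : 0 ≤ n := Nat.cast_nonneg _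
  have hN1 : 160 * Cs * n ^ 2 * r ≤ 1 := by
    rw [le_div_iff₀ (by positivity)] at hZr
    linarith
  obtain ⟨i₀, hi₀⟩ : ∃ i₀ : ℕ, 16 * Cs * n ^ 2 ≤ 2 ^ i₀ := by
    obtain ⟨i, hi⟩ := pow_unbounded_of_one_lt (16 * Cs * n ^ 2) (by norm_num : (1:ℝ) < 2)
    exact ⟨i, hi.le⟩
  set A' : ℝ := (∑ k ∈ S, |CC k|) / ε ^ 2 with hA'
  have hA'0 : 0 ≤ A' := by positivity
  set s : ℕ → ℕ := fun t => t / (4 * p) with hs
  set AA : ℕ := ∏ j, N.A j with hAA
  have hA1 : 1 ≤ AA := Nat.succ_le_of_lt (Finset.prod_pos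
    (fun j _ => Nat.lt_of_lt_of_le Nat.zero_lt_one (N.hA j)))
  have hAdvd : ∀ i, N.A i ∣ AA := fun i => Finset.dvd_prod_of_mem N.A (Finset.mem_univ i)
  have hAl : ∀ i t, N.A i ∣ AA * 2 ^ t := fun i t => (hAdvd i).trans (dvd_mul_right _ _)
  have hMt : ∀ i t, 2 ^ t ≤ AA * 2 ^ t / N.A i := by
    intro i t
    have hAi := N.hA i
    rw [Nat.le_div_iff_mul_le (by omega), mul_comm]
    exact Nat.mul_le_mul_right _ (Nat.le_of_dvd hA1 (hAdvd i))
  -- an eventual inequality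
  have hlim1 : ∀ᶠ t : ℕ in atTop, 16 * n ^ 2 * (10 * r * 2 ^ (t / 2) + 1) ≤ (2:ℝ) ^ t := by
    have h1 : Tendsto (fun t : ℕ => (16 * n ^ 2 * (10 * r + 1)) *
        ((2:ℝ) ^ (-(1/2 : ℝ))) ^ t) atTop (𝓝 ((16 * n ^ 2 * (10 * r + 1)) * 0)) := by
      apply Tendsto.const_mul
      apply tendsto_pow_atTop_nhds_zero_of_lt_one (by positivity)
      apply Real.rpow_lt_one_of_one_lt_of_neg (by norm_num) (by norm_num)
    rw [mul_zero] at h1
    filter_upwards [h1.eventually (gt_mem_nhds (by norm_num : (0:ℝ) < 1))] with t ht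
    have h2 : (2:ℝ) ^ (t / 2) ≤ (2:ℝ) ^ ((1/2 : ℝ) * t) := by
      rw [← Real.rpow_natCast]
      apply Real.rpow_le_rpow_of_exponent_le (by norm_num)
      have : ((t / 2 : ℕ) : ℝ) ≤ (t : ℝ) / 2 := Nat.cast_div_le
      linarith
    have h3 : (1:ℝ) ≤ (2:ℝ) ^ ((1/2 : ℝ) * t) := by
      apply Real.one_le_rpow (by norm_num) (by positivity)
    have h4 : 16 * n ^ 2 * (10 * r * 2 ^ (t / 2) + 1) ≤
        16 * n ^ 2 * (10 * r + 1) * (2:ℝ) ^ ((1/2 : ℝ) * t) := by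
      have : 10 * r * 2 ^ (t / 2) + 1 ≤ (10 * r + 1) * (2:ℝ) ^ ((1/2 : ℝ) * t) := by
        have := mul_le_mul_of_nonneg_left h2 (by positivity : 0 ≤ 10 * r)
        nlinarith
      calc 16 * n ^ 2 * (10 * r * 2 ^ (t / 2) + 1) ≤
          16 * n ^ 2 * ((10 * r + 1) * (2:ℝ) ^ ((1/2 : ℝ) * t)) := by gcongr
        _ = _ := by ring
    have h5 : (2:ℝ) ^ ((1/2 : ℝ) * t) = ((2:ℝ) ^ (-(1/2 : ℝ))) ^ t * 2 ^ t := by
      rw [← mul_pow, ← Real.rpow_natCast (_ * 2) t, Real.rpow_mul (by norm_num)]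
      congr 1
      have h6 := Real.rpow_add (by norm_num : (0:ℝ) < 2) (-(1/2 : ℝ)) 1
      rw [Real.rpow_one] at h6
      rw [← h6]
      norm_num
    calc 16 * n ^ 2 * (10 * r * 2 ^ (t / 2) + 1)
        ≤ 16 * n ^ 2 * (10 * r + 1) * (2:ℝ) ^ ((1/2 : ℝ) * t) := h4
      _ = (16 * n ^ 2 * (10 * r + 1) * ((2:ℝ) ^ (-(1/2 : ℝ))) ^ t) * 2 ^ t := by
          rw [h5]; ring
      _ ≤ 1 * 2 ^ t := by gcongr
      _ = 2 ^ t := one_mul _
  rw [eventually_atTop] at hlim1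
  obtain ⟨t₂, ht₂⟩ := hlim1
  obtain ⟨u, hu⟩ : ∃ u : ℕ, 16 * n ^ 2 * i₀ ≤ u := exists_nat_ge _
  set t₀ : ℕ := t₂ + 4 * p * (u + i₀ + 1) + 8 * p with ht₀
  have hst : ∀ t, t₀ ≤ t → u + i₀ + 1 ≤ s t := by
    intro t ht
    simp only [hs]
    rw [Nat.le_div_iff_mul_le (by omega)]
    calc (u + i₀ + 1) * (4 * p) = 4 * p * (u + i₀ + 1) := by ring
      _ ≤ t := by omega
  have hslow : ∀ t, t₀ ≤ t → (t : ℝ) / (8 * p) ≤ s t := by
    intro t ht
    have h1 : (t : ℝ) < (4 * p) * (t / (4 * p) : ℕ) + 4 * p := by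
      have := Nat.lt_mul_div_succ t (show 0 < 4 * p by omega)
      have h2 : (t : ℝ) < ((4 * p * (t / (4 * p) + 1) : ℕ) : ℝ) := by exact_mod_cast this
      push_cast at h2
      push_cast
      linarith
    have h3 : (8 * p : ℝ) ≤ t := by exact_mod_cast (by omega : 8 * p ≤ t)
    rw [div_le_iff₀ (by positivity)]
    simp only [hs]
    nlinarith
  set β : ℕ → ℝ := fun t => A' / (s t * 2 ^ t) with hβ
  refine master hp hq N hμp Z hr s t₀ (fun t ht => by have := hst t ht; omega) ?_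
    (fun t i m c => strip N i (s t) (AA * 2 ^ t) m c) (fun t i m c => Finset.Subset.refl _)
    β (fun t => by simp only [hβ]; positivity) ?_ ?_ ?_
  · -- s t is small
    intro c
    have h1 : Tendsto (fun t : ℕ => (t : ℝ) ^ 1 / (2:ℝ) ^ t) atTop (𝓝 0) :=
      tendsto_pow_const_div_const_pow_of_one_lt 1 (by norm_num)
    have h2 : ∀ᶠ t : ℕ in atTop, (t : ℝ) ^ 1 / (2:ℝ) ^ t < 1 / ((c : ℝ) + 1) :=
      h1.eventually (gt_mem_nhds (by positivity))
    rw [eventually_atTop] at h2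
    obtain ⟨t₁, ht₁⟩ := h2
    refine ⟨t₁, fun t ht => ?_⟩
    have h3 := ht₁ t ht
    rw [pow_one, div_lt_div_iff₀ (by positivity) (by positivity), one_mul] at h3
    have h4 : t * (c + 1) < 2 ^ t := by exact_mod_cast h3
    have h5 : s t ≤ t := Nat.div_le_self _ _
    calc c * s t ≤ c * t := Nat.mul_le_mul_left _ h5
      _ ≤ t * (c + 1) := by nlinarith
      _ ≤ 2 ^ t := h4.le
  · -- summability
    have h1 : Summable (fun t : ℕ => (A' * (8 * p) ^ 2) * (1 / (t : ℝ) ^ 2)) :=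
      (Real.summable_one_div_nat_pow.2 (by norm_num)).mul_left _
    refine Summable.of_norm_bounded_eventually_nat h1 ?_
    filter_upwards [eventually_ge_atTop t₀] with t ht
    have hs0 : (0:ℝ) < s t := by
      have := hst t ht
      exact_mod_cast (by omega : 0 < s t)
    have ht0 : (0:ℝ) < t := by
      have : 0 < t := by omega
      exact_mod_cast this
    have h2 := hslow t ht
    have h3 : (2:ℝ) ^ t / s t * β t = A' * (1 / (s t : ℝ) ^ 2) := by
      simp only [hβ]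
      field_simp
    rw [h3, Real.norm_of_nonneg (by positivity)]
    have h4 : 1 / (s t : ℝ) ^ 2 ≤ 1 / ((t : ℝ) / (8 * p)) ^ 2 := by gcongr
    calc A' * (1 / (s t : ℝ) ^ 2) ≤ A' * (1 / ((t : ℝ) / (8 * p)) ^ 2) := by gcongr
      _ = _ := by field_simp
  · -- the bad sets
    intro t ht i m c hfull
    have hst0 := hst t ht
    have hcard := card_strip N i (hAl i t) hfull
    have hM := hMt i t
    have h2t : 0 < 2 ^ t := by positivity
    have hcard0 : s t * 2 ^ t ≤ (strip N i (s t) (AA * 2 ^ t) m c).card := by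
      rw [hcard]; exact Nat.mul_le_mul_left _ hM
    have hpos : 0 < s t * 2 ^ t := Nat.mul_pos (by omega) h2t
    have hne : (strip N i (s t) (AA * 2 ^ t) m c).Nonempty :=
      Finset.card_pos.1 (lt_of_lt_of_le hpos hcard0)
    refine ⟨hne, ?_⟩
    set F := strip N i (s t) (AA * 2 ^ t) m c with hF
    obtain ⟨E, hE1, hE2, hE3⟩ := bad_set (p := p) (q := q) (μ := μ) S hε hne
      (fun k => |CC k| * F.card) (fun k _ => (hCC k F).trans (by
        gcongr
        exact le_abs_self _))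
    refine ⟨E, hE1, hE2.trans ?_, fun x hx => hS F hne x (hE3 x hx)⟩
    have hFc : (0:ℝ) < F.card := by exact_mod_cast hne.card_pos
    have hFc2 : (s t : ℝ) * 2 ^ t ≤ F.card := by exact_mod_cast hcard0
    have hpos' : (0:ℝ) < (s t : ℝ) * 2 ^ t := by exact_mod_cast hpos
    rw [← Finset.sum_mul]
    have h1 : (∑ k ∈ S, |CC k|) * (F.card : ℝ) / (ε * F.card) ^ 2 = A' / F.card := by
      rw [hA']; field_simp
    rw [h1]
    simp only [hβ]
    gcongr
  · -- non-concentration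
    intro t ht i m c o T ξ ho hE z
    have hst0 := hst t ht
    have hcard := card_strip N i (hAl i t) hE.full
    have hM : (2:ℝ) ^ t ≤ ((AA * 2 ^ t / N.A i : ℕ) : ℝ) := by exact_mod_cast hMt i t
    have h1 := hCs i (s t) (AA * 2 ^ t) m c T i₀ o ξ z (5 * r) (by positivity) (hAl i t) ho hE
      (by omega)
    rw [hcard]
    push_cast
    set M : ℝ := ((AA * 2 ^ t / N.A i : ℕ) : ℝ) with hMdef
    have hM0 : 0 < M := lt_of_lt_of_le (by positivity) hM
    have hs0 : (0:ℝ) < s t := by exact_mod_cast (by omega : 0 < s t)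
    have h2 : (N.R i : ℝ) ^ (2 * s t) ≤ 2 ^ (t / 2) := by
      have h3 : N.R i ^ (2 * s t) ≤ 2 ^ (t / 2) :=
        (Nat.pow_le_pow_left (R_le hp N i) _).trans pow_le_of_div
      exact_mod_cast h3
    have h3 := ht₂ t (by omega)
    -- the four pieces
    have a1 : 2 * n ^ 2 * (i₀ * M) ≤ 1 / 8 * (s t * M) := by
      have h4 : (u : ℝ) ≤ s t := by exact_mod_cast (by omega : u ≤ s t)
      have h5 : 16 * n ^ 2 * i₀ ≤ s t := hu.trans h4
      nlinarith
    have a2 : 2 * n ^ 2 * (Cs * (2 * (5 * r)) * M) ≤ 1 / 8 * M := by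
      have : 2 * n ^ 2 * (Cs * (2 * (5 * r)) * M) = (160 * Cs * n ^ 2 * r) * M / 8 := by ring
      rw [this]
      nlinarith
    have a3 : 2 * n ^ 2 * (Cs * (1 / 2 ^ i₀) * M) ≤ 1 / 8 * M := by
      have h4 : (0:ℝ) < 2 ^ i₀ := by positivity
      have : 2 * n ^ 2 * (Cs * (1 / 2 ^ i₀) * M) = (16 * Cs * n ^ 2) / 2 ^ i₀ * (M / 8) := by
        field_simp
        ring
      rw [this]
      have h5 : (16 * Cs * n ^ 2) / 2 ^ i₀ ≤ 1 := (div_le_one h4).2 hi₀
      nlinarith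
    have a4 : 2 * n ^ 2 * (2 * (5 * r) * (N.R i : ℝ) ^ (2 * s t) + 1) ≤ 1 / 8 * M := by
      have h4 : 2 * (5 * r) * (N.R i : ℝ) ^ (2 * s t) + 1 ≤ 10 * r * 2 ^ (t / 2) + 1 := by
        have : 2 * (5 * r) * (N.R i : ℝ) ^ (2 * s t) ≤ 2 * (5 * r) * 2 ^ (t / 2) := by gcongr
        linarith
      have h5 : 2 * n ^ 2 * (2 * (5 * r) * (N.R i : ℝ) ^ (2 * s t) + 1) ≤
          2 * n ^ 2 * (10 * r * 2 ^ (t / 2) + 1) := by gcongr
      linarith
    have a5 : 2 * n ^ 2 * (s t * (Cs * (2 * (5 * r) + 1 / 2 ^ i₀) * M +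
        2 * (5 * r) * (N.R i : ℝ) ^ (2 * s t) + 1)) ≤ 3 / 8 * (s t * M) := by
      have : 2 * n ^ 2 * (s t * (Cs * (2 * (5 * r) + 1 / 2 ^ i₀) * M +
          2 * (5 * r) * (N.R i : ℝ) ^ (2 * s t) + 1)) =
          s t * (2 * n ^ 2 * (Cs * (2 * (5 * r)) * M) + 2 * n ^ 2 * (Cs * (1 / 2 ^ i₀) * M) +
            2 * n ^ 2 * (2 * (5 * r) * (N.R i : ℝ) ^ (2 * s t) + 1)) := by ring
      rw [this]
      nlinarith
    have h6 := mul_le_mul_of_nonneg_left h1 (by positivity : 0 ≤ 2 * n ^ 2)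
    rw [mul_add] at h6
    have h7 : 0 < s t * M := by positivity
    linarith

end Pool.Agent.H.MP_96e181_an.Gen
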